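import Mathlib
import Pool.Agent.TFN.Mult
import Pool.Agent.TFN.LocT

/-!
# Definitions for the theorem on lines without chain conditions
-/

set_option autoImplicit false

namespace Pool.TF90

open Cardinal Pool.TFR Pool.TFM Pool.TFN

/-- Transitive actions over a ring which is locally generated by the kernel of `κ`. -/
structure TrG (p : ℕ) (Q Γ R V : Type) [Group Q] [CommGroup Γ] [CommRing R] [AddCommGroup V]
    [Module R V] extends TrR p Q Γ R V where
  gen : ∀ (r : R) (S : Finset V),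
    ∃ s ∈ Subring.closure {a : R | ∃ k, κ k = 1 ∧ ∀ w : V, act k w = a • w},
      ∀ v ∈ S, r • v = s • v

namespace TrG

variable {p : ℕ} [Fact p.Prime] {Q Γ R V : Type} [Group Q] [CommGroup Γ] [CommRing R]
  [AddCommGroup V] [Module R V] (T : TrG p Q Γ R V)

/-- the ambient structure -/
abbrev A : Amb p Q T.Gr R V := T.toAmb

/-- the line through the base point -/
abbrev ln : Submodule R V := Submodule.span R {T.c}

/-- every element moving `c` into `B0` has a power moving `c` into `B` -/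
def Big (B0 B : Submodule R V) : Prop :=
  ∀ h : Q, T.act h T.c ∈ B0 → ∃ m : ℕ, 0 < m ∧ T.act (h ^ m) T.c ∈ B

/-- invariant ideals -/
def Inv (I : Ideal R) : Prop := ∀ (h : Q), ∀ r ∈ I, T.cj h r ∈ I

/-- the ideal generated by the differences `r ^ u - r` -/
def aI (u : Q) : Ideal R := Ideal.span {a : R | ∃ r : R, T.cj u r - r = a}

/-- stably big ideals -/
def StB (B0 : Submodule R V) (I : Ideal R) : Prop :=
  ∀ B : Submodule R V, B ≤ B0 → T.A.IsBlock B → T.Big B0 B → T.Big B0 (T.ln ⊔ I • B)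

/-- finitely generated blocks -/
def FGB : Prop := ∀ B : Submodule R V, T.A.IsBlock B →
  ∃ P : Submodule R V, P ≤ B ∧ T.A.IsBlock P ∧ P.FG ∧ T.Big B P

/-- a block of minimal positive rank -/
structure MinB (B0 : Submodule R V) : Prop where
  blk : T.A.IsBlock B0
  not_tor : ¬ T.Big B0 T.ln
  dich : ∀ B : Submodule R V, B ≤ B0 → T.A.IsBlock B → T.Big B0 B ∨ T.Big B T.ln

/-- a real valued flag on a block -/
structure Flag (B : Submodule R V) where
  hB : T.A.IsBlock B
  v : Q → ℝ
  v_mul : ∀ g h, T.act g T.c ∈ B → T.act h T.c ∈ B → v (g * h) = v g + v h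
  v_L : ∀ h ∈ T.L, v h = 0
  no : T.c ∉ Submodule.span R {x : V | ∃ h, T.act h T.c ∈ B ∧ 0 < v h ∧ T.act h T.c = x}
  pos : ∃ h, T.act h T.c ∈ B ∧ 0 < v h

namespace Flag

variable {T} {B : Submodule R V} (F : T.Flag B)

/-- span of the elements of value at least `a` -/
def Vge (a : ℝ) : Submodule R V :=
  Submodule.span R {x : V | ∃ h, T.act h T.c ∈ B ∧ a ≤ F.v h ∧ T.act h T.c = x}

/-- the intersection -/
def Z : Submodule R V := ⨅ a : ℝ, F.Vge a

omit [Fact p.Prime] in
theorem act_ker_mem (N : Submodule R V) {k : Q} (hk : T.κ k = 1) {z : V} (hz : z ∈ N) :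
    T.act k z ∈ N := by
  obtain ⟨u, hu⟩ := T.K_act k hk
  rw [hu]
  exact N.smul_mem _ hz

/-- elements of the kernel fixing `z` modulo `Z` -/
def St (z : V) : Subgroup Q where
  carrier := {k | T.κ k = 1 ∧ T.act k z - z ∈ F.Z}
  mul_mem' := by
    rintro a b ⟨ha, ha'⟩ ⟨hb, hb'⟩
    refine ⟨by rw [map_mul, ha, hb, mul_one], ?_⟩
    have e : T.act (a * b) z - z = T.act a (T.act b z - z) + (T.act a z - z) := by
      rw [T.act_mul, map_sub]; abel
    rw [e]
    exact F.Z.add_mem (act_ker_mem F.Z ha hb') ha'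
  one_mem' := ⟨map_one _, by rw [T.act_one, sub_self]; exact F.Z.zero_mem⟩
  inv_mem' := by
    rintro a ⟨ha, ha'⟩
    have hai : T.κ a⁻¹ = 1 := by rw [map_inv, ha, inv_one]
    refine ⟨hai, ?_⟩
    have e : T.act a⁻¹ z - z = -T.act a⁻¹ (T.act a z - z) := by
      rw [map_sub, T.act_inv_act]; abel
    rw [e]
    exact F.Z.neg_mem (act_ker_mem F.Z hai ha')

theorem mem_St {z : V} {k : Q} : k ∈ F.St z ↔ T.κ k = 1 ∧ T.act k z - z ∈ F.Z := Iff.rfl

end Flag

end TrG

/-- the ideal generated by the `p`-th powers of the elements of an ideal -/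
def frob {R : Type} [CommRing R] (p : ℕ) (I : Ideal R) : Ideal R :=
  Ideal.span {a : R | ∃ r ∈ I, r ^ p = a}

end Pool.TF90
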