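import Mathlib
import Pool.Agent.TF90.Defs
import Pool.Agent.TFN.StepZ

/-!
# From the theorem on lines to the product formula
-/

set_option autoImplicit false

namespace Pool.TF90

open Cardinal Pool.TFR Pool.TFM Pool.TFN
open scoped commutatorElement

/-- The theorem on lines: every element has a power stabilising the line through the base
point. -/
def PowL : Prop := ∀ (p : ℕ) [Fact p.Prime] (Q Γ R V : Type) [Group Q] [CommGroup Γ] [CommRing R]
  [AddCommGroup V] [Module R V] (T : TrG p Q Γ R V) [Group.IsSolvable Q], r0 Q < ℵ₀ → FR Γ →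
  ∀ h : Q, ∃ m : ℕ, 0 < m ∧ h ^ m ∈ T.L

/-- **The rank of the stabiliser.** -/
theorem r0_stc' (H : PowL) {p : ℕ} [Fact p.Prime] {Q Γ R V : Type} [Group Q] [CommGroup Γ]
    [CommRing R] [AddCommGroup V] [Module R V] (T : TrG p Q Γ R V) [Group.IsSolvable Q]
    (hr : r0 Q < ℵ₀) (hFR : FR Γ) : r0 ↥T.stc = r0 Q := by
  rw [← T.r0_L hr]
  exact r0_eq_of_powers _ (fun g => H p Q Γ R V T hr hFR g)

section

variable {p : ℕ} [Fact p.Prime] {Q M Γ : Type} [Group Q] [AddCommGroup M] [CommGroup Γ]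
  (X : RData p Q M Γ)

/-- the ring is locally generated by the kernel -/
theorem gen_aux [Group.IsSolvable Q] (hr : r0 Q < ℵ₀) {s : Module.End ℤ (Ext p M)}
    (hs : s ∈ X.S0) : (⟨s, X.S0_le hs⟩ : ↥X.S) ∈ Subring.closure {a : ↥X.S | ∃ k,
      (X.toTrR hr).κ k = 1 ∧ ∀ w : Ext p M, (X.toTrR hr).act k w = a • w} := by
  refine Subring.closure_induction (p := fun s hs => (⟨s, X.S0_le hs⟩ : ↥X.S) ∈
    Subring.closure {a : ↥X.S | ∃ k, (X.toTrR hr).κ k = 1 ∧
      ∀ w : Ext p M, (X.toTrR hr).act k w = a • w}) ?_ ?_ ?_ ?_ ?_ ?_ hs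
  · rintro _ ⟨a, ha, rfl⟩
    exact Subring.subset_closure ⟨a, ha, fun w => rfl⟩
  · exact Subring.zero_mem _
  · exact Subring.one_mem _
  · intro x y _ _ hx hy
    exact Subring.add_mem _ hx hy
  · intro x _ hx
    exact Subring.neg_mem _ hx
  · intro x y _ _ hx hy
    exact Subring.mul_mem _ hx hy

/-- the transitive action over a ring locally generated by the kernel -/
noncomputable def toTrG [Group.IsSolvable Q] (hr : r0 Q < ℵ₀) : TrG p Q Γ ↥X.S (Ext p M) where
  toTrR := X.toTrR hr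
  gen r F := by
    obtain ⟨s, hs, hs'⟩ := r.2 F
    exact ⟨⟨s, X.S0_le hs⟩, gen_aux X hr hs, fun v hv => hs' v hv⟩

theorem r0_stab' (H : PowL) [Group.IsSolvable Q] (hr : r0 Q < ℵ₀) (hFR : FR Γ) :
    r0 ↥(X.D.stab X.D.inv_bot) = r0 Q := by
  rw [← X.stc_eq hr]
  exact r0_stc' H (toTrG X hr) hr hFR

end

/-- **The rank of the stabiliser** for a surjective derivation into an elementary abelian group,
when the group is soluble of finite torsion-free rank and acts as an extension of an abelian group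
by an abelian group of finite torsion-free rank. -/
theorem der_main' (H : PowL) {p : ℕ} [Fact p.Prime] {Q M Γ : Type} [Group Q] [AddCommGroup M] [CommGroup Γ]
    [Group.IsSolvable Q] (hr : r0 Q < ℵ₀) (hFR : FR Γ) (D : Der Q M)
    (hpM : ∀ m : M, p • m = 0) (κ : Q →* Γ)
    (hcomm : ∀ a b, κ a = 1 → κ b = 1 → D.ρ ⁅a, b⁆ = 1)
    (hs : Function.Surjective D.π) : r0 Q = r0 ↥(D.stab D.inv_bot) := by
  have htriv : ∀ x, D.ρ x = 1 → (D.quot D.inv_kerVal).ρ x = 1 ∧
      (D.quot D.inv_kerVal).π x = 0 := by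
    intro x hx
    constructor
    · refine LinearMap.ext (fun y => ?_)
      obtain ⟨m, rfl⟩ := Submodule.Quotient.mk_surjective _ y
      change Submodule.Quotient.mk (D.ρ x m) = Submodule.Quotient.mk m
      rw [hx]; rfl
    · change Submodule.Quotient.mk (D.π x) = 0
      rw [Submodule.Quotient.mk_eq_zero]
      exact ⟨x, hx, rfl⟩
  have hpM' : ∀ m : M ⧸ D.kerVal, p • m = 0 := by
    intro m
    obtain ⟨m, rfl⟩ := Submodule.Quotient.mk_surjective _ m
    rw [← Submodule.Quotient.mk_smul, hpM]; rfl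
  have hact : ∀ x, D.ρ x = 1 → ∀ v : Ext p (M ⧸ D.kerVal),
      eact (D.quot D.inv_kerVal) hpM' x v = v := by
    intro x hx v
    obtain ⟨h1, h2⟩ := htriv x hx
    rw [eact_apply, h1, h2, sca_zero, add_zero]
    rfl
  let X : RData p Q (M ⧸ D.kerVal) Γ :=
    { D := D.quot D.inv_kerVal
      hpM := hpM'
      κ := κ
      comm := by
        intro a b ha hb v
        have e : a * b = ⁅a, b⁆ * (b * a) := by rw [commutatorElement_def]; group
        rw [e, map_mul, Module.End.mul_apply, hact _ (hcomm a b ha hb)]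
      surj := D.quot_surj D.inv_kerVal hs }
  have h1 := r0_stab' X H hr hFR
  have h2 : X.D.stab X.D.inv_bot = D.stab D.inv_kerVal := D.r0_quot_stab_bot D.inv_kerVal
  rw [h2, D.r0_stab_kerVal] at h1
  have h3 : Module.rank ℤ D.kerVal = 0 := by
    rw [rank_eq_zero_iff]
    intro x
    refine ⟨(p : ℤ), by exact_mod_cast (Fact.out : p.Prime).ne_zero, Subtype.ext ?_⟩
    change (p : ℤ) • x.1 = 0
    rw [natCast_zsmul]
    exact hpM x.1
  rw [h3, add_zero] at h1
  exact h1.symm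

theorem reduceZ'' (H : PowL) {p : ℕ} [Fact p.Prime] {G Γ : Type} [Group G]
    [Group.IsSolvable G] [CommGroup Γ] (hr : r0 G < ℵ₀)
    (N : Subgroup G) [hN : N.Normal] (hc : ∀ x y : N, x * y = y * x) (hp : ∀ x ∈ N, x ^ p = 1)
    (A B : Subgroup G) (hFR : FR Γ) (κ : ↥(A ⊓ (N ⊔ B)) →* Γ)
    (hcomm : ∀ a b, κ a = 1 → κ b = 1 → ∀ n ∈ N, ⁅a.1, b.1⁆ * n = n * ⁅a.1, b.1⁆)
    (hAB : ∀ g : G, ∃ a ∈ A, ∃ b ∈ B, g = a * b) :
    r0 ↥(A ⊓ (N ⊔ B)) = r0 ↥(A ⊓ B) := by
  let _ : CommGroup ↥N := cg ↥N hc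
  let B' : Subgroup ↥N := B.subgroupOf N
  let Q : Subgroup G := A ⊓ (N ⊔ B)
  let ρ₁ : ↥Q → (↥N ⧸ B' →* ↥N ⧸ B') := fun q =>
    QuotientGroup.map B' B' (MulAut.conjNormal q.1 : MulAut ↥N).toMonoidHom
      (fun x hx => conj_mem_inf N B hc q.2.2 x hx)
  have hρ₁ : ∀ (q : ↥Q) (x : ↥N), ρ₁ q (x : ↥N ⧸ B') =
      ((MulAut.conjNormal q.1 x : N) : ↥N ⧸ B') := fun q x => rfl
  let E : Der ↥Q (Additive (↥N ⧸ B')) :=
    { ρ :=
        { toFun := fun q => (MonoidHom.toAdditive (ρ₁ q)).toIntLinearMap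
          map_one' := by
            ext x
            obtain ⟨n, hn⟩ := QuotientGroup.mk_surjective (Additive.toMul x)
            have : x = Additive.ofMul ((n : ↥N ⧸ B')) := hn.symm
            rw [this]
            change Additive.ofMul (ρ₁ 1 (n : ↥N ⧸ B')) = Additive.ofMul ((n : ↥N ⧸ B'))
            rw [hρ₁]
            simp
          map_mul' := by
            intro a b
            ext x
            obtain ⟨n, hn⟩ := QuotientGroup.mk_surjective (Additive.toMul x)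
            have : x = Additive.ofMul ((n : ↥N ⧸ B')) := hn.symm
            rw [this]
            change Additive.ofMul (ρ₁ (a * b) (n : ↥N ⧸ B')) =
              Additive.ofMul (ρ₁ a (ρ₁ b (n : ↥N ⧸ B')))
            rw [hρ₁, hρ₁, hρ₁]
            simp }
      π := fun q => Additive.ofMul ((nPart N A B q : N) : ↥N ⧸ B')
      map_mul := by
        intro a b
        obtain ⟨c, hc1, hc2⟩ := nPart_spec N A B a
        obtain ⟨d, hd1, hd2⟩ := nPart_spec N A B b
        change Additive.ofMul ((nPart N A B (a * b) : N) : ↥N ⧸ B') =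
          Additive.ofMul (((nPart N A B a : N) : ↥N ⧸ B') *
            ρ₁ a ((nPart N A B b : N) : ↥N ⧸ B'))
        congr 1
        rw [hρ₁, ← QuotientGroup.mk_mul]
        refine nPart_eq N A B (a * b) _ (c * d) (B.mul_mem hc1 hd1) ?_
        rw [Subgroup.coe_mul, MulAut.conjNormal_apply]
        change _ = a.1 * b.1
        have h1 : a.1 * (nPart N A B b : G) * a.1⁻¹ ∈ N := hN.conj_mem _ (nPart N A B b).2 a.1
        have h2 : (nPart N A B a : G) * (a.1 * (nPart N A B b : G) * a.1⁻¹) =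
            (a.1 * (nPart N A B b : G) * a.1⁻¹) * (nPart N A B a : G) :=
          congrArg Subtype.val (hc (nPart N A B a) ⟨_, h1⟩)
        rw [h2]
        have h3 : a.1⁻¹ * (nPart N A B a : G) * c = 1 := by
          rw [mul_assoc, hc2]; group
        have h4 : (a.1 * (nPart N A B b : G) * a.1⁻¹) * (nPart N A B a : G) * (c * d) =
            a.1 * (nPart N A B b : G) * (a.1⁻¹ * (nPart N A B a : G) * c) * d := by group
        rw [h4, h3, mul_one, mul_assoc, hd2] }
  have hEπ : ∀ q : ↥Q, E.π q = Additive.ofMul ((nPart N A B q : N) : ↥N ⧸ B') := fun _ => rfl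
  have hs : Function.Surjective E.π := by
    intro m
    obtain ⟨n, hn⟩ := QuotientGroup.mk_surjective (Additive.toMul m)
    obtain ⟨a, ha, b, hb, hab⟩ := hAB n.1
    have hq : a ∈ Q := by
      refine ⟨ha, Subgroup.mem_sup_of_normal_left.2 ⟨n.1, n.2, b⁻¹, B.inv_mem hb, ?_⟩⟩
      rw [hab]; group
    refine ⟨⟨a, hq⟩, ?_⟩
    rw [hEπ]
    have := nPart_eq N A B ⟨a, hq⟩ n b⁻¹ (B.inv_mem hb) (by rw [hab]; group)
    rw [this]
    exact hn
  have hQr : r0 ↥Q < ℵ₀ := lt_of_le_of_lt (r0_subgroup_le Q) hr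
  -- elements acting trivially
  have htriv : ∀ q : ↥Q, (∀ n ∈ N, q.1 * n = n * q.1) → E.ρ q = 1 := by
    intro q hq
    refine LinearMap.ext (fun v => ?_)
    obtain ⟨n, hn⟩ := QuotientGroup.mk_surjective (Additive.toMul v)
    have hvn : v = Additive.ofMul ((n : ↥N ⧸ B')) := hn.symm
    rw [hvn]
    change Additive.ofMul (ρ₁ q (n : ↥N ⧸ B')) = Additive.ofMul ((n : ↥N ⧸ B'))
    rw [hρ₁]
    have h5 : MulAut.conjNormal (q : G) n = n := by
      refine Subtype.ext ?_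
      rw [MulAut.conjNormal_apply, hq n.1 n.2]; group
    rw [h5]
  have hform : r0 ↥Q = r0 ↥(E.stab E.inv_bot) := by
    refine der_main' H (p := p) hQr hFR E ?_ κ ?_ hs
    · intro m
      obtain ⟨n, hn⟩ := QuotientGroup.mk_surjective (Additive.toMul m)
      have hvn : m = Additive.ofMul ((n : ↥N ⧸ B')) := hn.symm
      rw [hvn]
      change Additive.ofMul (((n : ↥N ⧸ B')) ^ p) = 0
      rw [← QuotientGroup.mk_pow]
      have : n ^ p = 1 := Subtype.ext (by rw [Subgroup.coe_pow, hp n.1 n.2]; rfl)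
      rw [this]
      rfl
    · intro a b ha hb
      exact htriv _ (fun n hn => hcomm a b ha hb n hn)
  have hst : r0 (E.stab E.inv_bot) = r0 ↥(A ⊓ B) := by
    refine r0_congr ?_
    have hk : ∀ q : ↥Q, q ∈ E.stab E.inv_bot ↔ q.1 ∈ B := by
      intro q
      rw [E.mem_stab, Submodule.mem_bot, hEπ]
      obtain ⟨b, hb, hb'⟩ := nPart_spec N A B q
      constructor
      · intro h
        have h1 : nPart N A B q ∈ B' := (QuotientGroup.eq_one_iff _).1 h
        rw [← hb']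
        exact B.mul_mem h1 hb
      · intro h
        have := nPart_eq N A B q 1 q.1 h (by simp)
        rw [this]; rfl
    exact
      { toFun := fun x => ⟨x.1.1, x.1.2.1, (hk _).1 x.2⟩
        invFun := fun x => ⟨⟨x.1, x.2.1, Subgroup.mem_sup_right x.2.2⟩, (hk _).2 x.2.2⟩
        left_inv := fun x => rfl
        right_inv := fun x => rfl
        map_mul' := fun x y => rfl }
  rw [← hst]
  exact hform

/-- one step, with a condition on the first factor only -/
theorem stepZ'' (H : PowL) {G : Type} [Group G] [Group.IsSolvable G] (hr : r0 G < ℵ₀)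
    (T : Subgroup G) (hTt : IsTor T) (A B : Subgroup G)
    (hAB : ∀ g : G, ∃ a ∈ A, ∃ b ∈ B, g = a * b) (N : Subgroup G) (hN : N.Normal) (hNT : N < T)
    (p : ℕ) (hp : p.Prime)
    (N'' : Subgroup G) (hN''n : N''.Normal) (hlt'' : N < N'')
    (hab : ∀ x ∈ N'', ∀ y ∈ N'', ⁅x, y⁆ ∈ N) (hpow : ∀ x ∈ N'', x ^ p ∈ N)
    (hcomm : ∀ a ∈ commutator ↥A, ∀ b ∈ commutator ↥A, ∀ x ∈ N'',
      ⁅⁅(a : G), (b : G)⁆, x⁆ ∈ N) :
    r0 ↥(A ⊓ (N'' ⊔ B)) = r0 ↥(A ⊓ (N ⊔ B)) := by
  have := Fact.mk hp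
  let f : G →* G ⧸ N := QuotientGroup.mk' N
  have hf : Function.Surjective f := QuotientGroup.mk'_surjective N
  have hker : f.ker = N := QuotientGroup.ker_mk' N
  have hkt : IsTor f.ker := fun x hx => hTt x (hNT.le (hker ▸ hx))
  have hmem : ∀ x, f x = 1 ↔ x ∈ N := fun x => QuotientGroup.eq_one_iff x
  let F : Subgroup (G ⧸ N) := N''.map f
  have hFn : F.Normal := hN''n.map f hf
  let fA : ↥A →* ↥(A.map f) := f.subgroupMap A
  have hfA : Function.Surjective fA := f.subgroupMap_surjective A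
  let K : Subgroup ↥(A.map f) := commutator ↥(A.map f)
  have hKn : K.Normal := by
    change (commutator ↥(A.map f)).Normal
    infer_instance
  have hKmap : K = (commutator ↥A).map fA := by
    change commutator ↥(A.map f) = (commutator ↥A).map fA
    rw [commutator_def, commutator_def, Subgroup.map_commutator,
      Subgroup.map_top_of_surjective fA hfA]
  have hcomm' : ∀ u v : G, ⁅u, v⁆ ∈ N → f u * f v = f v * f u := by
    intro u v huv
    rw [← hmem, map_commutatorElement, commutatorElement_eq_one_iff_mul_comm] at huv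
    exact huv
  have hrA : r0 ↥(A.map f) < ℵ₀ := lt_of_le_of_lt (r0_subgroup_le _)
    (lt_of_le_of_lt (r0_le_of_surjective f hf) hr)
  have hKle : commutator ↥(A.map f) ≤ K := le_rfl
  have hra : @ra (↥(A.map f) ⧸ K) (cgq K hKle) < ℵ₀ := by
    have h1 := @r0_comm (↥(A.map f) ⧸ K) (cgq K hKle)
    rw [← h1]
    exact lt_of_le_of_lt (r0_le_of_surjective (QuotientGroup.mk' K)
      (QuotientGroup.mk'_surjective K)) hrA
  have hFR1 : @FR (↥(A.map f) ⧸ K) (cgq K hKle) := @FR_of_ra (↥(A.map f) ⧸ K) (cgq K hKle) hra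
  let _ : CommGroup (↥(A.map f) ⧸ K) := cgq K hKle
  let κ : ↥(A.map f ⊓ (F ⊔ B.map f)) →* ↥(A.map f) ⧸ K :=
    (QuotientGroup.mk' K).comp (Subgroup.inclusion inf_le_left)
  have hκ : ∀ q, κ q = 1 → ∃ k ∈ commutator ↥A, f k.1 = q.1 := by
    intro q hq
    have hq' : Subgroup.inclusion inf_le_left q ∈ K := (QuotientGroup.eq_one_iff _).1 hq
    rw [hKmap] at hq'
    obtain ⟨k, hk, hk'⟩ := hq'
    exact ⟨k, hk, congrArg Subtype.val hk'⟩
  have hred := reduceZ'' H (p := p) (lt_of_le_of_lt (r0_le_of_surjective f hf) hr) F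
    (by
      rintro ⟨_, x, hx, rfl⟩ ⟨_, y, hy, rfl⟩
      exact Subtype.ext (hcomm' x y (hab x hx y hy)))
    (by
      rintro _ ⟨x, hx, rfl⟩
      rw [← map_pow]
      exact (hmem _).2 (hpow x hx))
    (A.map f) (B.map f) hFR1 κ
    (by
      rintro a b ha hb _ ⟨x, hx, rfl⟩
      obtain ⟨k, hk, hk'⟩ := hκ a ha
      obtain ⟨l, hl, hl'⟩ := hκ b hb
      rw [← hk', ← hl', ← map_commutatorElement]
      exact hcomm' _ _ (hcomm k hk l hl x hx))
    (by
      intro y
      obtain ⟨g, rfl⟩ := hf y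
      obtain ⟨a, ha, b, hb, rfl⟩ := hAB g
      exact ⟨f a, ⟨a, ha, rfl⟩, f b, ⟨b, hb, rfl⟩, by rw [map_mul]⟩)
  rw [r0_map_tor f hkt (A ⊓ (N'' ⊔ B)), map_inf_sup f N'' A B (by rw [hker]; exact hlt''.le),
    hred, ← map_inf_ker f A B N hker, ← r0_map_tor f hkt]

/-- the condition on one factor -/
def OneF' {G : Type} [Group G] (N N' : Subgroup G) (X : Subgroup G) : Prop :=
  ∀ a ∈ commutator ↥X, ∀ b ∈ commutator ↥X, ∀ x ∈ N', ⁅⁅(a : G), (b : G)⁆, x⁆ ∈ N

/-- one step for some elementary abelian factor -/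
theorem stepZ3 (H : PowL) {G : Type} [Group G] [Group.IsSolvable G] (hr : r0 G < ℵ₀)
    (T : Subgroup G) (hTt : IsTor T) (A B : Subgroup G)
    (hAB : ∀ g : G, ∃ a ∈ A, ∃ b ∈ B, g = a * b) (N : Subgroup G) (hN : N.Normal) (hNT : N < T)
    (N' : Subgroup G) (hN' : N'.Normal) (hlt : N < N') (hN'T : N' ≤ T)
    (hab : ∀ x ∈ N', ∀ y ∈ N', ⁅x, y⁆ ∈ N) (h : OneF' N N' A ∨ OneF' N N' B) :
    ∃ N' : Subgroup G, N'.Normal ∧ N < N' ∧
      N' ≤ T ∧ r0 ↥(A ⊓ (N' ⊔ B)) = r0 ↥(A ⊓ (N ⊔ B)) := by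
  obtain ⟨p, N'', hp, hpx, hN''n, hlt'', hle'', hpow⟩ := exists_elementary N N' hN hN' hlt hab
    (fun x hx => by
      obtain ⟨k, hk, hk'⟩ := hTt x (hN'T hx)
      exact ⟨k, hk, by rw [hk']; exact N.one_mem⟩)
  refine ⟨N'', hN''n, hlt'', hle''.trans hN'T, ?_⟩
  rcases h with hcomm | hcomm
  · exact stepZ'' H hr T hTt A B hAB N hN hNT p hp N'' hN''n hlt''
      (fun x hx y hy => hab x (hle'' hx) y (hle'' hy)) hpow
      (fun a ha b hb x hx => hcomm a ha b hb x (hle'' hx))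
  · have hBA : ∀ g : G, ∃ b ∈ B, ∃ a ∈ A, g = b * a := by
      intro g
      obtain ⟨a, ha, b, hb, hab⟩ := hAB g⁻¹
      refine ⟨b⁻¹, B.inv_mem hb, a⁻¹, A.inv_mem ha, ?_⟩
      rw [← mul_inv_rev, ← hab, inv_inv]
    have h1 := stepZ'' H hr T hTt B A hBA N hN hNT p hp N'' hN''n hlt''
      (fun x hx y hy => hab x (hle'' hx) y (hle'' hy)) hpow
      (fun a ha b hb x hx => hcomm a ha b hb x (hle'' hx))
    rw [r0_swap N'' (fun x hx => hTt x ((hle''.trans hN'T) hx)) A B, h1,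
      r0_swap N (fun x hx => hTt x (hNT.le hx)) B A]

/-- **Main theorem** (from the theorem on lines). -/
theorem mainZ' (H : PowL) (G : Type) [Group G] [Group.IsSolvable G] (hr : r0 G < ℵ₀)
    (A B : Subgroup G) (hAB : ∀ g : G, ∃ a ∈ A, ∃ b ∈ B, g = a * b)
    (T : Subgroup G) (hTn : T.Normal) (hTt : IsTor T)
    (hTmax : ∀ S : Subgroup G, S.Normal → IsTor S → S ≤ T)
    (hstar : ∀ N : Subgroup G, N.Normal → N < T → ∃ N' : Subgroup G, N'.Normal ∧ N < N' ∧
      N' ≤ T ∧ (∀ x ∈ N', ∀ y ∈ N', ⁅x, y⁆ ∈ N) ∧ (OneF' N N' A ∨ OneF' N N' B)) :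
    r0 G + r0 ↥(A ⊓ B) = r0 ↥A + r0 ↥B := by
  refine formula_of_quotient' T hTt ?_ A B hAB (radical_zorn hr T A B (fun N hN hNT => ?_))
  · have hno : NoTor (G ⧸ T) := by
      refine noTor_of_surj (QuotientGroup.mk' T) (QuotientGroup.mk'_surjective T) ?_ ?_
      · rw [QuotientGroup.ker_mk']; exact hTt
      · rintro x ⟨S, hS, hSt, hx⟩
        rw [QuotientGroup.ker_mk']
        exact hTmax S hS hSt hx
    obtain ⟨m, hm⟩ := (Group.isSolvable_def (G ⧸ T)).1 inferInstance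
    exact formula_noTor m (G ⧸ T) hm (lt_of_le_of_lt
      (r0_le_of_surjective (QuotientGroup.mk' T) (QuotientGroup.mk'_surjective T)) hr) hno
  · obtain ⟨N', hN', hlt, hN'T, hab, h⟩ := hstar N hN hNT
    exact stepZ3 H hr T hTt A B hAB N hN hNT N' hN' hlt hN'T hab h

end Pool.TF90
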