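import Mathlib
import Pool.Agent.TF90.Fin

/-!
# Central steps are free
-/

set_option autoImplicit false

namespace Pool.TF90

open Cardinal Pool.TFR Pool.TFM Pool.TFN
open scoped commutatorElement

section

variable {Q M : Type} [Group Q] [AddCommGroup M] {D : Der Q M}

/-- the affine map of `z` commutes with the affine maps of all elements -/
def Cmt (D : Der Q M) (z : Q) : Prop :=
  ∀ a, D.ρ a * D.ρ z = D.ρ z * D.ρ a ∧ D.π (a * z) = D.π (z * a)

theorem Cmt.mul {z w : Q} (hz : Cmt D z) (hw : Cmt D w) : Cmt D (z * w) := by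
  intro a
  constructor
  · rw [map_mul, ← mul_assoc, (hz a).1, mul_assoc, (hw a).1, mul_assoc]
  · rw [← mul_assoc, (hw (a * z)).2, ← mul_assoc, (hz (w * a)).2, mul_assoc]

theorem Cmt.one : Cmt D 1 := fun a => by
  rw [map_one, mul_one, one_mul, mul_one, one_mul]
  exact ⟨rfl, rfl⟩

theorem Cmt.pow {z : Q} (hz : Cmt D z) (n : ℕ) : Cmt D (z ^ n) := by
  induction n with
  | zero => rw [pow_zero]; exact Cmt.one
  | succ n ih => rw [pow_succ]; exact ih.mul hz

theorem Cmt.rho_one {z : Q} (hz : Cmt D z) (hs : Function.Surjective D.π) (h0 : D.π z = 0) :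
    D.ρ z = 1 := by
  refine LinearMap.ext (fun m => ?_)
  obtain ⟨q, rfl⟩ := hs m
  have h1 := basic (hz q).2
  rw [h0, map_zero, sub_zero, sub_eq_zero] at h1
  exact h1

/-- In a `p`-primary module, the value of a commuting element becomes zero after raising to a
power of `p`. -/
theorem Cmt.pprim [Group.IsSolvable Q] (hr : r0 Q < ℵ₀) (hs : Function.Surjective D.π)
    {p : ℕ} (hp : p.Prime) (hM : ∀ m : M, ∃ e : ℕ, p ^ e • m = 0) {z : Q} (hc : Cmt D z) :
    ∃ n : ℕ, D.π (z ^ p ^ n) = 0 := by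
  obtain ⟨e, he⟩ := hM (D.π z)
  obtain ⟨k, hk, hk0⟩ := D.torsion_z (P := ⊤) hr (fun a _ => hc a) hs
    (n := p ^ e) (pow_pos hp.pos e) (by rw [natCast_zsmul]; exact he)
  obtain ⟨n, q, hq, rfl⟩ := Nat.exists_eq_pow_mul_and_not_dvd hk.ne' p hp.ne_one
  refine ⟨n, ?_⟩
  have hc' : Cmt D (z ^ p ^ n) := hc.pow _
  set h : Q := z ^ p ^ n with hh
  rw [pow_mul, ← hh, pi_pow] at hk0
  set y : M := D.π h with hy
  have h1 : ∀ m : ℕ, ∃ x : M, ∑ i ∈ Finset.range m, (D.ρ h ^ i) y = m • y + (D.ρ h x - x) := by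
    intro m
    have h2 : ∀ i : ℕ, ∃ x : M, (D.ρ h ^ i) y = y + (D.ρ h x - x) := by
      intro i
      induction i with
      | zero => exact ⟨0, by simp⟩
      | succ i ih =>
        obtain ⟨x, hx⟩ := ih
        refine ⟨x + (D.ρ h ^ i) y, ?_⟩
        rw [pow_succ', Module.End.mul_apply, map_add]
        have e1 : D.ρ h ((D.ρ h ^ i) y) = (D.ρ h ^ i) y + (D.ρ h ((D.ρ h ^ i) y) - (D.ρ h ^ i) y) :=
          by abel
        rw [e1]
        nth_rw 1 [hx]
        abel
    induction m with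
    | zero => exact ⟨0, by simp⟩
    | succ m ih =>
      obtain ⟨x, hx⟩ := ih
      obtain ⟨x', hx'⟩ := h2 m
      refine ⟨x + x', ?_⟩
      rw [Finset.sum_range_succ, hx, hx', map_add, succ_nsmul]
      abel
  obtain ⟨x, hx⟩ := h1 q
  rw [hk0] at hx
  have h2 : D.ρ h (-x) - (-x) = q • y := by
    rw [map_neg]
    have : q • y + (D.ρ h x - x) = 0 := hx.symm
    have e2 : q • y = -(D.ρ h x - x) := eq_neg_of_add_eq_zero_left this
    rw [e2]; abel
  obtain ⟨e', he'⟩ := hM y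
  have hcop : Nat.Coprime q (p ^ e') := Nat.Coprime.pow_right _
    ((Nat.Prime.coprime_iff_not_dvd hp).2 hq).symm
  obtain ⟨m, hm⟩ : ∃ m : ℕ, p ^ e' ∣ 1 + m * q := by
    have h3 : IsUnit ((q : ℕ) : ZMod (p ^ e')) := (ZMod.isUnit_iff_coprime _ _).2 hcop
    obtain ⟨u, hu⟩ := h3
    have : NeZero (p ^ e') := ⟨pow_ne_zero _ hp.ne_zero⟩
    obtain ⟨m, hm⟩ := ZMod.natCast_zmod_surjective (-((u⁻¹ : (ZMod (p ^ e'))ˣ) : ZMod (p ^ e')))
    refine ⟨m, (ZMod.natCast_eq_zero_iff _ _).1 ?_⟩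
    rw [Nat.cast_add, Nat.cast_mul, Nat.cast_one, hm, ← hu, neg_mul, Units.inv_mul]
    ring
  obtain ⟨η, hη⟩ := hs (m • (-x))
  have h3 := basic (hc' η).2
  rw [hη, map_nsmul, ← smul_sub, h2] at h3
  have h4 : D.ρ η y = (1 + m * q) • y := by
    rw [add_smul, one_smul, mul_smul, h3]; abel
  have h5 : (1 + m * q) • y = 0 := by
    obtain ⟨c, hc'⟩ := hm
    rw [hc', mul_comm, mul_smul, he', smul_zero]
  rw [h5] at h4
  have h6 := congrArg (D.ρ η⁻¹) h4
  rwa [D.ρ_inv_apply, map_zero] at h6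

end

/-- The second derived subgroup and its iterated commutators with the whole group. -/
def cs (Q : Type) [Group Q] : ℕ → Subgroup Q
  | 0 => ⁅commutator Q, commutator Q⁆
  | k + 1 => ⁅cs Q k, (⊤ : Subgroup Q)⁆

theorem cs_map_le {Q R : Type} [Group Q] [Group R] (f : R →* Q) (k : ℕ) :
    (cs R k).map f ≤ cs Q k := by
  induction k with
  | zero =>
    change (⁅commutator R, commutator R⁆).map f ≤ ⁅commutator Q, commutator Q⁆
    have h1 : (commutator R).map f ≤ commutator Q := by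
      rw [commutator_def, Subgroup.map_commutator, commutator_def]
      exact Subgroup.commutator_mono le_top le_top
    rw [Subgroup.map_commutator]
    exact Subgroup.commutator_mono h1 h1
  | succ k ih =>
    change (⁅cs R k, (⊤ : Subgroup R)⁆).map f ≤ ⁅cs Q k, (⊤ : Subgroup Q)⁆
    rw [Subgroup.map_commutator]
    exact Subgroup.commutator_mono ih le_top

/-- The theorem on surjective derivations when the `k`-th term acts trivially. -/
def Dk (p k : ℕ) : Prop := ∀ (Q M : Type) [Group Q] [AddCommGroup M] [Group.IsSolvable Q],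
  r0 Q < ℵ₀ → ∀ D : Der Q M, (∀ m : M, p • m = 0) → (∀ x ∈ cs Q k, D.ρ x = 1) →
    Function.Surjective D.π → r0 Q = r0 ↥(D.stab D.inv_bot)

theorem dk_zero (H : PowL) {p : ℕ} [Fact p.Prime] : Dk p 0 := by
  intro Q M _ _ _ hr D hpM hk hs
  have hFR : FR (Abelianization Q) := by
    refine FR_of_ra (lt_of_le_of_lt ?_ hr)
    rw [r0_eq_rab_add Q]
    exact self_le_add_right _ _
  refine der_main' H (p := p) hr hFR D hpM Abelianization.of (fun a b ha hb => hk _ ?_) hs
  exact Subgroup.commutator_mem_commutator ((QuotientGroup.eq_one_iff _).1 ha)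
    ((QuotientGroup.eq_one_iff _).1 hb)

/-- multiples by an element of square zero commuting with everything -/
theorem good_step {p k : ℕ} (IH : Dk p k) {Q M : Type} [Group Q] [AddCommGroup M]
    [Group.IsSolvable Q] (hr : r0 Q < ℵ₀) (D : Der Q M) (hpM : ∀ m : M, p • m = 0)
    (hs : Function.Surjective D.π) (hk : ∀ x ∈ cs Q k, Cmt D x) (j : Module.End ℤ M)
    (hj : ∀ q m, D.ρ q (j m) = j (D.ρ q m)) (hj2 : ∀ m, j (j m) = 0)
    (hW : D.Inv (LinearMap.range j)) : r0 ↥(D.stab hW) = r0 ↥(D.stab D.inv_bot) := by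
  rw [← D.r0_sub_stab_bot hW]
  refine IH _ _ (lt_of_le_of_lt (r0_subgroup_le _) hr) (D.sub hW) ?_ ?_ (D.sub_surj hW hs)
  · rintro ⟨m, hm⟩
    exact Subtype.ext (hpM m)
  · intro x hx
    have hx1 : x.1 ∈ cs Q k := cs_map_le (D.stab hW).subtype k ⟨x, hx, rfl⟩
    have hc := hk _ hx1
    obtain ⟨m', hm'⟩ : D.π x.1 ∈ LinearMap.range j := x.2
    refine LinearMap.ext ?_
    rintro ⟨_, m, rfl⟩
    refine Subtype.ext ?_
    change D.ρ x.1 (j m) = j m
    obtain ⟨q, rfl⟩ := hs m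
    have h1 := basic (hc q).2
    have h2 := congrArg j h1
    rw [map_sub, map_sub, ← hj, ← hj, ← hm', hj2, map_zero, sub_zero, sub_eq_zero] at h2
    exact h2

theorem dk_succ {p : ℕ} [hp : Fact p.Prime] {k : ℕ} (IH : Dk p k) : Dk p (k + 1) := by
  classical
  intro Q M _ _ _ hr D hpM hk hs
  let P : Submodule ℤ M → Prop := fun W => ∃ hW : D.Inv W,
    r0 ↥(D.stab hW) = r0 ↥(D.stab D.inv_bot)
  have hzorn : ∃ W, Maximal P W := by
    refine zorn_le₀ {W | P W} (fun c hc hchain => ?_)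
    by_cases hne : c.Nonempty
    · have hdir : DirectedOn (· ≤ ·) c := hchain.directedOn
      let U : Submodule ℤ M := sSup c
      have hmemU : ∀ x, x ∈ U ↔ ∃ N ∈ c, x ∈ N := fun x =>
        Submodule.mem_sSup_of_directed hne hdir
      have hU : D.Inv U := by
        intro q m hm
        obtain ⟨N, hN, hmN⟩ := (hmemU m).1 hm
        exact (hmemU _).2 ⟨N, hN, (hc hN).1 q m hmN⟩
      refine ⟨U, ⟨hU, ?_⟩, fun N hN => le_sSup hN⟩
      obtain ⟨m, hm⟩ := (Group.isSolvable_def ↥(D.stab hU)).1 inferInstance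
      obtain ⟨S, hS⟩ := exists_witness m ↥(D.stab hU) hm
        (lt_of_le_of_lt (r0_subgroup_le _) hr)
      have hfind : ∃ N ∈ c, ∀ s ∈ S, D.π (s : Q) ∈ N := by
        clear hS
        induction S using Finset.induction_on with
        | empty =>
          obtain ⟨N, hN⟩ := hne
          exact ⟨N, hN, fun s hs => absurd hs (Finset.notMem_empty s)⟩
        | insert a S _ ihS =>
          obtain ⟨N, hN, hNS⟩ := ihS
          obtain ⟨N2, hN2, hnN2⟩ := (hmemU _).1 a.2
          obtain ⟨N3, hN3, h1, h2⟩ := hdir N hN N2 hN2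
          refine ⟨N3, hN3, fun s hs => ?_⟩
          rcases Finset.mem_insert.1 hs with rfl | hs
          · exact h2 hnN2
          · exact h1 (hNS s hs)
      obtain ⟨N, hN, hNS⟩ := hfind
      obtain ⟨hNi, hNr⟩ := hc hN
      have h1 := hS ((D.stab hNi).subgroupOf (D.stab hU)) (fun s hs => by
        rw [Subgroup.mem_subgroupOf]; exact hNS s hs)
      have h3 : r0 ↥((D.stab hNi).subgroupOf (D.stab hU)) = r0 ↥(D.stab hNi) :=
        r0_congr (Subgroup.subgroupOfEquivOfLe (D.stab_mono hU hNi (le_sSup hN)))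
      rw [← h1, h3, hNr]
    · rw [Set.not_nonempty_iff_eq_empty] at hne
      subst hne
      exact ⟨⊥, ⟨D.inv_bot, rfl⟩, fun N hN => absurd hN (Set.notMem_empty N)⟩
  obtain ⟨W1, ⟨hW1, hW1r⟩, hmax⟩ := hzorn
  let D1 := D.quot hW1
  have hs1 : Function.Surjective D1.π := D.quot_surj hW1 hs
  have hpM1 : ∀ m : M ⧸ W1, p • m = 0 := by
    intro m
    obtain ⟨m, rfl⟩ := Submodule.Quotient.mk_surjective _ m
    rw [← Submodule.Quotient.mk_smul, hpM]; rfl
  have hst1 : D1.stab D1.inv_bot = D.stab hW1 := D.r0_quot_stab_bot hW1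
  -- no good submodules
  have hno : ∀ (W : Submodule ℤ (M ⧸ W1)) (hW : D1.Inv W),
      r0 ↥(D1.stab hW) = r0 ↥(D1.stab D1.inv_bot) → W = ⊥ := by
    intro W hW hWr
    let W2 : Submodule ℤ M := W.comap W1.mkQ
    have hW2 : D.Inv W2 := fun q m hm => hW q _ hm
    have e : D.stab hW2 = D1.stab hW := rfl
    have hle : W1 ≤ W2 := by
      intro x hx
      change (Submodule.Quotient.mk x : M ⧸ W1) ∈ W
      rw [(Submodule.Quotient.mk_eq_zero W1).2 hx]
      exact W.zero_mem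
    have hP : P W2 := ⟨hW2, by rw [e, hWr, hst1, hW1r]⟩
    have h2 := hmax hP hle
    rw [eq_bot_iff]
    intro y hy
    obtain ⟨x, rfl⟩ := Submodule.Quotient.mk_surjective _ y
    rw [Submodule.mem_bot, Submodule.Quotient.mk_eq_zero]
    exact h2 hy
  have hker : D1.kerVal = ⊥ := by
    refine hno _ D1.inv_kerVal ?_
    have h3 : Module.rank ℤ D1.kerVal = 0 := by
      rw [rank_eq_zero_iff]
      intro x
      refine ⟨(p : ℤ), by exact_mod_cast hp.out.ne_zero, Subtype.ext ?_⟩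
      change (p : ℤ) • x.1 = 0
      rw [natCast_zsmul]
      exact hpM1 x.1
    rw [D1.r0_stab_kerVal, h3, add_zero]
  have hρπ : ∀ x, D1.ρ x = 1 → D1.π x = 0 := by
    intro x hx
    have : D1.π x ∈ D1.kerVal := ⟨x, hx, rfl⟩
    rwa [hker, Submodule.mem_bot] at this
  have hρ1 : ∀ x ∈ cs Q (k + 1), D1.ρ x = 1 := by
    intro x hx
    refine LinearMap.ext (fun y => ?_)
    obtain ⟨m, rfl⟩ := Submodule.Quotient.mk_surjective _ y
    change Submodule.Quotient.mk (D.ρ x m) = Submodule.Quotient.mk m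
    rw [hk x hx]; rfl
  have hcmt : ∀ z ∈ cs Q k, Cmt D1 z := by
    intro z hz a
    have hx : ⁅z, a⁆ ∈ cs Q (k + 1) :=
      Subgroup.commutator_mem_commutator hz (Subgroup.mem_top a)
    have e : z * a = ⁅z, a⁆ * (a * z) := by rw [commutatorElement_def]; group
    have h1 := hρ1 _ hx
    have h2 := hρπ _ h1
    constructor
    · rw [← map_mul D1.ρ z a, e, map_mul, h1, one_mul, map_mul]
    · rw [e, D1.map_mul ⁅z, a⁆ (a * z), h1, h2, zero_add]; rfl
  have hz1 : ∀ z ∈ cs Q k, D1.ρ z = 1 := by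
    intro z hz
    by_contra hne
    obtain ⟨n, hn⟩ := (hcmt z hz).pprim hr hs1 hp.out (fun m => ⟨1, by
      rw [pow_one]; exact hpM1 m⟩)
    have hn1 := ((hcmt z hz).pow (p ^ n)).rho_one hs1 hn
    rw [map_pow] at hn1
    have hnt : Nontrivial (Module.End ℤ (M ⧸ W1)) := ⟨⟨_, _, hne⟩⟩
    have hch : CharP (Module.End ℤ (M ⧸ W1)) p := by
      refine (CharP.charP_iff_prime_eq_zero hp.out).2 ?_
      refine LinearMap.ext (fun m => ?_)
      rw [← nsmul_one, LinearMap.smul_apply]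
      exact hpM1 _
    set A : Module.End ℤ (M ⧸ W1) := D1.ρ z - 1 with hA
    have hA0 : A ≠ 0 := fun h => hne (sub_eq_zero.1 h)
    have hAn : A ^ p ^ n = 0 := by
      rw [hA, sub_pow_char_pow_of_commute _ _ (Commute.one_right _), hn1, one_pow, sub_self]
    have hex : ∃ i, A ^ i = 0 := ⟨_, hAn⟩
    obtain ⟨i, hi⟩ : ∃ i, i = Nat.find hex := ⟨_, rfl⟩
    have hi0 : A ^ i = 0 := by rw [hi]; exact Nat.find_spec hex
    have himin : ∀ l, l < i → A ^ l ≠ 0 := fun l hl => Nat.find_min hex (by rw [← hi]; exact hl)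
    have hi2 : 2 ≤ i := by
      by_contra hcon
      have : i = 0 ∨ i = 1 := by omega
      rcases this with h | h
      · rw [h, pow_zero] at hi0; exact one_ne_zero hi0
      · rw [h, pow_one] at hi0; exact hA0 hi0
    have hAc : ∀ q, D1.ρ q * A = A * D1.ρ q := by
      intro q
      rw [hA, mul_sub, sub_mul, (hcmt z hz q).1, mul_one, one_mul]
    have hjc : ∀ q m, D1.ρ q ((A ^ (i - 1)) m) = (A ^ (i - 1)) (D1.ρ q m) := by
      intro q m
      have h1 : Commute (D1.ρ q) (A ^ (i - 1)) := (show Commute (D1.ρ q) A from hAc q).pow_right _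
      have h2 := congrArg (fun F : Module.End ℤ (M ⧸ W1) => F m) h1.eq
      exact h2
    have hj2 : ∀ m, (A ^ (i - 1)) ((A ^ (i - 1)) m) = 0 := by
      intro m
      rw [← Module.End.mul_apply, ← pow_add]
      obtain ⟨d, hd⟩ : ∃ d, i - 1 + (i - 1) = i + d := ⟨i - 2, by omega⟩
      rw [hd, pow_add, hi0, zero_mul]
      rfl
    have hinv : D1.Inv (LinearMap.range (A ^ (i - 1))) := by
      rintro q _ ⟨m, rfl⟩
      exact ⟨D1.ρ q m, (hjc q m).symm⟩
    have h3 := hno _ hinv (good_step IH hr D1 hpM1 hs1 hcmt _ hjc hj2 hinv)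
    rw [LinearMap.range_eq_bot] at h3
    exact himin (i - 1) (by omega) h3
  have h4 := IH Q _ hr D1 hpM1 hz1 hs1
  rw [h4, hst1, hW1r]

/-- **Central steps are free.** -/
theorem dk (H : PowL) {p : ℕ} [Fact p.Prime] (k : ℕ) : Dk p k := by
  induction k with
  | zero => exact dk_zero H
  | succ k ih => exact dk_succ ih

end Pool.TF90
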