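import Mathlib
import Pool.Agent.TF90.Cen

/-!
# The product formula with central steps
-/

set_option autoImplicit false

namespace Pool.TF90

open Cardinal Pool.TFR Pool.TFM Pool.TFN
open scoped commutatorElement

theorem cs_map_surj {Q R : Type} [Group Q] [Group R] (f : R →* Q) (hf : Function.Surjective f)
    (k : ℕ) : (cs R k).map f = cs Q k := by
  induction k with
  | zero =>
    change (⁅commutator R, commutator R⁆).map f = ⁅commutator Q, commutator Q⁆
    have h1 : (commutator R).map f = commutator Q := by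
      rw [commutator_def, Subgroup.map_commutator, commutator_def,
        Subgroup.map_top_of_surjective f hf]
    rw [Subgroup.map_commutator, h1]
  | succ k ih =>
    change (⁅cs R k, (⊤ : Subgroup R)⁆).map f = ⁅cs Q k, (⊤ : Subgroup Q)⁆
    rw [Subgroup.map_commutator, ih, Subgroup.map_top_of_surjective f hf]

theorem reduceC (H : PowL) {p : ℕ} [Fact p.Prime] {G : Type} [Group G]
    [Group.IsSolvable G] (hr : r0 G < ℵ₀)
    (N : Subgroup G) [hN : N.Normal] (hc : ∀ x y : N, x * y = y * x) (hp : ∀ x ∈ N, x ^ p = 1)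
    (A B : Subgroup G) (k : ℕ) (hcs : ∀ a ∈ cs ↥A k, ∀ n ∈ N, (a : G) * n = n * (a : G))
    (hAB : ∀ g : G, ∃ a ∈ A, ∃ b ∈ B, g = a * b) :
    r0 ↥(A ⊓ (N ⊔ B)) = r0 ↥(A ⊓ B) := by
  let _ : CommGroup ↥N := cg ↥N hc
  let B' : Subgroup ↥N := B.subgroupOf N
  let Q : Subgroup G := A ⊓ (N ⊔ B)
  let ρ₁ : ↥Q → (↥N ⧸ B' →* ↥N ⧸ B') := fun q =>
    QuotientGroup.map B' B' (MulAut.conjNormal q.1 : MulAut ↥N).toMonoidHom
      (fun x hx => conj_mem_inf N B hc q.2.2 x hx)
  have hρ₁ : ∀ (q : ↥Q) (x : ↥N), ρ₁ q (x : ↥N ⧸ B') =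
      ((MulAut.conjNormal q.1 x : N) : ↥N ⧸ B') := fun q x => rfl
  let E : Der ↥Q (Additive (↥N ⧸ B')) :=
    { ρ :=
        { toFun := fun q => (MonoidHom.toAdditive (ρ₁ q)).toIntLinearMap
          map_one' := by
            ext x
            obtain ⟨n, hn⟩ := QuotientGroup.mk_surjective (Additive.toMul x)
            have : x = Additive.ofMul ((n : ↥N ⧸ B')) := hn.symm
            rw [this]
            change Additive.ofMul (ρ₁ 1 (n : ↥N ⧸ B')) = Additive.ofMul ((n : ↥N ⧸ B'))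
            rw [hρ₁]
            simp
          map_mul' := by
            intro a b
            ext x
            obtain ⟨n, hn⟩ := QuotientGroup.mk_surjective (Additive.toMul x)
            have : x = Additive.ofMul ((n : ↥N ⧸ B')) := hn.symm
            rw [this]
            change Additive.ofMul (ρ₁ (a * b) (n : ↥N ⧸ B')) =
              Additive.ofMul (ρ₁ a (ρ₁ b (n : ↥N ⧸ B')))
            rw [hρ₁, hρ₁, hρ₁]
            simp }
      π := fun q => Additive.ofMul ((nPart N A B q : N) : ↥N ⧸ B')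
      map_mul := by
        intro a b
        obtain ⟨c, hc1, hc2⟩ := nPart_spec N A B a
        obtain ⟨d, hd1, hd2⟩ := nPart_spec N A B b
        change Additive.ofMul ((nPart N A B (a * b) : N) : ↥N ⧸ B') =
          Additive.ofMul (((nPart N A B a : N) : ↥N ⧸ B') *
            ρ₁ a ((nPart N A B b : N) : ↥N ⧸ B'))
        congr 1
        rw [hρ₁, ← QuotientGroup.mk_mul]
        refine nPart_eq N A B (a * b) _ (c * d) (B.mul_mem hc1 hd1) ?_
        rw [Subgroup.coe_mul, MulAut.conjNormal_apply]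
        change _ = a.1 * b.1
        have h1 : a.1 * (nPart N A B b : G) * a.1⁻¹ ∈ N := hN.conj_mem _ (nPart N A B b).2 a.1
        have h2 : (nPart N A B a : G) * (a.1 * (nPart N A B b : G) * a.1⁻¹) =
            (a.1 * (nPart N A B b : G) * a.1⁻¹) * (nPart N A B a : G) :=
          congrArg Subtype.val (hc (nPart N A B a) ⟨_, h1⟩)
        rw [h2]
        have h3 : a.1⁻¹ * (nPart N A B a : G) * c = 1 := by
          rw [mul_assoc, hc2]; group
        have h4 : (a.1 * (nPart N A B b : G) * a.1⁻¹) * (nPart N A B a : G) * (c * d) =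
            a.1 * (nPart N A B b : G) * (a.1⁻¹ * (nPart N A B a : G) * c) * d := by group
        rw [h4, h3, mul_one, mul_assoc, hd2] }
  have hEπ : ∀ q : ↥Q, E.π q = Additive.ofMul ((nPart N A B q : N) : ↥N ⧸ B') := fun _ => rfl
  have hs : Function.Surjective E.π := by
    intro m
    obtain ⟨n, hn⟩ := QuotientGroup.mk_surjective (Additive.toMul m)
    obtain ⟨a, ha, b, hb, hab⟩ := hAB n.1
    have hq : a ∈ Q := by
      refine ⟨ha, Subgroup.mem_sup_of_normal_left.2 ⟨n.1, n.2, b⁻¹, B.inv_mem hb, ?_⟩⟩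
      rw [hab]; group
    refine ⟨⟨a, hq⟩, ?_⟩
    rw [hEπ]
    have := nPart_eq N A B ⟨a, hq⟩ n b⁻¹ (B.inv_mem hb) (by rw [hab]; group)
    rw [this]
    exact hn
  have hQr : r0 ↥Q < ℵ₀ := lt_of_le_of_lt (r0_subgroup_le Q) hr
  -- elements acting trivially
  have htriv : ∀ q : ↥Q, (∀ n ∈ N, q.1 * n = n * q.1) → E.ρ q = 1 := by
    intro q hq
    refine LinearMap.ext (fun v => ?_)
    obtain ⟨n, hn⟩ := QuotientGroup.mk_surjective (Additive.toMul v)
    have hvn : v = Additive.ofMul ((n : ↥N ⧸ B')) := hn.symm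
    rw [hvn]
    change Additive.ofMul (ρ₁ q (n : ↥N ⧸ B')) = Additive.ofMul ((n : ↥N ⧸ B'))
    rw [hρ₁]
    have h5 : MulAut.conjNormal (q : G) n = n := by
      refine Subtype.ext ?_
      rw [MulAut.conjNormal_apply, hq n.1 n.2]; group
    rw [h5]
  have hform : r0 ↥Q = r0 ↥(E.stab E.inv_bot) := by
    refine dk H (p := p) k _ _ hQr E ?_ ?_ hs
    · intro m
      obtain ⟨n, hn⟩ := QuotientGroup.mk_surjective (Additive.toMul m)
      have hvn : m = Additive.ofMul ((n : ↥N ⧸ B')) := hn.symm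
      rw [hvn]
      change Additive.ofMul (((n : ↥N ⧸ B')) ^ p) = 0
      rw [← QuotientGroup.mk_pow]
      have : n ^ p = 1 := Subtype.ext (by rw [Subgroup.coe_pow, hp n.1 n.2]; rfl)
      rw [this]
      rfl
    · intro x hx
      have hx1 := cs_map_le (Subgroup.inclusion (inf_le_left : A ⊓ (N ⊔ B) ≤ A)) k ⟨x, hx, rfl⟩
      exact htriv _ (fun n hn => hcs _ hx1 n hn)
  have hst : r0 (E.stab E.inv_bot) = r0 ↥(A ⊓ B) := by
    refine r0_congr ?_
    have hk : ∀ q : ↥Q, q ∈ E.stab E.inv_bot ↔ q.1 ∈ B := by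
      intro q
      rw [E.mem_stab, Submodule.mem_bot, hEπ]
      obtain ⟨b, hb, hb'⟩ := nPart_spec N A B q
      constructor
      · intro h
        have h1 : nPart N A B q ∈ B' := (QuotientGroup.eq_one_iff _).1 h
        rw [← hb']
        exact B.mul_mem h1 hb
      · intro h
        have := nPart_eq N A B q 1 q.1 h (by simp)
        rw [this]; rfl
    exact
      { toFun := fun x => ⟨x.1.1, x.1.2.1, (hk _).1 x.2⟩
        invFun := fun x => ⟨⟨x.1, x.2.1, Subgroup.mem_sup_right x.2.2⟩, (hk _).2 x.2.2⟩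
        left_inv := fun x => rfl
        right_inv := fun x => rfl
        map_mul' := fun x y => rfl }
  rw [← hst]
  exact hform

/-- one step, with a condition on the first factor only -/
theorem stepC (H : PowL) {G : Type} [Group G] [Group.IsSolvable G] (hr : r0 G < ℵ₀)
    (T : Subgroup G) (hTt : IsTor T) (A B : Subgroup G)
    (hAB : ∀ g : G, ∃ a ∈ A, ∃ b ∈ B, g = a * b) (N : Subgroup G) (hN : N.Normal) (hNT : N < T)
    (p : ℕ) (hp : p.Prime)
    (N'' : Subgroup G) (hN''n : N''.Normal) (hlt'' : N < N'')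
    (hab : ∀ x ∈ N'', ∀ y ∈ N'', ⁅x, y⁆ ∈ N) (hpow : ∀ x ∈ N'', x ^ p ∈ N)
    (k : ℕ) (hcs : ∀ a ∈ cs ↥A k, ∀ x ∈ N'', ⁅(a : G), x⁆ ∈ N) :
    r0 ↥(A ⊓ (N'' ⊔ B)) = r0 ↥(A ⊓ (N ⊔ B)) := by
  have := Fact.mk hp
  let f : G →* G ⧸ N := QuotientGroup.mk' N
  have hf : Function.Surjective f := QuotientGroup.mk'_surjective N
  have hker : f.ker = N := QuotientGroup.ker_mk' N
  have hkt : IsTor f.ker := fun x hx => hTt x (hNT.le (hker ▸ hx))
  have hmem : ∀ x, f x = 1 ↔ x ∈ N := fun x => QuotientGroup.eq_one_iff x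
  let F : Subgroup (G ⧸ N) := N''.map f
  have hFn : F.Normal := hN''n.map f hf
  let fA : ↥A →* ↥(A.map f) := f.subgroupMap A
  have hfA : Function.Surjective fA := f.subgroupMap_surjective A
  have hcomm' : ∀ u v : G, ⁅u, v⁆ ∈ N → f u * f v = f v * f u := by
    intro u v huv
    rw [← hmem, map_commutatorElement, commutatorElement_eq_one_iff_mul_comm] at huv
    exact huv
  have hred := reduceC H (p := p) (lt_of_le_of_lt (r0_le_of_surjective f hf) hr) F
    (by
      rintro ⟨_, x, hx, rfl⟩ ⟨_, y, hy, rfl⟩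
      exact Subtype.ext (hcomm' x y (hab x hx y hy)))
    (by
      rintro _ ⟨x, hx, rfl⟩
      rw [← map_pow]
      exact (hmem _).2 (hpow x hx))
    (A.map f) (B.map f) k
    (by
      rintro a ha _ ⟨x, hx, rfl⟩
      rw [← cs_map_surj fA hfA k] at ha
      obtain ⟨a', ha', rfl⟩ := ha
      change f a'.1 * f x = f x * f a'.1
      exact hcomm' _ _ (hcs a' ha' x hx))
    (by
      intro y
      obtain ⟨g, rfl⟩ := hf y
      obtain ⟨a, ha, b, hb, rfl⟩ := hAB g
      exact ⟨f a, ⟨a, ha, rfl⟩, f b, ⟨b, hb, rfl⟩, by rw [map_mul]⟩)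
  rw [r0_map_tor f hkt (A ⊓ (N'' ⊔ B)), map_inf_sup f N'' A B (by rw [hker]; exact hlt''.le),
    hred, ← map_inf_ker f A B N hker, ← r0_map_tor f hkt]

/-- the condition on one factor -/
def OneC {G : Type} [Group G] (N N' : Subgroup G) (X : Subgroup G) : Prop :=
  ∃ k : ℕ, ∀ a ∈ cs ↥X k, ∀ x ∈ N', ⁅(a : G), x⁆ ∈ N

/-- one step for some elementary abelian factor -/
theorem stepC' (H : PowL) {G : Type} [Group G] [Group.IsSolvable G] (hr : r0 G < ℵ₀)
    (T : Subgroup G) (hTt : IsTor T) (A B : Subgroup G)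
    (hAB : ∀ g : G, ∃ a ∈ A, ∃ b ∈ B, g = a * b) (N : Subgroup G) (hN : N.Normal) (hNT : N < T)
    (N' : Subgroup G) (hN' : N'.Normal) (hlt : N < N') (hN'T : N' ≤ T)
    (hab : ∀ x ∈ N', ∀ y ∈ N', ⁅x, y⁆ ∈ N) (h : OneC N N' A ∨ OneC N N' B) :
    ∃ N' : Subgroup G, N'.Normal ∧ N < N' ∧
      N' ≤ T ∧ r0 ↥(A ⊓ (N' ⊔ B)) = r0 ↥(A ⊓ (N ⊔ B)) := by
  obtain ⟨p, N'', hp, hpx, hN''n, hlt'', hle'', hpow⟩ := exists_elementary N N' hN hN' hlt hab
    (fun x hx => by
      obtain ⟨k, hk, hk'⟩ := hTt x (hN'T hx)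
      exact ⟨k, hk, by rw [hk']; exact N.one_mem⟩)
  refine ⟨N'', hN''n, hlt'', hle''.trans hN'T, ?_⟩
  rcases h with ⟨k, hcs⟩ | ⟨k, hcs⟩
  · exact stepC H hr T hTt A B hAB N hN hNT p hp N'' hN''n hlt''
      (fun x hx y hy => hab x (hle'' hx) y (hle'' hy)) hpow k
      (fun a ha x hx => hcs a ha x (hle'' hx))
  · have hBA : ∀ g : G, ∃ b ∈ B, ∃ a ∈ A, g = b * a := by
      intro g
      obtain ⟨a, ha, b, hb, hab⟩ := hAB g⁻¹
      refine ⟨b⁻¹, B.inv_mem hb, a⁻¹, A.inv_mem ha, ?_⟩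
      rw [← mul_inv_rev, ← hab, inv_inv]
    have h1 := stepC H hr T hTt B A hBA N hN hNT p hp N'' hN''n hlt''
      (fun x hx y hy => hab x (hle'' hx) y (hle'' hy)) hpow k
      (fun a ha x hx => hcs a ha x (hle'' hx))
    rw [r0_swap N'' (fun x hx => hTt x ((hle''.trans hN'T) hx)) A B, h1,
      r0_swap N (fun x hx => hTt x (hNT.le hx)) B A]

/-- **Main theorem** (from the theorem on lines), with central steps. -/
theorem mainC (H : PowL) (G : Type) [Group G] [Group.IsSolvable G] (hr : r0 G < ℵ₀)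
    (A B : Subgroup G) (hAB : ∀ g : G, ∃ a ∈ A, ∃ b ∈ B, g = a * b)
    (T : Subgroup G) (hTn : T.Normal) (hTt : IsTor T)
    (hTmax : ∀ S : Subgroup G, S.Normal → IsTor S → S ≤ T)
    (hstar : ∀ N : Subgroup G, N.Normal → N < T → ∃ N' : Subgroup G, N'.Normal ∧ N < N' ∧
      N' ≤ T ∧ (∀ x ∈ N', ∀ y ∈ N', ⁅x, y⁆ ∈ N) ∧ (OneC N N' A ∨ OneC N N' B)) :
    r0 G + r0 ↥(A ⊓ B) = r0 ↥A + r0 ↥B := by
  refine formula_of_quotient' T hTt ?_ A B hAB (radical_zorn hr T A B (fun N hN hNT => ?_))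
  · have hno : NoTor (G ⧸ T) := by
      refine noTor_of_surj (QuotientGroup.mk' T) (QuotientGroup.mk'_surjective T) ?_ ?_
      · rw [QuotientGroup.ker_mk']; exact hTt
      · rintro x ⟨S, hS, hSt, hx⟩
        rw [QuotientGroup.ker_mk']
        exact hTmax S hS hSt hx
    obtain ⟨m, hm⟩ := (Group.isSolvable_def (G ⧸ T)).1 inferInstance
    exact formula_noTor m (G ⧸ T) hm (lt_of_le_of_lt
      (r0_le_of_surjective (QuotientGroup.mk' T) (QuotientGroup.mk'_surjective T)) hr) hno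
  · obtain ⟨N', hN', hlt, hN'T, hab, h⟩ := hstar N hN hNT
    exact stepC' H hr T hTt A B hAB N hN hNT N' hN' hlt hN'T hab h

end Pool.TF90
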