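import Mathlib
import Pool.Agent.TFN.StepZ

/-!
# Layers centralised by a nilpotent normal subgroup
-/

set_option autoImplicit false

namespace Pool.TF90

open Cardinal Pool.TFR Pool.TFM Pool.TFN
open scoped commutatorElement

/-- the last nontrivial term of a sequence of subgroups -/
theorem exists_last {G : Type} [Group G] (C : ℕ → Subgroup G) (h0 : C 0 ≠ ⊥) (n : ℕ)
    (hn : C n = ⊥) : ∃ m, C m ≠ ⊥ ∧ C (m + 1) = ⊥ := by
  classical
  by_contra hcon
  push Not at hcon
  have h : ∀ m, C m ≠ ⊥ := by
    intro m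
    induction m with
    | zero => exact h0
    | succ m ih => exact hcon m ih
  exact h n hn

/-- a nontrivial abelian normal subgroup inside `T` centralised by `K` -/
theorem exists_small {G : Type} [Group G] [Group.IsSolvable G] (T K : Subgroup G) [hT : T.Normal]
    [hK : K.Normal] (hn : Group.IsNilpotent ↥K) (hT0 : T ≠ ⊥) :
    ∃ M : Subgroup G, M.Normal ∧ M ≠ ⊥ ∧ M ≤ T ∧ ⁅M, M⁆ = ⊥ ∧ ⁅M, K⁆ = ⊥ := by
  -- first sequence
  let C : ℕ → Subgroup G := fun i => Nat.rec T (fun _ X => ⁅X, K⁆) i
  have hC0 : C 0 = T := rfl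
  have hCs : ∀ i, C (i + 1) = ⁅C i, K⁆ := fun i => rfl
  have hCn : ∀ i, (C i).Normal := by
    intro i
    induction i with
    | zero => exact hT
    | succ i ih =>
      rw [hCs i]
      exact @Subgroup.commutator_normal G _ (C i) K ih hK
  have hCT : ∀ i, C i ≤ T := by
    intro i
    induction i with
    | zero => exact le_refl _
    | succ i ih =>
      have := hCn i
      rw [hCs]
      exact (@Subgroup.commutator_le_left G _ (C i) K this).trans ih
  have hCL : ∀ i, C (i + 1) ≤ K.lowerCentralSeries i := by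
    intro i
    induction i with
    | zero =>
      rw [hCs, Subgroup.lowerCentralSeries_zero]
      exact @Subgroup.commutator_le_right G _ (C 0) K hK
    | succ i ih =>
      rw [hCs (i + 1), Subgroup.lowerCentralSeries_succ]
      exact Subgroup.commutator_mono ih (le_refl _)
  obtain ⟨n, hn'⟩ := (Subgroup.isNilpotent_iff_lowerCentralSeries K).1 hn
  obtain ⟨m, hm, hm'⟩ := exists_last C hT0 (n + 1) (by
    have := hCL n
    rw [hn'] at this
    exact le_bot_iff.1 this)
  -- second sequence
  let D : ℕ → Subgroup G := fun i => Nat.rec (C m) (fun _ X => ⁅X, X⁆) i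
  have hDs : ∀ i, D (i + 1) = ⁅D i, D i⁆ := fun i => rfl
  have hDn : ∀ i, (D i).Normal := by
    intro i
    induction i with
    | zero => exact hCn m
    | succ i ih =>
      rw [hDs i]
      exact @Subgroup.commutator_normal G _ (D i) (D i) ih ih
  have hDC : ∀ i, D i ≤ C m := by
    intro i
    induction i with
    | zero => exact le_refl _
    | succ i ih =>
      have := hDn i
      rw [hDs]
      exact (@Subgroup.commutator_le_left G _ (D i) (D i) this).trans ih
  have hDd : ∀ i, D i ≤ derivedSeries G i := by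
    intro i
    induction i with
    | zero => exact le_top
    | succ i ih =>
      rw [hDs, derivedSeries_succ]
      exact Subgroup.commutator_mono ih ih
  obtain ⟨k, hk⟩ := (Group.isSolvable_def G).1 inferInstance
  obtain ⟨j, hj, hj'⟩ := exists_last D hm k (by
    have := hDd k
    rw [hk] at this
    exact le_bot_iff.1 this)
  refine ⟨D j, hDn j, hj, (hDC j).trans (hCT m), hj', ?_⟩
  refine le_bot_iff.1 ?_
  rw [← hm', hCs]
  exact Subgroup.commutator_mono (hDC j) (le_refl _)

/-- the layers used for nilpotent-by-metabelian groups -/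
theorem exists_layer {G : Type} [Group G] [Group.IsSolvable G] (T N K : Subgroup G)
    (hT : T.Normal) (hN : N.Normal) (hK : K.Normal) (hn : Group.IsNilpotent ↥K) (hNT : N < T) :
    ∃ N' : Subgroup G, N'.Normal ∧ N < N' ∧ N' ≤ T ∧ (∀ x ∈ N', ∀ y ∈ N', ⁅x, y⁆ ∈ N) ∧
      ∀ k ∈ K, ∀ x ∈ N', ⁅k, x⁆ ∈ N := by
  let f : G →* G ⧸ N := QuotientGroup.mk' N
  have hf : Function.Surjective f := QuotientGroup.mk'_surjective N
  have hker : f.ker = N := QuotientGroup.ker_mk' N
  have hTf : (T.map f).Normal := hT.map f hf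
  have hKf : (K.map f).Normal := hK.map f hf
  have hnf : Group.IsNilpotent ↥(K.map f) :=
    Group.nilpotent_of_surjective (f.subgroupMap K) (f.subgroupMap_surjective K)
  have hT0 : T.map f ≠ ⊥ := by
    intro h
    rw [Subgroup.map_eq_bot_iff, hker] at h
    exact absurd h (not_le_of_gt hNT)
  obtain ⟨M, hM, hM0, hMT, hMM, hMK⟩ := exists_small (T.map f) (K.map f) hnf hT0
  have hmem : ∀ x, f x = 1 ↔ x ∈ N := fun x => QuotientGroup.eq_one_iff x
  refine ⟨M.comap f, hM.comap f, ?_, ?_, ?_, ?_⟩
  · refine lt_of_le_of_ne ?_ ?_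
    · intro x hx
      rw [Subgroup.mem_comap, (hmem x).2 hx]
      exact M.one_mem
    · intro h
      apply hM0
      rw [← Subgroup.map_comap_eq_self_of_surjective hf M, ← h, Subgroup.map_eq_bot_iff, hker]
  · intro x hx
    obtain ⟨t, ht, hxt⟩ := hMT hx
    have h1 : t⁻¹ * x ∈ N := by
      rw [← hmem, map_mul, map_inv, hxt, inv_mul_cancel]
    have h2 : x = t * (t⁻¹ * x) := by group
    rw [h2]
    exact T.mul_mem ht (hNT.le h1)
  · intro x hx y hy
    rw [← hmem, map_commutatorElement, ← Subgroup.mem_bot, ← hMM]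
    exact Subgroup.commutator_mem_commutator hx hy
  · intro k hk x hx
    rw [← hmem, map_commutatorElement, ← Subgroup.mem_bot, ← hMK, Subgroup.commutator_comm]
    exact Subgroup.commutator_mem_commutator ⟨k, hk, rfl⟩ hx

end Pool.TF90
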