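import Mathlib
import Pool.Agent.TF90.Defs

/-!
# Blocks of minimal positive rank
-/

set_option autoImplicit false

namespace Pool.TF90

open Cardinal Pool.TFR Pool.TFM Pool.TFN

/-- a commutative group of rank zero is torsion -/
theorem torsion_of_ra_zero {A : Type} [CommGroup A] (h : ra A = 0) (x : A) :
    ∃ m : ℕ, 0 < m ∧ x ^ m = 1 := by
  unfold ra at h
  rw [rank_eq_zero_iff] at h
  obtain ⟨n, hn, hx⟩ := h (Additive.ofMul x)
  refine ⟨n.natAbs, Int.natAbs_pos.2 hn, ?_⟩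
  have h1 : x ^ n = 1 := by
    have h2 := congrArg Additive.toMul hx
    simpa using h2
  rcases Int.natAbs_eq n with h3 | h3
  · rw [h3, zpow_natCast] at h1
    exact h1
  · rw [h3, zpow_neg, zpow_natCast, inv_eq_one] at h1
    exact h1

/-- equal finite ranks: every element has a power in the image -/
theorem powers_of_ra_le {A B : Type} [CommGroup A] [CommGroup B] (f : A →* B)
    (hfin : ra B < ℵ₀) (hle : ra B ≤ ra A) (hf : Function.Injective f) (b : B) :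
    ∃ n : ℕ, 0 < n ∧ b ^ n ∈ f.range := by
  have h1 := ra_add (QuotientGroup.mk' f.range) (QuotientGroup.mk'_surjective _)
  rw [QuotientGroup.ker_mk'] at h1
  have h2 : ra A = ra ↥f.range := ra_congr (MonoidHom.ofInjective hf)
  rw [← h2] at h1
  have hA : ra A < ℵ₀ := lt_of_le_of_lt (by rw [h1]; exact self_le_add_right _ _) hfin
  have hq : ra (B ⧸ f.range) < ℵ₀ := lt_of_le_of_lt (by rw [h1]; exact self_le_add_left _ _) hfin
  obtain ⟨a, ha⟩ := Cardinal.lt_aleph0.1 hA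
  obtain ⟨q, hq'⟩ := Cardinal.lt_aleph0.1 hq
  rw [ha, hq'] at h1
  rw [h1, ha] at hle
  have h3 : a + q ≤ a := by exact_mod_cast hle
  have h4 : q = 0 := by omega
  rw [h4, Nat.cast_zero] at hq'
  obtain ⟨m, hm, h5⟩ := torsion_of_ra_zero hq' (QuotientGroup.mk' f.range b)
  refine ⟨m, hm, ?_⟩
  rw [← map_pow] at h5
  exact (QuotientGroup.eq_one_iff _).1 h5

namespace TrG

variable {p : ℕ} [Fact p.Prime] {Q Γ R V : Type} [Group Q] [CommGroup Γ] [CommRing R]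
  [AddCommGroup V] [Module R V] (T : TrG p Q Γ R V)

theorem FR_Gr (hFR : FR Γ) : FR T.Gr :=
  (hFR.subgroup T.κ.range).of_surjective (QuotientGroup.mk' _) (QuotientGroup.mk'_surjective _)

theorem act_mem_iff_GB {B : Submodule R V} (hB : T.A.IsBlock B) {h : Q} :
    T.act h T.c ∈ B ↔ T.A.q h ∈ Amb.GB hB :=
  T.A.act_mem_iff

theorem exists_minB (hFR : FR Γ) (h : ∃ h : Q, ∀ m, 0 < m → h ^ m ∉ T.L) :
    ∃ B0, T.MinB B0 := by
  classical
  have hG : FR T.Gr := T.FR_Gr hFR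
  have hfin : ∀ {B : Submodule R V} (hB : T.A.IsBlock B), ra ↥(Amb.GB hB) < ℵ₀ :=
    fun hB => (hG.subgroup _).ra_lt
  let P : ℕ → Prop := fun n => ∃ (B : Submodule R V) (hB : T.A.IsBlock B),
    ra ↥(Amb.GB hB) = n ∧ ¬ T.Big B T.ln
  have hex : ∃ n, P n := by
    obtain ⟨n, hn⟩ := Cardinal.lt_aleph0.1 (hfin T.A.isBlock_top)
    refine ⟨n, ⊤, T.A.isBlock_top, hn, fun hbig => ?_⟩
    obtain ⟨g, hg⟩ := h
    obtain ⟨m, hm, hgm⟩ := hbig g Submodule.mem_top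
    exact hg m hm hgm
  obtain ⟨B0, hB0, hn, hnot⟩ := Nat.find_spec hex
  refine ⟨B0, hB0, hnot, fun B hle hB => ?_⟩
  by_cases hBt : T.Big B T.ln
  · exact Or.inr hBt
  refine Or.inl (fun g hg => ?_)
  obtain ⟨k, hk⟩ := Cardinal.lt_aleph0.1 (hfin hB)
  have hmin : Nat.find hex ≤ k := Nat.find_min' hex ⟨B, hB, hk, hBt⟩
  have hle' : ra ↥(Amb.GB hB0) ≤ ra ↥(Amb.GB hB) := by
    rw [hn, hk]
    exact_mod_cast hmin
  obtain ⟨m, hm, h1⟩ := powers_of_ra_le (Subgroup.inclusion (Amb.GB_mono hB hB0 hle))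
    (hfin hB0) hle' (Subgroup.inclusion_injective _) ⟨T.A.q g, (T.act_mem_iff_GB hB0).1 hg⟩
  refine ⟨m, hm, (T.act_mem_iff_GB hB).2 ?_⟩
  obtain ⟨y, hy⟩ := h1
  have h2 : (y : T.Gr) = T.A.q g ^ m := congrArg Subtype.val hy
  rw [map_pow, ← h2]
  exact y.2

end TrG

end Pool.TF90
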