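import Mathlib
import Pool.Agent.TF90.Defs

/-!
# Invariant ideals and blocks
-/

set_option autoImplicit false

namespace Pool.TF90

open Cardinal Pool.TFR Pool.TFM Pool.TFN

namespace TrG

variable {p : ℕ} [Fact p.Prime] {Q Γ R V : Type} [Group Q] [CommGroup Γ] [CommRing R]
  [AddCommGroup V] [Module R V] (T : TrG p Q Γ R V)

theorem tr_smul_le {I : Ideal R} (hI : T.Inv I) (h : Q) (N : Submodule R V) :
    T.A.tr h (I • N) ≤ I • T.A.tr h N := by
  have key : ∀ x ∈ I • N, T.act h x ∈ I • T.A.tr h N := by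
    intro x hx
    refine Submodule.smul_induction_on hx ?_ ?_
    · intro r hr n hn
      rw [T.cj_spec]
      exact Submodule.smul_mem_smul (hI h r hr) (T.A.act_mem_tr.2 hn)
    · intro x y hx hy
      rw [map_add]
      exact Submodule.add_mem _ hx hy
  intro x hx
  have h1 := key _ hx
  have h2 : T.act h (T.A.act h⁻¹ x) = x := T.act_act_inv h x
  rwa [h2] at h1

theorem tr_smul {I : Ideal R} (hI : T.Inv I) (h : Q) (N : Submodule R V) :
    T.A.tr h (I • N) = I • T.A.tr h N := by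
  refine le_antisymm (T.tr_smul_le hI h N) ?_
  have h1 := T.A.tr_mono h (T.tr_smul_le hI h⁻¹ (T.A.tr h N))
  rwa [T.A.tr_tr_inv, T.A.tr_inv_tr] at h1

theorem smul_le_M {I : Ideal R} (hIJ : I ≤ T.A.J) (N : Submodule R V) : I • N ≤ T.A.M :=
  (Submodule.smul_mono_left hIJ).trans (T.A.J_smul_le_M N)

theorem isBlock_inv {B : Submodule R V} (hB : T.A.IsBlock B) {I : Ideal R} (hI : T.Inv I)
    (hIJ : I ≤ T.A.J) : T.A.IsBlock (T.ln ⊔ I • B) := by
  refine Amb.isBlock_sup (T.smul_le_M hIJ B) (fun h hh => ?_)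
  have h1 : T.A.act h T.A.c ∈ B :=
    (sup_le ((Submodule.span_singleton_le_iff_mem _ _).2 hB.1) Submodule.smul_le_right :
      Submodule.span R {T.A.c} ⊔ I • B ≤ B) hh
  rw [T.tr_smul hI, hB.2 h h1]

theorem inv_J : T.Inv T.A.J := by
  intro h r hr
  have hr' : T.aug r = 0 := T.A.mem_J.1 hr
  refine T.A.mem_J.2 ?_
  change T.aug (T.cj h r) = 0
  rw [T.aug_cj, hr']

omit [Fact p.Prime] in
/-- conjugation only depends on the image in `Γ` -/
theorem cj_comm (h u : Q) (r : R) : T.cj (h * u) r = T.cj (u * h) r := by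
  have e : h * u = (h * u * (u * h)⁻¹) * (u * h) := by group
  rw [e, T.cj_mul, T.cj_of_K]
  rw [map_mul, map_inv, map_mul, map_mul, mul_comm (T.κ u), mul_inv_cancel]

omit [Fact p.Prime] in
theorem inv_of_le {I : Ideal R} (h : ∀ h : Q, I ≤ I.comap (T.cjR h)) : T.Inv I :=
  fun g _ hr => h g hr

omit [Fact p.Prime] in
theorem Inv.le {T : TrG p Q Γ R V} {I : Ideal R} (hI : T.Inv I) (h : Q) :
    I ≤ I.comap (T.cjR h) := fun _ hr => hI h _ hr

omit [Fact p.Prime] in
theorem inv_aI (u : Q) : T.Inv (T.aI u) := by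
  refine T.inv_of_le (fun h => Ideal.span_le.2 ?_)
  rintro _ ⟨r, rfl⟩
  change T.cjR h (T.cj u r - r) ∈ T.aI u
  rw [map_sub]
  change T.cj h (T.cj u r) - T.cj h r ∈ T.aI u
  rw [← T.cj_mul, T.cj_comm, T.cj_mul]
  exact Ideal.subset_span ⟨_, rfl⟩

omit [Fact p.Prime] in
theorem inv_frob {I : Ideal R} (hI : T.Inv I) : T.Inv (frob p I) := by
  refine T.inv_of_le (fun h => Ideal.span_le.2 ?_)
  rintro _ ⟨r, hr, rfl⟩
  change T.cj h (r ^ p) ∈ frob p I
  rw [T.cj_pow]
  exact Ideal.subset_span ⟨_, hI h r hr, rfl⟩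

omit [Fact p.Prime] in
theorem inv_mul {I I' : Ideal R} (hI : T.Inv I) (hI' : T.Inv I') : T.Inv (I * I') := by
  refine T.inv_of_le (fun h => Ideal.mul_le.2 (fun r hr s hs => ?_))
  change T.cj h (r * s) ∈ I * I'
  rw [T.cj_mul_right]
  exact Ideal.mul_mem_mul (hI h r hr) (hI' h s hs)

omit [Fact p.Prime] in
theorem inv_pow {I : Ideal R} (hI : T.Inv I) (k : ℕ) : T.Inv (I ^ k) := by
  induction k with
  | zero =>
    rw [pow_zero]
    intro h r _
    rw [Ideal.one_eq_top]
    trivial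
  | succ k ih =>
    rw [pow_succ]
    exact T.inv_mul ih hI

theorem aI_le_J (u : Q) : T.aI u ≤ T.A.J := by
  refine Ideal.span_le.2 ?_
  rintro _ ⟨r, rfl⟩
  refine T.A.mem_J.2 ?_
  change T.aug (T.cj u r - r) = 0
  rw [map_sub, T.aug_cj, sub_self]

omit [Fact p.Prime] in
theorem aI_pow_le (u : Q) (k : ℕ) : T.aI (u ^ k) ≤ T.aI u := by
  induction k with
  | zero =>
    refine Ideal.span_le.2 ?_
    rintro _ ⟨r, rfl⟩
    rw [pow_zero, T.cj_one, sub_self]
    exact Ideal.zero_mem _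
  | succ k ih =>
    refine Ideal.span_le.2 ?_
    rintro _ ⟨r, rfl⟩
    have e : T.cj (u ^ (k + 1)) r - r =
        (T.cj u (T.cj (u ^ k) r) - T.cj (u ^ k) r) + (T.cj (u ^ k) r - r) := by
      rw [pow_succ', T.cj_mul]; ring
    rw [e]
    exact Ideal.add_mem _ (Ideal.subset_span ⟨_, rfl⟩) (ih (Ideal.subset_span ⟨_, rfl⟩))

end TrG

theorem frob_span {p : ℕ} [hp : Fact p.Prime] {R : Type} [CommRing R] (hR : (p : R) = 0)
    (G : Set R) : frob p (Ideal.span G) = Ideal.span ((fun r => r ^ p) '' G) := by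
  refine le_antisymm ?_ ?_
  · refine Ideal.span_le.2 ?_
    rintro _ ⟨r, hr, rfl⟩
    rcases subsingleton_or_nontrivial R with hs | hn
    · have : r ^ p = 0 := Subsingleton.elim _ _
      rw [this]
      exact Ideal.zero_mem _
    have : CharP R p := (CharP.charP_iff_prime_eq_zero hp.out).2 hR
    refine Submodule.span_induction (p := fun r _ => r ^ p ∈ Ideal.span ((fun r => r ^ p) '' G))
      ?_ ?_ ?_ ?_ hr
    · intro x hx
      exact Ideal.subset_span ⟨x, hx, rfl⟩
    · rw [zero_pow hp.out.ne_zero]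
      exact Ideal.zero_mem _
    · intro x y _ _ hx hy
      rw [add_pow_char]
      exact Ideal.add_mem _ hx hy
    · intro a x _ hx
      rw [smul_eq_mul, mul_pow]
      exact Ideal.mul_mem_left _ _ hx
  · refine Ideal.span_mono ?_
    rintro _ ⟨r, hr, rfl⟩
    exact ⟨r, Ideal.subset_span hr, rfl⟩

namespace TrG

variable {p : ℕ} [Fact p.Prime] {Q Γ R V : Type} [Group Q] [CommGroup Γ] [CommRing R]
  [AddCommGroup V] [Module R V] (T : TrG p Q Γ R V)

/-- inductive form of the iterated Frobenius ideals, for Case I -/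
theorem frob_iter_le {I : Ideal R} {c : Ideal R} {G : Set R}
    (hG : I = Ideal.span G) (k : ℕ)
    (h : ∀ r ∈ G, r ^ p ^ k ∈ c) (hR : (p : R) = 0) : (frob p)^[k] I ≤ c := by
  induction k generalizing I G with
  | zero =>
    rw [Function.iterate_zero, id, hG]
    refine Ideal.span_le.2 (fun r hr => ?_)
    have := h r hr
    rwa [pow_zero, pow_one] at this
  | succ k ih =>
    rw [Function.iterate_succ_apply]
    refine ih (G := (fun r => r ^ p) '' G) (by rw [hG, frob_span hR]) ?_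
    rintro _ ⟨r, hr, rfl⟩
    have := h r hr
    rw [pow_succ', pow_mul] at this
    exact this

theorem frob_le_J {I : Ideal R} (h : I ≤ T.A.J) : frob p I ≤ T.A.J := by
  refine Ideal.span_le.2 ?_
  rintro _ ⟨r, hr, rfl⟩
  exact Ideal.pow_mem_of_mem _ (h hr) _ (Fact.out : p.Prime).pos

end TrG

end Pool.TF90
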