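import Mathlib
import Pool.Agent.TF90.Bk1

/-!
# Big blocks and stably big ideals
-/

set_option autoImplicit false

namespace Pool.TF90

open Cardinal Pool.TFR Pool.TFM Pool.TFN

namespace TrG

variable {p : ℕ} [Fact p.Prime] {Q Γ R V : Type} [Group Q] [CommGroup Γ] [CommRing R]
  [AddCommGroup V] [Module R V] (T : TrG p Q Γ R V)

omit [Fact p.Prime] in
theorem Big.trans {B1 B2 B3 : Submodule R V} (h : T.Big B1 B2) (h' : T.Big B2 B3) :
    T.Big B1 B3 := by
  intro g hg
  obtain ⟨m, hm, h1⟩ := h g hg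
  obtain ⟨m', hm', h2⟩ := h' (g ^ m) h1
  refine ⟨m * m', Nat.mul_pos hm hm', ?_⟩
  rw [pow_mul]
  exact h2

omit [Fact p.Prime] in
theorem Big.mono {B1 B2 B2' : Submodule R V} (h : T.Big B1 B2) (h' : B2 ≤ B2') :
    T.Big B1 B2' := by
  intro g hg
  obtain ⟨m, hm, h1⟩ := h g hg
  exact ⟨m, hm, h' h1⟩

variable {T} {B0 : Submodule R V}

theorem ln_sup_le {B : Submodule R V} (hB : T.A.IsBlock B) (I : Ideal R) :
    T.ln ⊔ I • B ≤ B := by
  refine sup_le ?_ Submodule.smul_le_right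
  rw [Submodule.span_singleton_le_iff_mem]
  exact hB.1

theorem StB.mono {I I' : Ideal R} (h : T.StB B0 I) (hle : I ≤ I') : T.StB B0 I' := by
  intro B hB0 hB hbig
  exact Big.mono T (h B hB0 hB hbig) (sup_le_sup_left (Submodule.smul_mono_left hle) _)

theorem StB.mul {I I' : Ideal R} (hI' : T.Inv I') (hJ' : I' ≤ T.A.J) (h : T.StB B0 I)
    (h' : T.StB B0 I') : T.StB B0 (I * I') := by
  intro B hB0 hB hbig
  have hle := ln_sup_le hB I'
  have h1 := h _ (hle.trans hB0) (T.isBlock_inv hB hI' hJ') (h' B hB0 hB hbig)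
  refine Big.mono T h1 (sup_le le_sup_left ?_)
  rw [Submodule.smul_sup, ← Submodule.mul_smul]
  exact sup_le_sup Submodule.smul_le_right le_rfl

theorem StB.pow {I : Ideal R} (hI : T.Inv I) (hJ : I ≤ T.A.J) (h : T.StB B0 I) {k : ℕ}
    (hk : 0 < k) : T.StB B0 (I ^ k) := by
  induction k with
  | zero => exact absurd hk (lt_irrefl 0)
  | succ k ih =>
    rcases Nat.eq_zero_or_pos k with rfl | hk'
    · rw [zero_add, pow_one]
      exact h
    · rw [pow_succ]
      exact StB.mul hI hJ (ih hk') h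

omit [Fact p.Prime] in
theorem Big.refl (B : Submodule R V) : T.Big B B :=
  fun g hg => ⟨1, one_pos, by rw [pow_one]; exact hg⟩

theorem MinB.not_bot (h : T.MinB B0) : ¬ T.StB B0 ⊥ := by
  intro hb
  have h1 := hb B0 le_rfl h.blk (Big.refl B0)
  rw [Submodule.bot_smul, sup_bot_eq] at h1
  exact h.not_tor h1

end TrG

end Pool.TF90
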