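import Mathlib
import Pool.Agent.TF90.Defs
import Pool.Agent.TFR.Trick

/-!
# The relation lemma and its consequence for commuting elements
-/

set_option autoImplicit false

namespace Pool.TF90

open Cardinal Polynomial Pool.TFR Pool.TFM Pool.TFN

namespace TrG

variable {p : ℕ} [Fact p.Prime] {Q Γ R V : Type} [Group Q] [CommGroup Γ] [CommRing R]
  [AddCommGroup V] [Module R V] (T : TrG p Q Γ R V)

/-- evaluation of skew polynomials -/
noncomputable def evu (u : Q) (x : V) : R[X] →ₗ[R] V :=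
  Polynomial.lsum (fun k => LinearMap.toSpanSingleton R V (T.act (u ^ k) x))

omit [Fact p.Prime] in
theorem evu_monomial (u : Q) (x : V) (k : ℕ) (r : R) :
    T.evu u x (monomial k r) = r • T.act (u ^ k) x := by
  rw [evu, Polynomial.lsum_apply, Polynomial.sum_monomial_index _ _ (by simp)]
  rfl

omit [Fact p.Prime] in
theorem evu_eq (u : Q) (x : V) (P : R[X]) :
    T.evu u x P = ∑ i ∈ Finset.range (P.natDegree + 1), P.coeff i • T.act (u ^ i) x := by
  rw [evu, Polynomial.lsum_apply, Polynomial.sum_over_range _ (by simp)]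
  rfl

/-- `z` is the value of a skew polynomial reducing to `g` -/
def Rep (u : Q) (g : (ZMod p)[X]) (z : V) : Prop :=
  ∃ P : R[X], P.map T.aug = g ∧ T.evu u T.c P = z

theorem Rep.add {T : TrG p Q Γ R V} {u : Q} {g g' : (ZMod p)[X]} {z z' : V}
    (h : T.Rep u g z) (h' : T.Rep u g' z') : T.Rep u (g + g') (z + z') := by
  obtain ⟨P, hP, hP'⟩ := h
  obtain ⟨P', hQ, hQ'⟩ := h'
  exact ⟨P + P', by rw [Polynomial.map_add, hP, hQ], by rw [map_add, hP', hQ']⟩

theorem Rep.smul {T : TrG p Q Γ R V} {u : Q} {g : (ZMod p)[X]} {z : V}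
    (h : T.Rep u g z) (r : R) : T.Rep u (C (T.aug r) * g) (r • z) := by
  obtain ⟨P, hP, hP'⟩ := h
  refine ⟨C r * P, by rw [Polynomial.map_mul, hP, Polynomial.map_C], ?_⟩
  rw [← Polynomial.smul_eq_C_mul, map_smul, hP']

theorem rep_zero (u : Q) : T.Rep u 0 0 := ⟨0, by simp, by simp⟩

theorem rep_one (u : Q) : T.Rep u 1 T.c := by
  refine ⟨1, Polynomial.map_one _, ?_⟩
  rw [← Polynomial.C_1, ← Polynomial.monomial_zero_left, evu_monomial, one_smul, pow_zero,
    T.act_one]

/-- multiplication by `u` -/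
theorem Rep.mul_X {T : TrG p Q Γ R V} {u : Q} {g : (ZMod p)[X]} {z : V}
    (h : T.Rep u g z) : T.Rep u (X * g) (T.act u z) := by
  obtain ⟨P, rfl, rfl⟩ := h
  induction P using Polynomial.induction_on' with
  | add P P' h h' =>
    rw [Polynomial.map_add, mul_add, map_add, map_add]
    exact h.add h'
  | monomial k r =>
    refine ⟨monomial (k + 1) (T.cj u r), ?_, ?_⟩
    · rw [Polynomial.map_monomial, Polynomial.map_monomial, T.aug_cj, Polynomial.X_mul_monomial]
    · rw [evu_monomial, evu_monomial, T.cj_spec, ← T.act_mul, pow_succ']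

theorem Rep.mul_X_pow {T : TrG p Q Γ R V} {u : Q} {g : (ZMod p)[X]} {z : V}
    (h : T.Rep u g z) (k : ℕ) : T.Rep u (X ^ k * g) (T.act (u ^ k) z) := by
  induction k with
  | zero => rw [pow_zero, pow_zero, one_mul, T.act_one]; exact h
  | succ k ih =>
    rw [pow_succ', pow_succ', mul_assoc, T.act_mul]
    exact ih.mul_X

/-- the values of integral polynomials -/
theorem Rep.poly {T : TrG p Q Γ R V} {u : Q} {g : (ZMod p)[X]} {z : V}
    (h : T.Rep u g z) (f : ℤ[X]) :
    T.Rep u (f.map (Int.castRingHom (ZMod p)) * g) (aeval (T.act u) f z) := by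
  induction f using Polynomial.induction_on' with
  | add P P' h h' =>
    rw [Polynomial.map_add, add_mul, map_add, LinearMap.add_apply]
    exact h.add h'
  | monomial k a =>
    have h1 := (h.mul_X_pow k).smul (a : R)
    rw [Polynomial.map_monomial, ← Polynomial.C_mul_X_pow_eq_monomial, mul_assoc, eq_intCast]
    rw [map_intCast] at h1
    have h2 : aeval (T.act u) (monomial k a) z = (a : R) • T.act (u ^ k) z := by
      rw [Polynomial.aeval_monomial, ← map_pow, Module.End.mul_apply,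
        Module.algebraMap_end_apply, Int.cast_smul_eq_zsmul]
    rw [h2]
    exact h1

theorem eps_poly (u : Q) (f : ℤ[X]) (v : V) :
    T.eps (aeval (T.act u) f v) = (f.eval 1 : ℤ) * T.eps v := by
  induction f using Polynomial.induction_on' with
  | add P P' h h' =>
    rw [map_add, LinearMap.add_apply, map_add, h, h', Polynomial.eval_add, Int.cast_add, add_mul]
  | monomial k a =>
    rw [Polynomial.aeval_monomial, ← map_pow, Module.End.mul_apply,
      Module.algebraMap_end_apply, map_zsmul, T.eps_act, Polynomial.eval_monomial, one_pow,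
      mul_one, zsmul_eq_mul]

/-- commuting past a power of `u` -/
theorem exists_comm (h u : Q) (k : ℕ) :
    ∃ s : R, T.aug s = 1 ∧ ∀ v : V, T.act h (T.act (u ^ k) v) = s • T.act (u ^ k) (T.act h v) := by
  obtain ⟨s, hs⟩ := T.K_act (h * u ^ k * (u ^ k * h)⁻¹) (by
    rw [map_mul, map_inv, map_mul, map_mul, mul_comm (T.κ h), mul_inv_cancel])
  refine ⟨s, ?_, fun v => ?_⟩
  · have h1 := congrArg T.eps (hs T.c)
    rw [T.eps_act, T.eps_smul, T.eps_c, mul_one] at h1
    exact h1.symm
  · rw [← T.act_mul (u ^ k), ← hs, ← T.act_mul, ← T.act_mul, inv_mul_cancel_right]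

/-- the effect of an element moving `c` to `f(u) c` -/
theorem Rep.move {T : TrG p Q Γ R V} {u h : Q} {f : ℤ[X]}
    (hf : T.act h T.c = aeval (T.act u) f T.c) {g : (ZMod p)[X]} {z : V} (hz : T.Rep u g z) :
    T.Rep u (f.map (Int.castRingHom (ZMod p)) * g) (T.act h z) := by
  obtain ⟨P, rfl, rfl⟩ := hz
  induction P using Polynomial.induction_on' with
  | add P P' h h' =>
    rw [Polynomial.map_add, mul_add, map_add, map_add]
    exact h.add h'
  | monomial k r =>
    obtain ⟨s, hs, hs'⟩ := T.exists_comm h u k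
    have h1 := ((((T.rep_one u).poly f).mul_X_pow k).smul s).smul (T.cj h r)
    rw [evu_monomial, T.cj_spec, hs', hf]
    rw [Polynomial.map_monomial, ← Polynomial.C_mul_X_pow_eq_monomial]
    rw [T.aug_cj, hs, C_1, one_mul, mul_one] at h1
    convert h1 using 1
    ring

theorem Rep.ker {T : TrG p Q Γ R V} {u k : Q} (hk : T.κ k = 1) {g : (ZMod p)[X]} {z : V}
    (hz : T.Rep u g z) : T.Rep u g (T.act k z) := by
  obtain ⟨s, hs⟩ := T.K_act k hk
  have h1 := congrArg T.eps (hs T.c)
  rw [T.eps_act, T.eps_smul, T.eps_c, mul_one] at h1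
  have h2 := hz.smul s
  rw [← h1, C_1, one_mul, ← hs] at h2
  exact h2

/-- the relation at the base point -/
theorem exists_rel_c [Group.IsSolvable Q] (hr : r0 Q < ℵ₀) (u : Q) :
    ∃ g : (ZMod p)[X], g ≠ 0 ∧ T.Rep u g 0 := by
  have hra : ra ↥T.κ.range < ℵ₀ := by
    rw [← r0_comm]
    exact lt_of_le_of_lt (r0_le_of_surjective T.κ.rangeRestrict T.κ.rangeRestrict_surjective) hr
  let f : ℕ → ℤ[X] := fun i => 1 + (X - 1) * seqP (X - 1 : ℤ[X]) i
  have hf1 : ∀ i, (f i).eval 1 = 1 := by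
    intro i
    simp [f]
  have hex : ∀ i, ∃ h, T.act h T.c = aeval (T.act u) (f i) T.c := by
    intro i
    refine T.trans _ ?_
    rw [T.eps_poly, hf1, Int.cast_one, one_mul, T.eps_c]
  choose h hh using hex
  obtain ⟨a, b, hab, hd, hrel⟩ := exists_relation hra (fun i => T.κ.rangeRestrict (h i))
  let fb : ℕ → (ZMod p)[X] := fun i => (f i).map (Int.castRingHom (ZMod p))
  let S : Submonoid (↥T.κ.range × (ZMod p)[X]) :=
    { carrier := {x | ∃ h : Q, T.κ.rangeRestrict h = x.1 ∧
        ∀ g z, T.Rep u g z → T.Rep u (x.2 * g) (T.act h z)}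
      one_mem' := ⟨1, map_one _, fun g z hz => by
        rw [Prod.snd_one, one_mul, T.act_one]; exact hz⟩
      mul_mem' := by
        rintro ⟨γ₁, g₁⟩ ⟨γ₂, g₂⟩ ⟨h₁, e₁, h₁'⟩ ⟨h₂, e₂, h₂'⟩
        refine ⟨h₁ * h₂, ?_, fun g z hz => ?_⟩
        · rw [map_mul, e₁, e₂]; rfl
        · rw [T.act_mul, Prod.snd_mul, mul_assoc]
          exact h₁' _ _ (h₂' _ _ hz) }
  have key : ∀ c : ℕ →₀ ℕ, ∃ q : Q,
      T.κ.rangeRestrict q = c.prod (fun i n => T.κ.rangeRestrict (h i) ^ n) ∧
      T.Rep u (c.prod (fun i n => fb i ^ n)) (T.act q T.c) := by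
    intro c
    have hmem : (c.prod fun i n =>
        ((T.κ.rangeRestrict (h i), fb i) : ↥T.κ.range × (ZMod p)[X]) ^ n) ∈ S := by
      refine Submonoid.prod_mem S (fun i _ => Submonoid.pow_mem S ?_ _)
      exact ⟨h i, rfl, fun g z hz => Rep.move (hh i) hz⟩
    have e : (c.prod fun i n =>
        ((T.κ.rangeRestrict (h i), fb i) : ↥T.κ.range × (ZMod p)[X]) ^ n) =
        (c.prod (fun i n => T.κ.rangeRestrict (h i) ^ n), c.prod (fun i n => fb i ^ n)) := by
      unfold Finsupp.prod
      refine Prod.ext ?_ ?_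
      · simp [Prod.fst_prod]
      · simp [Prod.snd_prod]
    rw [e] at hmem
    obtain ⟨q, hq, hq'⟩ := hmem
    refine ⟨q, hq, ?_⟩
    have h2 := hq' 1 T.c (T.rep_one u)
    rwa [mul_one] at h2
  obtain ⟨qa, hqa, hqa'⟩ := key a
  obtain ⟨qb, hqb, hqb'⟩ := key b
  have hk : T.κ (qa * qb⁻¹) = 1 := by
    have h1 : T.κ.rangeRestrict qa = T.κ.rangeRestrict qb := by rw [hqa, hqb, hrel]
    have h2 : T.κ qa = T.κ qb := congrArg Subtype.val h1
    rw [map_mul, map_inv, h2, mul_inv_cancel]
  have h3 := hqb'.ker hk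
  rw [← T.act_mul, inv_mul_cancel_right] at h3
  have h4 := hqa'.add (h3.smul (-1))
  rw [map_neg, map_one, neg_smul, one_smul, add_neg_cancel] at h4
  refine ⟨_, ?_, h4⟩
  have h5 := coprime_ne (k := (ZMod p)[X]) 1 fb (fun i => isCoprime_one_right) (by
    intro i j hij
    exact (seq_coprime (X - 1 : ℤ[X]) hij).map (Polynomial.mapRingHom (Int.castRingHom (ZMod p))))
    (by
      intro i hu
      have h6 := (seqP_monic i).2
      have h7 : (fb i).Monic := h6.1.map _
      have h8 : (fb i).natDegree = (f i).natDegree := h6.1.natDegree_map _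
      have h9 := Polynomial.natDegree_eq_zero_of_isUnit hu
      rw [h8] at h9
      have h10 : 0 < (f i).natDegree := h6.2
      omega) a b hab hd
  rw [one_pow, one_mul, one_pow, one_mul] at h5
  intro h6
  apply h5
  rw [C_neg, C_1, neg_one_mul, ← sub_eq_add_neg] at h6
  exact h6

/-- **Relation lemma.** -/
theorem exists_rel [Group.IsSolvable Q] (hr : r0 Q < ℵ₀) (u : Q) :
    ∃ (n : ℕ) (a : ℕ → ZMod p), (∃ i ≤ n, a i ≠ 0) ∧ ∀ x : V, T.eps x = 1 →
      ∃ r : ℕ → R, (∀ i, T.aug (r i) = a i) ∧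
        ∑ i ∈ Finset.range (n + 1), r i • T.act (u ^ i) x = 0 := by
  obtain ⟨g, hg, P, hP, hP0⟩ := T.exists_rel_c hr u
  refine ⟨P.natDegree, fun i => g.coeff i, ?_, ?_⟩
  · refine ⟨g.natDegree, ?_, ?_⟩
    · rw [← hP]; exact Polynomial.natDegree_map_le
    · exact Polynomial.leadingCoeff_ne_zero.2 hg
  · intro x hx
    obtain ⟨h, rfl⟩ := T.trans x hx
    choose s hs hs' using fun k => T.exists_comm h u k
    refine ⟨fun i => T.cj h (P.coeff i) * s i, fun i => ?_, ?_⟩
    · rw [map_mul, T.aug_cj, hs, mul_one, ← hP]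
      exact (Polynomial.coeff_map _ _).symm
    · rw [evu_eq] at hP0
      have h1 := congrArg (T.act h) hP0
      rw [map_sum, map_zero] at h1
      rw [← h1]
      refine Finset.sum_congr rfl (fun i _ => ?_)
      rw [T.cj_spec, hs', mul_smul]

/-- a nonzero polynomial divides a difference of two powers of the indeterminate -/
theorem exists_dvd {g : (ZMod p)[X]} (hg : g ≠ 0) :
    ∃ i j : ℕ, i < j ∧ g ∣ X ^ i - X ^ j := by
  have hm : (g * C g.leadingCoeff⁻¹).Monic := Polynomial.monic_mul_leadingCoeff_inv hg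
  have h1 := hm.finite_quotient
  have : Finite ((ZMod p)[X] ⧸ Ideal.span {g * C g.leadingCoeff⁻¹}) :=
    Module.finite_of_finite (ZMod p)
  obtain ⟨i, j, hij, h⟩ := Finite.exists_ne_map_eq_of_infinite
    (fun i : ℕ => Ideal.Quotient.mk (Ideal.span {g * C g.leadingCoeff⁻¹}) (X ^ i))
  have key : ∀ i j : ℕ, Ideal.Quotient.mk (Ideal.span {g * C g.leadingCoeff⁻¹}) (X ^ i) =
      Ideal.Quotient.mk (Ideal.span {g * C g.leadingCoeff⁻¹}) (X ^ j) → g ∣ X ^ i - X ^ j := by
    intro i j h
    rw [Ideal.Quotient.eq, Ideal.mem_span_singleton] at h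
    exact (dvd_mul_right _ _).trans h
  rcases lt_or_gt_of_ne hij with h2 | h2
  · exact ⟨i, j, h2, key i j h⟩
  · exact ⟨j, i, h2, key j i h.symm⟩

/-- a polynomial over the augmentation ideal has a power which kills a given vector -/
theorem exists_pow_kill {W : Type} [AddCommGroup W] [Module R W] (w : Module.End R W)
    (w0 : W) (h0 : ∀ r : R, r • T.c = 0 → r • w0 = 0)
    (D : R[X]) (hD : D.map T.aug = 0) :
    ∃ s : ℕ, aeval w (D ^ p ^ s) w0 = 0 := by
  have : Nontrivial R := T.aug.domain_nontrivial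
  have hch : CharP R p := (CharP.charP_iff_prime_eq_zero (Fact.out : p.Prime)).2 T.charp
  choose n hn using fun i => T.nil (r := D.coeff i) (by
    rw [← Polynomial.coeff_map, hD, Polynomial.coeff_zero]) T.c
  obtain ⟨s, hs⟩ : ∃ s, ∀ i ∈ Finset.range (D.natDegree + 1), n i ≤ p ^ s := by
    refine ⟨(Finset.range (D.natDegree + 1)).sup n, fun i hi => ?_⟩
    exact (Finset.le_sup hi).trans (Nat.lt_pow_self (Fact.out : p.Prime).one_lt).le
  refine ⟨s, ?_⟩
  have h1 : D ^ p ^ s = ∑ i ∈ Finset.range (D.natDegree + 1),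
      monomial (i * p ^ s) (D.coeff i ^ p ^ s) := by
    conv_lhs => rw [Polynomial.as_sum_range D]
    rw [sum_pow_char_pow]
    refine Finset.sum_congr rfl (fun i _ => ?_)
    rw [Polynomial.monomial_pow]
  rw [h1, map_sum, LinearMap.sum_apply]
  refine Finset.sum_eq_zero (fun i hi => ?_)
  rw [Polynomial.aeval_monomial, Module.End.mul_apply, Module.algebraMap_end_apply, ← map_smul]
  have h2 : D.coeff i ^ p ^ s • T.c = 0 := by
    obtain ⟨d, hd⟩ := Nat.exists_eq_add_of_le (hs i hi)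
    rw [hd, pow_add, mul_comm, mul_smul, hn, smul_zero]
  rw [h0 _ h2, map_zero]

set_option linter.unusedVariables false in
/-- **Lemma T.** -/
theorem lemmaT [Group.IsSolvable Q] (hr : r0 Q < ℵ₀) {B X : Submodule R V} {u : Q}
    (hXB : X ≤ B) (hc : T.c ∈ B) (hB : T.A.tr u B = B) (hX : T.A.tr u X = X)
    (hcomm : ∀ r : R, ∀ v ∈ B, (T.cj u r - r) • v ∈ X) :
    ∃ m : ℕ, 0 < m ∧ T.act (u ^ m) T.c - T.c ∈ X := by
  have : Nontrivial R := T.aug.domain_nontrivial
  have hch : CharP R p := (CharP.charP_iff_prime_eq_zero (Fact.out : p.Prime)).2 T.charp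
  obtain ⟨g, hg, P, hP, hP0⟩ := T.exists_rel_c hr u
  have huB : ∀ v ∈ B, T.act u v ∈ B := by
    intro v hv
    have h1 : T.act u v ∈ T.A.tr u B := T.A.act_mem_tr.2 hv
    rwa [hB] at h1
  have huX : ∀ v ∈ X, T.act u v ∈ X := by
    intro v hv
    have h1 : T.act u v ∈ T.A.tr u X := T.A.act_mem_tr.2 hv
    rwa [hX] at h1
  have huX' : ∀ v ∈ X, T.act u⁻¹ v ∈ X := by
    intro v hv
    have h1 : v ∈ T.A.tr u X := by rwa [hX]
    exact h1
  let X' : Submodule R ↥B := X.comap B.subtype
  let W := ↥B ⧸ X'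
  have hmk : ∀ a b : ↥B, (a : V) - b ∈ X → (X'.mkQ a : W) = X'.mkQ b := by
    intro a b h
    rw [Submodule.mkQ_apply, Submodule.mkQ_apply, Submodule.Quotient.eq]
    exact h
  let f : ↥B →ₗ[R] W :=
    { toFun := fun b => X'.mkQ ⟨T.act u b, huB _ b.2⟩
      map_add' := fun a b => by
        rw [← map_add]
        refine hmk _ _ ?_
        have : (T.act u ((a + b : ↥B) : V)) - (T.act u a + T.act u b) = 0 := by
          rw [Submodule.coe_add, map_add, sub_self]
        change T.act u ((a + b : ↥B) : V) - (T.act u a + T.act u b) ∈ X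
        rw [this]; exact X.zero_mem
      map_smul' := fun r b => by
        rw [RingHom.id_apply, ← map_smul]
        refine hmk _ _ ?_
        change T.act u (r • (b : V)) - r • T.act u b ∈ X
        rw [T.cj_spec, ← sub_smul]
        exact hcomm r _ (huB _ b.2) }
  have hf : ∀ b : ↥B, f b = X'.mkQ ⟨T.act u b, huB _ b.2⟩ := fun _ => rfl
  let w : Module.End R W := X'.liftQ f (by
    intro b hb
    rw [LinearMap.mem_ker, hf, Submodule.mkQ_apply, Submodule.Quotient.mk_eq_zero]
    exact huX _ hb)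
  have hw : ∀ b : ↥B, w (X'.mkQ b) = X'.mkQ ⟨T.act u b, huB _ b.2⟩ := fun _ => rfl
  have huBk : ∀ (k : ℕ) (v : V), v ∈ B → T.act (u ^ k) v ∈ B := by
    intro k
    induction k with
    | zero => intro v hv; rw [pow_zero, T.act_one]; exact hv
    | succ k ih => intro v hv; rw [pow_succ', T.act_mul]; exact huB _ (ih v hv)
  have hwk : ∀ (k : ℕ) (b : ↥B), (w ^ k) (X'.mkQ b) = X'.mkQ ⟨T.act (u ^ k) b, huBk k _ b.2⟩ := by
    intro k
    induction k with
    | zero =>
      intro b
      rw [pow_zero, Module.End.one_apply]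
      congr 1
      exact Subtype.ext (by
        change (b : V) = T.act (u ^ 0) b
        rw [pow_zero, T.act_one])
    | succ k ih =>
      intro b
      rw [pow_succ', Module.End.mul_apply, ih, hw]
      congr 1
      exact Subtype.ext (by
        change T.act u (T.act (u ^ k) b) = T.act (u ^ (k + 1)) b
        rw [pow_succ', T.act_mul])
  set cc : ↥B := ⟨T.c, hc⟩ with hcc
  have hev : ∀ D : R[X], ∃ z : ↥B, (z : V) = T.evu u T.c D ∧
      aeval w D (X'.mkQ cc) = X'.mkQ z := by
    intro D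
    induction D using Polynomial.induction_on' with
    | add D D' h h' =>
      obtain ⟨z, hz, hz'⟩ := h
      obtain ⟨y, hy, hy'⟩ := h'
      refine ⟨z + y, by rw [Submodule.coe_add, hz, hy, map_add], ?_⟩
      rw [map_add, LinearMap.add_apply, hz', hy', map_add]
    | monomial k r =>
      refine ⟨r • ⟨T.act (u ^ k) cc, huBk k _ cc.2⟩, ?_, ?_⟩
      · rw [evu_monomial]; rfl
      · rw [Polynomial.aeval_monomial, Module.End.mul_apply, Module.algebraMap_end_apply, hwk,
          map_smul]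
  have hPw : aeval w P (X'.mkQ cc) = 0 := by
    obtain ⟨z, hz, hz'⟩ := hev P
    rw [hz', Submodule.mkQ_apply, Submodule.Quotient.mk_eq_zero]
    change (z : V) ∈ X
    rw [hz, hP0]; exact X.zero_mem
  -- the lift
  let ι : ZMod p →+* R := ZMod.castHom dvd_rfl R
  have hι : T.aug.comp ι = RingHom.id _ := Subsingleton.elim _ _
  let D : R[X] := P - g.map ι
  have hD : D.map T.aug = 0 := by
    rw [Polynomial.map_sub, hP, Polynomial.map_map, hι, Polynomial.map_id, sub_self]
  obtain ⟨s, hs⟩ : ∃ s : ℕ, aeval w (D ^ p ^ s) (X'.mkQ cc) = 0 := by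
    refine T.exists_pow_kill w _ (fun r hr => ?_) D hD
    rw [← map_smul]
    have : r • cc = 0 := Subtype.ext hr
    rw [this, map_zero]
  have hgw : aeval w ((g ^ p ^ s).map ι) (X'.mkQ cc) = 0 := by
    have e : (g ^ p ^ s).map ι = P ^ p ^ s - D ^ p ^ s := by
      rw [← sub_pow_char_pow, Polynomial.map_pow, sub_sub_cancel]
    rw [e, map_sub, LinearMap.sub_apply, hs, sub_zero]
    obtain ⟨t, ht⟩ : ∃ t, p ^ s = t + 1 :=
      ⟨p ^ s - 1, (Nat.succ_pred_eq_of_pos (pow_pos (Fact.out : p.Prime).pos s)).symm⟩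
    rw [ht, pow_succ, map_mul, Module.End.mul_apply, hPw, map_zero]
  obtain ⟨i, j, hij, q, hq⟩ := exists_dvd (p := p) (pow_ne_zero (p ^ s) hg)
  have h1 : aeval w ((Polynomial.X ^ i - Polynomial.X ^ j : (ZMod p)[X]).map ι) (X'.mkQ cc) = 0 := by
    rw [hq, mul_comm, Polynomial.map_mul, map_mul, Module.End.mul_apply, hgw, map_zero]
  rw [Polynomial.map_sub, Polynomial.map_pow, Polynomial.map_pow, Polynomial.map_X, map_sub,
    map_pow, map_pow, aeval_X, LinearMap.sub_apply, hwk, hwk, ← map_sub, Submodule.mkQ_apply,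
    Submodule.Quotient.mk_eq_zero] at h1
  have h2 : T.act (u ^ i) T.c - T.act (u ^ j) T.c ∈ X := h1
  have huXk : ∀ (k : ℕ) (v : V), v ∈ X → T.act (u ^ k)⁻¹ v ∈ X := by
    intro k
    induction k with
    | zero => intro v hv; rw [pow_zero, inv_one, T.act_one]; exact hv
    | succ k ih =>
      intro v hv
      rw [pow_succ, mul_inv_rev, T.act_mul]
      exact huX' _ (ih v hv)
  have h3 := huXk i _ h2
  rw [map_sub, T.act_inv_act, ← T.act_mul] at h3
  have h4 : (u ^ i)⁻¹ * u ^ j = u ^ (j - i) := by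
    rw [inv_mul_eq_iff_eq_mul, ← pow_add]; congr 1; omega
  rw [h4] at h3
  refine ⟨j - i, by omega, ?_⟩
  rw [← neg_sub]
  exact X.neg_mem h3

end TrG

end Pool.TF90
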