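import Mathlib
import Pool.Agent.TF90.Bk2a
import Pool.Agent.TF90.Rel

/-!
# Stably big ideals from Lemma T
-/

set_option autoImplicit false

namespace Pool.TF90

open Cardinal Pool.TFR Pool.TFM Pool.TFN

namespace TrG

variable {p : ℕ} [Fact p.Prime] {Q Γ R V : Type} [Group Q] [CommGroup Γ] [CommRing R]
  [AddCommGroup V] [Module R V] {T : TrG p Q Γ R V} {B0 : Submodule R V}

theorem MinB.StB_J [Group.IsSolvable Q] (hr : r0 Q < ℵ₀) (h : T.MinB B0) :
    T.StB B0 T.A.J := by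
  intro B hB0 hB hbig
  refine Big.trans T hbig (fun u hu => ?_)
  have hB' : T.A.tr u B = B := hB.2 u hu
  obtain ⟨m, hm, h1⟩ := T.lemmaT hr (B := B) (X := T.A.J • B) (u := u) Submodule.smul_le_right
    hB.1 hB' (by rw [T.A.tr_J, hB']) (fun r v hv => by
      refine Submodule.smul_mem_smul ?_ hv
      rw [T.A.mem_J]
      change T.aug (T.cj u r - r) = 0
      rw [map_sub, T.aug_cj, sub_self])
  refine ⟨m, hm, ?_⟩
  have e : T.act (u ^ m) T.c = T.c + (T.act (u ^ m) T.c - T.c) := by abel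
  rw [e]
  exact Submodule.add_mem _ (Submodule.mem_sup_left (Submodule.mem_span_singleton_self _))
    (Submodule.mem_sup_right h1)

theorem MinB.StB_aI [Group.IsSolvable Q] (hr : r0 Q < ℵ₀) (h : T.MinB B0) {u : Q}
    (hu : T.act u T.c ∈ B0) (hu' : ∀ m, 0 < m → u ^ m ∉ T.L) : T.StB B0 (T.aI u) := by
  intro B hB0 hB hbig
  have hblk := T.isBlock_inv hB (T.inv_aI u) (T.aI_le_J u)
  refine (h.dich _ ((ln_sup_le hB _).trans hB0) hblk).resolve_right (fun hsm => ?_)
  obtain ⟨m0, hm0, hw⟩ := hbig u hu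
  have hB' : T.A.tr (u ^ m0) B = B := hB.2 _ hw
  obtain ⟨m, hm, h1⟩ := T.lemmaT hr (B := B) (X := T.aI u • B) (u := u ^ m0)
    Submodule.smul_le_right hB.1 hB' (by rw [T.tr_smul (T.inv_aI u), hB'])
    (fun r v hv => Submodule.smul_mem_smul
      (T.aI_pow_le u m0 (Ideal.subset_span ⟨r, rfl⟩)) hv)
  have h2 : T.act ((u ^ m0) ^ m) T.c ∈ T.ln ⊔ T.aI u • B := by
    have e : T.act ((u ^ m0) ^ m) T.c = T.c + (T.act ((u ^ m0) ^ m) T.c - T.c) := by abel
    rw [e]
    exact Submodule.add_mem _ (Submodule.mem_sup_left (Submodule.mem_span_singleton_self _))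
      (Submodule.mem_sup_right h1)
  obtain ⟨m', hm', h3⟩ := hsm _ h2
  refine hu' (m0 * m * m') (by positivity) ?_
  rw [T.mem_L, pow_mul, pow_mul]
  exact h3

end TrG

end Pool.TF90
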