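import Mathlib
import Pool.Agent.TF90.Defs
import Pool.Agent.TF90.Bk2
import Pool.Agent.TFM8.CaseI

/-!
# Case I
-/

set_option autoImplicit false

namespace Pool.TF90

open Cardinal Pool.TFR Pool.TFM Pool.TFN

namespace TrG

variable {p : ℕ} [Fact p.Prime] {Q Γ R V : Type} [Group Q] [CommGroup Γ] [CommRing R]
  [AddCommGroup V] [Module R V] (T : TrG p Q Γ R V)

include T in
theorem c1_add_pow (k : ℕ) (a b : R) : (a + b) ^ p ^ k = a ^ p ^ k + b ^ p ^ k := by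
  have : Nontrivial R := by
    refine ⟨1, 0, fun h => ?_⟩
    have h1 := congrArg T.aug h
    rw [map_one, map_zero] at h1
    exact one_ne_zero h1
  have : CharP R p := (CharP.charP_iff_prime_eq_zero (Fact.out : p.Prime)).2 T.charp
  exact add_pow_char_pow a b p k

/-- elements of augmentation zero whose `p ^ k`-th power kills `P` -/
def Jq (P : Submodule R V) (k : ℕ) : Ideal R where
  carrier := {j | T.aug j = 0 ∧ ∀ v ∈ P, j ^ p ^ k • v = 0}
  add_mem' := by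
    rintro a b ⟨ha, ha'⟩ ⟨hb, hb'⟩
    refine ⟨by rw [map_add, ha, hb, add_zero], fun v hv => ?_⟩
    rw [T.c1_add_pow, add_smul, ha' v hv, hb' v hv, add_zero]
  zero_mem' := by
    refine ⟨map_zero _, fun v _ => ?_⟩
    rw [zero_pow (pow_ne_zero _ (Fact.out : p.Prime).ne_zero), zero_smul]
  smul_mem' := by
    rintro a b ⟨hb, hb'⟩
    refine ⟨by rw [smul_eq_mul, map_mul, hb, mul_zero], fun v hv => ?_⟩
    rw [smul_eq_mul, mul_pow, mul_smul, hb' v hv, smul_zero]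

theorem mem_Jq {P : Submodule R V} {k : ℕ} {j : R} :
    j ∈ T.Jq P k ↔ T.aug j = 0 ∧ ∀ v ∈ P, j ^ p ^ k • v = 0 := Iff.rfl

theorem Jq_mono {P : Submodule R V} {k k' : ℕ} (h : k ≤ k') : T.Jq P k ≤ T.Jq P k' := by
  rintro j ⟨h1, h2⟩
  refine ⟨h1, fun v hv => ?_⟩
  obtain ⟨d, rfl⟩ := Nat.exists_eq_add_of_le h
  rw [pow_add, pow_mul]
  have e : (j ^ p ^ k) ^ p ^ d = (j ^ p ^ k) ^ (p ^ d - 1) * j ^ p ^ k := by
    rw [← pow_succ, Nat.sub_add_cancel (Nat.one_le_pow _ _ (Fact.out : p.Prime).pos)]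
  rw [e, mul_smul, h2 v hv, smul_zero]

theorem Jq_le_J (P : Submodule R V) (k : ℕ) : T.Jq P k ≤ T.A.J := fun _ hj =>
  T.A.mem_J.2 hj.1

theorem exists_Jq {P : Submodule R V} (hP : P.FG) {j : R} (hj : T.aug j = 0) :
    ∃ k, j ∈ T.Jq P k := by
  obtain ⟨S, rfl⟩ := hP
  choose n hn using fun v : V => T.toTrR.nil hj v
  refine ⟨S.sup n, hj, fun v hv => ?_⟩
  have h1 : ∀ v ∈ S, j ^ p ^ (S.sup n) • v = 0 := by
    intro v hv
    have h2 : n v ≤ p ^ (S.sup n) :=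
      (Finset.le_sup hv).trans (Nat.lt_pow_self (Fact.out : p.Prime).one_lt).le
    obtain ⟨d, hd⟩ := Nat.exists_eq_add_of_le h2
    rw [hd, add_comm, pow_add, mul_smul, hn, smul_zero]
  induction hv using Submodule.span_induction with
  | mem x hx => exact h1 x hx
  | zero => rw [smul_zero]
  | add x y _ _ hx hy => rw [smul_add, hx, hy, add_zero]
  | smul a x _ hx => rw [smul_comm, hx, smul_zero]

theorem c1_act_mem {h : Q} {P : Submodule R V} (hh : T.A.tr h P = P) {v : V} (hv : v ∈ P) :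
    T.act h v ∈ P := by
  have h1 : T.A.act h v ∈ T.A.tr h P := T.A.act_mem_tr.2 hv
  rwa [hh] at h1

theorem act_mem_Jq {h : Q} {P : Submodule R V} (hh : T.A.tr h P = P) (k : ℕ) {v : V}
    (hv : v ∈ T.Jq P k • P) : T.act h v ∈ T.Jq P k • P := by
  refine Submodule.smul_induction_on hv ?_ ?_
  · intro r hr n hn
    rw [T.cj_spec]
    refine Submodule.smul_mem_smul ⟨by rw [T.aug_cj]; exact hr.1, fun w hw => ?_⟩
      (T.c1_act_mem hh hn)
    have h1 : T.act h⁻¹ w ∈ P := T.c1_act_mem (T.A.tr_inv_eq hh) hw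
    have h2 := congrArg (T.act h) (hr.2 _ h1)
    rwa [map_zero, T.cj_spec, T.cj_pow, T.act_act_inv] at h2
  · intro x y hx hy
    rw [map_add]
    exact Submodule.add_mem _ hx hy

theorem tr_Jq {h : Q} {P : Submodule R V} (hh : T.A.tr h P = P) (k : ℕ) :
    T.A.tr h (T.Jq P k • P) = T.Jq P k • P := by
  ext v
  rw [T.A.mem_tr]
  constructor
  · intro hv
    have h1 := T.act_mem_Jq hh k hv
    have h2 : T.act h (T.A.act h⁻¹ v) = v := T.act_act_inv h v
    rwa [h2] at h1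
  · intro hv
    exact T.act_mem_Jq (T.A.tr_inv_eq hh) k hv

theorem isBlock_Jq {P : Submodule R V} (hP : T.A.IsBlock P) (k : ℕ) :
    T.A.IsBlock (T.ln ⊔ T.Jq P k • P) := by
  refine Amb.isBlock_sup ((Submodule.smul_mono_left (T.Jq_le_J P k)).trans (T.A.J_smul_le_M P))
    (fun h hh => ?_)
  exact T.tr_Jq (hP.2 h (ln_sup_le hP _ hh)) k

theorem exists_Jq_smul {P : Submodule R V} (hP : P.FG) {x : V} (hx : x ∈ T.A.J • P) :
    ∃ k, x ∈ T.Jq P k • P := by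
  refine Submodule.smul_induction_on hx ?_ ?_
  · intro r hr n hn
    obtain ⟨k, hk⟩ := T.exists_Jq hP (T.A.mem_J.1 hr)
    exact ⟨k, Submodule.smul_mem_smul hk hn⟩
  · rintro x y ⟨k, hk⟩ ⟨l, hl⟩
    refine ⟨max k l, Submodule.add_mem _ ?_ ?_⟩
    · exact Submodule.smul_mono_left (T.Jq_mono (le_max_left k l)) hk
    · exact Submodule.smul_mono_left (T.Jq_mono (le_max_right k l)) hl

theorem big_Jq {B0 : Submodule R V} (hB0 : T.MinB B0) (hJ : T.StB B0 T.A.J)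
    {P : Submodule R V} (hP : T.A.IsBlock P) (hfg : P.FG) (hle : P ≤ B0) (hbig : T.Big B0 P) :
    ∃ k, T.Big B0 (T.ln ⊔ T.Jq P k • P) := by
  obtain ⟨u, hu, hun⟩ : ∃ u : Q, T.act u T.c ∈ B0 ∧ ∀ m : ℕ, 0 < m →
      T.act (u ^ m) T.c ∉ T.ln := by
    have h1 := hB0.not_tor
    unfold Big at h1
    push Not at h1
    exact h1
  obtain ⟨m, hm, hum⟩ := hJ P hle hP hbig u hu
  obtain ⟨y, hy, z, hz, hyz⟩ := Submodule.mem_sup.1 hum
  obtain ⟨k, hk⟩ := T.exists_Jq_smul hfg hz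
  have h2 : T.act (u ^ m) T.c ∈ T.ln ⊔ T.Jq P k • P := by
    rw [← hyz]
    exact Submodule.add_mem _ (Submodule.mem_sup_left hy) (Submodule.mem_sup_right hk)
  refine ⟨k, (hB0.dich _ ((ln_sup_le hP _).trans hle) (T.isBlock_Jq hP k)).resolve_right
    fun h3 => ?_⟩
  obtain ⟨m', hm', h4⟩ := h3 (u ^ m) h2
  rw [← pow_mul] at h4
  exact hun _ (Nat.mul_pos hm hm') h4

/-- commuting with the elements of a block -/
theorem c1_parallel {P : Submodule R V} (hP : T.A.IsBlock P) (k : ℕ) {g : Q}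
    (hg : T.act g T.c ∈ T.ln ⊔ T.Jq P k • P) {x : V} (hx : x ∈ P) (hx1 : T.eps x = 1) :
    ∃ r : R, T.act g x - r • x ∈ T.Jq P k • P := by
  obtain ⟨h, rfl⟩ := T.trans x hx1
  have hh := hP.2 h hx
  obtain ⟨w, hw⟩ := T.K_act (g * h * (h * g)⁻¹) (by
    rw [map_mul, map_inv, map_mul, map_mul, mul_comm (T.κ g), mul_inv_cancel])
  have e1 : T.act g (T.act h T.c) = w • T.act h (T.act g T.c) := by
    rw [← T.act_mul, ← T.act_mul, ← hw, ← T.act_mul, inv_mul_cancel_right]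
  obtain ⟨y, hy, z, hz, hyz⟩ := Submodule.mem_sup.1 hg
  obtain ⟨s, rfl⟩ := Submodule.mem_span_singleton.1 hy
  refine ⟨w * T.cj h s, ?_⟩
  rw [e1, ← hyz, map_add, T.cj_spec, smul_add, mul_smul, add_sub_cancel_left]
  exact Submodule.smul_mem _ _ (T.act_mem_Jq hh k hz)

theorem caseI [Group.IsSolvable Q] (hr : r0 Q < ℵ₀) (hFG : T.FGB) {B0 : Submodule R V}
    (hB0 : T.MinB B0)
    (h : ∀ u : Q, T.act u T.c ∈ B0 → (∀ m, 0 < m → u ^ m ∉ T.L) →
      ∀ k : ℕ, T.StB B0 ((frob p)^[k] (T.aI u))) : False := by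
  have hJ : T.StB B0 T.A.J := hB0.StB_J hr
  obtain ⟨P0, hP0B, hP0, hP0fg, hP0big⟩ := hFG B0 hB0.blk
  obtain ⟨k0, hk0⟩ := T.big_Jq hB0 hJ hP0 hP0fg hP0B hP0big
  have hQ0 := T.isBlock_Jq hP0 k0
  obtain ⟨P1, hP1Q, hP1, hP1fg, hP1big⟩ := hFG _ hQ0
  have hP10 : P1 ≤ P0 := hP1Q.trans (ln_sup_le hP0 _)
  have hP1B : P1 ≤ B0 := hP10.trans hP0B
  have hP1big' : T.Big B0 P1 := Big.trans T hk0 hP1big
  obtain ⟨k1, hk1⟩ := T.big_Jq hB0 hJ hP1 hP1fg hP1B hP1big'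
  obtain ⟨u0, hu0, hu0n⟩ : ∃ u : Q, T.act u T.c ∈ B0 ∧ ∀ m : ℕ, 0 < m →
      T.act (u ^ m) T.c ∉ T.ln := by
    have h1 := hB0.not_tor
    unfold Big at h1
    push Not at h1
    exact h1
  obtain ⟨m, hm, hum⟩ := hk1 u0 hu0
  have huP : T.act (u0 ^ m) T.c ∈ P1 := ln_sup_le hP1 _ hum
  have hun : ∀ n, 0 < n → (u0 ^ m) ^ n ∉ T.L := by
    intro n hn hL
    refine hu0n (m * n) (Nat.mul_pos hm hn) ?_
    rw [pow_mul]
    exact T.mem_L.1 hL
  let G : Subgroup Q :=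
    { carrier := {g | T.act g T.c ∈ P1}
      mul_mem' := by
        intro a b ha hb
        change T.act (a * b) T.c ∈ P1
        rw [T.act_mul]
        exact T.c1_act_mem (hP1.2 a ha) hb
      one_mem' := by
        change T.act 1 T.c ∈ P1
        rw [T.act_one]
        exact hP1.1
      inv_mem' := by
        intro a ha
        exact T.c1_act_mem (T.A.tr_inv_eq (hP1.2 a ha)) hP1.1 }
  have hG : ∀ g : G, T.act g.1 T.c ∈ P1 := fun g => g.2
  refine TFM8.case_one (G := G) (T.act.comp G.subtype) (fun g => T.cjR g.1)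
    (fun g r v => T.cj_spec g.1 r v) (fun g r => T.cj_inv_cj g.1 r) T.eps T.aug T.eps_smul
    (fun g v => T.eps_act g.1 v) P0 P1 hP0fg hP1fg hP10 T.c hP1.1 T.eps_c
    (fun g v hv => T.c1_act_mem (hP0.2 g.1 (hP10 (hG g))) hv)
    (fun g v hv => T.c1_act_mem (hP1.2 g.1 (hG g)) hv)
    (T.Jq P0 k0) (T.Jq P1 k1) (p ^ k0) (p ^ k1) (fun j hj v hv => hj.2 v hv)
    (fun j hj v hv => hj.2 v hv)
    (fun g x hx hx1 => T.c1_parallel hP0 k0 (hP1Q (hG g)) hx hx1)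
    ⟨u0 ^ m, huP⟩ (fun x hx hx1 => T.c1_parallel hP1 k1 hum hx hx1) ?_ ?_
  · intro n
    by_contra hcon
    push Not at hcon
    -- the ideal of elements mapping `P1` into the line
    let cI : Ideal R :=
      { carrier := {a | ∀ v ∈ P1, a • v ∈ T.ln}
        add_mem' := fun ha hb v hv => by
          rw [add_smul]
          exact T.ln.add_mem (ha v hv) (hb v hv)
        zero_mem' := fun v _ => by
          rw [zero_smul]
          exact T.ln.zero_mem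
        smul_mem' := fun a b hb v hv => by
          rw [smul_eq_mul, mul_smul]
          exact T.ln.smul_mem _ (hb v hv) }
    have h1 : (frob p)^[n] (T.aI (u0 ^ m)) ≤ cI := by
      refine frob_iter_le rfl n ?_ T.charp
      rintro _ ⟨r, rfl⟩ v hv
      obtain ⟨d, hd⟩ := Nat.exists_eq_add_of_le
        (Nat.lt_pow_self (n := n) (Fact.out : p.Prime).one_lt).le
      obtain ⟨t, ht⟩ := hcon r v hv
      have ht' : (T.cj (u0 ^ m) r - r) ^ n • v = t • T.c := ht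
      rw [hd, add_comm, pow_add, mul_smul, ht', smul_smul]
      exact Submodule.smul_mem _ _ (Submodule.mem_span_singleton_self _)
    have h2 := h (u0 ^ m) (hP1B huP) hun n P1 hP1B hP1 hP1big'
    have h3 : T.ln ⊔ (frob p)^[n] (T.aI (u0 ^ m)) • P1 ≤ T.ln :=
      sup_le le_rfl (Submodule.smul_le.2 fun r hr v hv => h1 hr v hv)
    obtain ⟨m', hm', h4⟩ := h2 u0 hu0
    exact hu0n m' hm' (h3 h4)
  · intro x hx hx1
    obtain ⟨g, hg⟩ := T.trans x hx1
    exact ⟨⟨g, show T.act g T.c ∈ P1 by rw [hg]; exact hx⟩, hg⟩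

end TrG

end Pool.TF90
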