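import Mathlib
import Pool.Agent.TFM8.CaseII

/-!
# Step 6: the algebra of Case II, in the form used in `C2`
-/

set_option autoImplicit false

namespace Pool.TF90

theorem step6 {R P : Type} [CommRing R] [AddCommGroup P] [Module R P] (p : ℕ) [hpp : Fact p.Prime]
    (hp : (p : R) = 0) (N : Submodule R P) (hfg : (⊤ : Submodule R P).FG) (I a : Ideal R) (n : ℕ)
    (g : Fin (n + 1) → P ≃+ P) (χ : Fin (n + 1) → R ≃+* R)
    (hg : ∀ i r v, g i (r • v) = χ i r • g i v)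
    (hχI : ∀ i, ∀ r, r ∈ I ↔ χ i r ∈ I)
    (E1 : Set P) (hne : E1.Nonempty) (hE : ∀ x ∈ E1, ∀ f ∈ I, ∀ v : P, x + f • v ∈ E1)
    (hE2 : ∀ x ∈ E1, ∀ i, g i x ∈ N ⊔ I • (⊤ : Submodule R P))
    (i0 : Fin (n + 1))
    (hrel : ∀ x ∈ E1, ∃ r : Fin (n + 1) → R,
      g i0 x = ∑ i ∈ Finset.univ.erase i0, r i • g i x)
    (hfrob : ∀ f ∈ I, ∀ v : P, f ^ p • v ∈ N)
    (hdiff : ∀ i j, i ≠ j → a ≤ Ideal.span {b : R | ∃ s : R, χ i s - χ j s = b}) :
    ∃ k l m : ℕ, (a ^ k * I ^ l) ^ m • (⊤ : Submodule R P) ≤ N := by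
  classical
  obtain ⟨x0, hx0⟩ := hne
  haveI : Module.Finite R P := ⟨hfg⟩
  have hmap : Submodule.map N.mkQ (⊤ : Submodule R P) = ⊤ := by
    rw [Submodule.map_top, Submodule.range_mkQ]
  obtain ⟨m, hm⟩ := TFM8.case_two (M := P ⧸ N) hpp.out hp N.mkQ N.mkQ_surjective
    (fun k => (g k).toAddMonoidHom) (fun k => (g k).surjective)
    (fun k => (χ k).toRingHom) (fun k r v => hg k r v) i0 a I
    (fun k k' hkk' => by
      refine (hdiff k k' hkk').trans (Ideal.span_mono ?_)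
      rintro _ ⟨s, rfl⟩
      exact ⟨s, rfl⟩)
    (fun k f hf => ⟨(χ k).symm f, by
      rw [hχI k, RingEquiv.apply_symm_apply]; exact hf, (χ k).apply_symm_apply f⟩)
    (fun f hf v => by
      obtain ⟨v, rfl⟩ := N.mkQ_surjective v
      rw [← map_smul, Submodule.mkQ_apply, Submodule.Quotient.mk_eq_zero]
      exact hfrob f hf v)
    E1 x0 hx0 hE
    (fun x hx k => by
      have h1 := Submodule.mem_map_of_mem (f := N.mkQ) (hE2 x hx k)
      rw [Submodule.map_sup, Submodule.map_smul'', hmap, Submodule.mkQ_map_self, bot_sup_eq] at h1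
      exact h1)
    (fun x hx => by
      obtain ⟨r, hr⟩ := hrel x hx
      change N.mkQ (g i0 x) ∈ _
      rw [hr, map_sum]
      refine Submodule.sum_mem _ fun i hi => ?_
      rw [map_smul]
      exact Submodule.smul_mem _ _ (Submodule.subset_span
        ⟨⟨i, (Finset.mem_erase.1 hi).1⟩, rfl⟩))
  refine ⟨1, 1, m, ?_⟩
  intro v hv
  have h1 := Submodule.mem_map_of_mem (f := N.mkQ) hv
  rw [Submodule.map_smul'', hmap, pow_one, pow_one, hm, Submodule.mem_bot, Submodule.mkQ_apply,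
    Submodule.Quotient.mk_eq_zero] at h1
  exact h1

end Pool.TF90
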