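import Mathlib
import Pool.Agent.TF90.Bk2
import Pool.Agent.TF90.S6

/-!
# Case II: Frobenius ideals of stably big ideals are stably big
-/

set_option autoImplicit false

namespace Pool.TF90

open Cardinal Pool.TFR Pool.TFM Pool.TFN

namespace TrG

variable {p : ℕ} [Fact p.Prime] {Q Γ R V : Type} [Group Q] [CommGroup Γ] [CommRing R]
  [AddCommGroup V] [Module R V] (T : TrG p Q Γ R V)

/-- conjugation as a ring automorphism -/
noncomputable def cjE (h : Q) : R ≃+* R where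
  toFun := T.cj h
  invFun := T.cj h⁻¹
  left_inv := fun r => by rw [← T.cj_mul, inv_mul_cancel, T.cj_one]
  right_inv := fun r => by rw [← T.cj_mul, mul_inv_cancel, T.cj_one]
  map_mul' := T.cj_mul_right h
  map_add' := T.cj_add_right h

omit [Fact p.Prime] in
theorem cjE_apply (h : Q) (r : R) : T.cjE h r = T.cj h r := rfl

/-- the action on an invariant submodule -/
noncomputable def rst {P : Submodule R V} (h : Q) (hP : T.A.tr h P = P) : ↥P ≃+ ↥P where
  toFun := fun v => ⟨T.act h v, by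
    have h1 : T.A.act h (v : V) ∈ T.A.tr h P := T.A.act_mem_tr.2 v.2
    rw [hP] at h1
    exact h1⟩
  invFun := fun v => ⟨T.act h⁻¹ v, by
    have h1 : (v : V) ∈ T.A.tr h P := by rw [hP]; exact v.2
    exact h1⟩
  left_inv := fun v => Subtype.ext (T.act_inv_act h v)
  right_inv := fun v => Subtype.ext (T.act_act_inv h v)
  map_add' := fun v w => Subtype.ext (map_add (T.act h) (v : V) (w : V))

theorem coe_rst {P : Submodule R V} (h : Q) (hP : T.A.tr h P = P) (v : ↥P) :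
    ((T.rst h hP v : ↥P) : V) = T.act h v := rfl

theorem pow_stab {P : Submodule R V} {h : Q} (hP : T.A.tr h P = P) (k : ℕ) :
    T.A.tr (h ^ k) P = P := by
  induction k with
  | zero => rw [pow_zero, T.A.tr_one]
  | succ k ih => rw [pow_succ, T.A.tr_mul, hP, ih]

theorem aI_fact_le (u : Q) (n : ℕ) {i j : ℕ} (hij : i < j) (hj : j ≤ n) :
    T.aI (u ^ n.factorial) ≤
      Ideal.span {b : R | ∃ s : R, T.cj (u ^ j) s - T.cj (u ^ i) s = b} := by
  have h1 : T.aI (u ^ n.factorial) ≤ T.aI (u ^ (j - i)) := by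
    obtain ⟨q, hq⟩ := Nat.dvd_factorial (m := j - i) (n := n) (by omega) (by omega)
    rw [hq, pow_mul]
    exact T.aI_pow_le _ q
  refine h1.trans ?_
  unfold aI
  rw [Ideal.span_le]
  rintro _ ⟨s, rfl⟩
  refine Ideal.subset_span ⟨T.cj (u ^ i)⁻¹ s, ?_⟩
  have e : u ^ j * (u ^ i)⁻¹ = u ^ (j - i) := by
    rw [pow_sub u hij.le]
  rw [← T.cj_mul, ← T.cj_mul, mul_inv_cancel, T.cj_one, e]

theorem aI_fact_le' (u : Q) (n : ℕ) {i j : ℕ} (hi : i ≤ n) (hj : j ≤ n) (hij : i ≠ j) :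
    T.aI (u ^ n.factorial) ≤
      Ideal.span {b : R | ∃ s : R, T.cj (u ^ i) s - T.cj (u ^ j) s = b} := by
  rcases lt_or_gt_of_ne hij with h | h
  · refine (T.aI_fact_le u n h hj).trans ?_
    rw [Ideal.span_le]
    rintro _ ⟨s, rfl⟩
    have h1 : T.cj (u ^ i) s - T.cj (u ^ j) s ∈
        Ideal.span {b : R | ∃ s : R, T.cj (u ^ i) s - T.cj (u ^ j) s = b} :=
      Ideal.subset_span ⟨s, rfl⟩
    have h2 := Ideal.neg_mem_iff _ |>.2 h1
    rwa [neg_sub] at h2
  · exact T.aI_fact_le u n h hi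

theorem caseII [Group.IsSolvable Q] (hr : r0 Q < ℵ₀) (hFG : T.FGB) {B0 : Submodule R V}
    (hB0 : T.MinB B0) {I : Ideal R} (hI : T.Inv I) (hIJ : I ≤ T.A.J) (hst : T.StB B0 I) :
    T.StB B0 (frob p I) := by
  classical
  intro B hBB0 hB hbig
  obtain ⟨P, hPB, hP, hPfg, hbigP⟩ := hFG B hB
  have hbP : T.Big B0 P := TrG.Big.trans T hbig hbigP
  have hPB0 : P ≤ B0 := hPB.trans hBB0
  have hP1 : T.A.IsBlock (T.ln ⊔ I • P) := T.isBlock_inv hP hI hIJ
  have hb1 : T.Big B0 (T.ln ⊔ I • P) := hst P hPB0 hP hbP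
  have hlnP : T.ln ≤ P := by
    rw [Submodule.span_singleton_le_iff_mem]; exact hP.1
  have hP1P : T.ln ⊔ I • P ≤ P := sup_le hlnP Submodule.smul_le_right
  -- a non-torsion element moving the base point into the smaller block
  have hnt := hB0.not_tor
  unfold Big at hnt
  push Not at hnt
  obtain ⟨h, hh, hh'⟩ := hnt
  obtain ⟨m, hm, hmP⟩ := hb1 h hh
  obtain ⟨u, hu⟩ : ∃ u : Q, u = h ^ m := ⟨_, rfl⟩
  rw [← hu] at hmP
  have huL : ∀ k, 0 < k → u ^ k ∉ T.L := by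
    intro k hk hk'
    rw [hu, ← pow_mul] at hk'
    exact hh' _ (Nat.mul_pos hm hk) hk'
  have huP1 : T.A.tr u (T.ln ⊔ I • P) = T.ln ⊔ I • P := hP1.2 u hmP
  have huP : T.A.tr u P = P := hP.2 u (hP1P hmP)
  have huB0 : T.A.tr u B0 = B0 := hB0.blk.2 u (hPB0 (hP1P hmP))
  -- the relation
  obtain ⟨n, a, ⟨i0, hi0, ha0⟩, hrel⟩ := T.exists_rel hr u
  -- the data for step 6
  obtain ⟨k, l, m', hkey⟩ := step6 (R := R) (P := ↥P) p T.charp
    ((T.ln ⊔ frob p I • P).comap P.subtype)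
    ((Submodule.fg_top P).2 hPfg) I (T.aI (u ^ n.factorial)) n
    (fun i => T.rst (u ^ (i : ℕ)) (T.pow_stab huP i))
    (fun i => T.cjE (u ^ (i : ℕ)))
    (fun i r v => Subtype.ext (T.cj_spec _ _ _))
    (fun i r => ⟨fun hr => hI _ r hr, fun hr => by
      have h1 := hI (u ^ (i : ℕ))⁻¹ _ hr
      rwa [T.cjE_apply, ← T.cj_mul, inv_mul_cancel, T.cj_one] at h1⟩)
    {x : ↥P | T.eps (x : V) = 1 ∧ (x : V) ∈ T.ln ⊔ I • P}
    ⟨⟨T.c, hP.1⟩, T.eps_c, hP1.1⟩
    (fun x hx f hf v => by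
      refine ⟨?_, ?_⟩
      · change T.eps ((x : V) + f • (v : V)) = 1
        have h1 : T.aug f = 0 := T.A.mem_J.1 (hIJ hf)
        rw [map_add, hx.1, T.eps_smul, h1, zero_mul, add_zero]
      · change (x : V) + f • (v : V) ∈ _
        exact Submodule.add_mem _ hx.2
          (Submodule.mem_sup_right (Submodule.smul_mem_smul hf v.2)))
    (fun x hx i => by
      have h1 : T.act (u ^ (i : ℕ)) (x : V) ∈ T.ln ⊔ I • P := by
        have h2 : T.A.act (u ^ (i : ℕ)) (x : V) ∈ T.A.tr (u ^ (i : ℕ)) (T.ln ⊔ I • P) :=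
          T.A.act_mem_tr.2 hx.2
        rw [T.pow_stab huP1 i] at h2
        exact h2
      obtain ⟨y, hy, z, hz, hyz⟩ := Submodule.mem_sup.1 h1
      have hzP : ∃ z' ∈ I • (⊤ : Submodule R ↥P), (z' : V) = z := by
        refine Submodule.smul_induction_on hz ?_ ?_
        · intro r hr w hw
          exact ⟨r • ⟨w, hw⟩, Submodule.smul_mem_smul hr Submodule.mem_top, rfl⟩
        · rintro _ _ ⟨z1, h1, rfl⟩ ⟨z2, h2, rfl⟩
          exact ⟨z1 + z2, Submodule.add_mem _ h1 h2, rfl⟩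
      obtain ⟨z', hz', rfl⟩ := hzP
      refine Submodule.mem_sup.2 ⟨⟨y, hlnP hy⟩, ?_, z', hz', Subtype.ext hyz⟩
      exact Submodule.mem_sup_left (S := T.ln) hy)
    ⟨i0, Nat.lt_succ_of_le hi0⟩
    (fun x hx => by
      obtain ⟨r, hra, hr0⟩ := hrel (x : V) hx.1
      have hun : IsUnit (r i0) := T.A.isUnit_of_aug (by
        change T.aug (r i0) ≠ 0
        rw [hra]; exact ha0)
      obtain ⟨w, hw⟩ := hun
      refine ⟨fun i => -((w⁻¹ : Rˣ) : R) * r i, Subtype.ext ?_⟩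
      rw [Finset.sum_range (fun i => r i • T.act (u ^ i) (x : V)),
        ← Finset.add_sum_erase Finset.univ _
          (Finset.mem_univ (⟨i0, Nat.lt_succ_of_le hi0⟩ : Fin (n + 1)))] at hr0
      have h1 : r i0 • T.act (u ^ i0) (x : V) = -∑ i ∈ Finset.univ.erase
          (⟨i0, Nat.lt_succ_of_le hi0⟩ : Fin (n + 1)),
          r (i : ℕ) • T.act (u ^ (i : ℕ)) (x : V) := eq_neg_of_add_eq_zero_left hr0
      have h2 : T.act (u ^ i0) (x : V) = ((w⁻¹ : Rˣ) : R) • (r i0 • T.act (u ^ i0) (x : V)) := by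
        rw [← hw, smul_smul, Units.inv_mul, one_smul]
      change T.act (u ^ i0) (x : V) = _
      rw [h2, h1, smul_neg, Finset.smul_sum, AddSubmonoidClass.coe_finsetSum,
        ← Finset.sum_neg_distrib]
      refine Finset.sum_congr rfl (fun i _ => ?_)
      change _ = (-((w⁻¹ : Rˣ) : R) * r (i : ℕ)) • T.act (u ^ (i : ℕ)) (x : V)
      rw [neg_mul, neg_smul, mul_smul])
    (fun f hf v => by
      change f ^ p • (v : V) ∈ T.ln ⊔ frob p I • P
      exact Submodule.mem_sup_right (Submodule.smul_mem_smul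
        (Ideal.subset_span ⟨f, hf, rfl⟩) v.2))
    (fun i j hij => T.aI_fact_le' u n (Nat.le_of_lt_succ i.2) (Nat.le_of_lt_succ j.2)
      (fun h => hij (Fin.ext h)))
  -- the conclusion
  have hfac : 0 < n.factorial := n.factorial_pos
  have hufB0 : T.act (u ^ n.factorial) T.c ∈ B0 := by
    have h1 : T.A.act (u ^ n.factorial) T.c ∈ T.A.tr (u ^ n.factorial) B0 :=
      T.A.act_mem_tr.2 hB0.blk.1
    rw [T.pow_stab huB0] at h1
    exact h1
  have hsta : T.StB B0 (T.aI (u ^ n.factorial)) := hB0.StB_aI hr hufB0 (fun k hk => by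
    rw [← pow_mul]
    exact huL _ (Nat.mul_pos hfac hk))
  have hInva := T.inv_aI (u ^ n.factorial)
  have haJ := T.aI_le_J (u ^ n.factorial)
  have hst2 : T.StB B0 ((T.aI (u ^ n.factorial) ^ (k + 1) * I ^ (l + 1)) ^ (m' + 1)) := by
    have hIl : I ^ (l + 1) ≤ T.A.J := (Ideal.pow_le_self (Nat.succ_ne_zero l)).trans hIJ
    have h1 : T.StB B0 (T.aI (u ^ n.factorial) ^ (k + 1) * I ^ (l + 1)) :=
      StB.mul (T.inv_pow hI _) hIl (StB.pow hInva haJ hsta (Nat.succ_pos k))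
        (StB.pow hI hIJ hst (Nat.succ_pos l))
    exact StB.pow (T.inv_mul (T.inv_pow hInva _) (T.inv_pow hI _))
      (Ideal.mul_le_left.trans ((Ideal.pow_le_self (Nat.succ_ne_zero k)).trans haJ)) h1 (Nat.succ_pos m')
  have hle : (T.aI (u ^ n.factorial) ^ (k + 1) * I ^ (l + 1)) ^ (m' + 1) • P ≤
      T.ln ⊔ frob p I • B := by
    have h1 : (T.aI (u ^ n.factorial) ^ (k + 1) * I ^ (l + 1)) ^ (m' + 1) ≤
        (T.aI (u ^ n.factorial) ^ k * I ^ l) ^ m' :=
      (Ideal.pow_le_pow_right (Nat.le_succ m')).trans (Ideal.pow_right_mono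
        (Ideal.mul_mono (Ideal.pow_le_pow_right (Nat.le_succ k))
          (Ideal.pow_le_pow_right (Nat.le_succ l))) m')
    rw [Submodule.smul_le]
    intro r hr v hv
    have h2 : r • (⟨v, hv⟩ : ↥P) ∈ (T.ln ⊔ frob p I • P).comap P.subtype :=
      hkey (Submodule.smul_mem_smul (h1 hr) Submodule.mem_top)
    have h3 : r • v ∈ T.ln ⊔ frob p I • P := h2
    exact sup_le_sup_left (Submodule.smul_mono le_rfl hPB) _ h3
  exact TrG.Big.mono T (hst2 P hPB0 hP hbP) (sup_le le_sup_left hle)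

end TrG

end Pool.TF90
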