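import Mathlib
import Pool.Agent.TF90.Defs

/-!
# Real valued flags: first properties
-/

set_option autoImplicit false

namespace Pool.TF90

open Cardinal Pool.TFR Pool.TFM Pool.TFN

namespace TrG

variable {p : ℕ} [Fact p.Prime] {Q Γ R V : Type} [Group Q] [CommGroup Γ] [CommRing R]
  [AddCommGroup V] [Module R V] {T : TrG p Q Γ R V}

namespace Flag

variable {B : Submodule R V} (F : T.Flag B)

include F in
theorem tr_eq {g : Q} (hg : T.act g T.c ∈ B) : T.A.tr g B = B := F.hB.2 g hg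

include F in
theorem act_mem_B {g : Q} (hg : T.act g T.c ∈ B) {z : V} (hz : z ∈ B) : T.act g z ∈ B := by
  have h1 := F.tr_eq hg
  have h2 : T.A.act g z ∈ T.A.tr g B := T.A.act_mem_tr.2 hz
  rw [h1] at h2
  exact h2

include F in
theorem c_mem : T.c ∈ B := F.hB.1

include F in
theorem inv_mem_B {g : Q} (hg : T.act g T.c ∈ B) : T.act g⁻¹ T.c ∈ B := by
  have h1 := T.A.tr_inv_eq (F.tr_eq hg)
  have h2 : T.A.act g⁻¹ T.c ∈ T.A.tr g⁻¹ B := T.A.act_mem_tr.2 F.c_mem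
  rw [h1] at h2
  exact h2

include F in
theorem mul_mem_B {g h : Q} (hg : T.act g T.c ∈ B) (hh : T.act h T.c ∈ B) :
    T.act (g * h) T.c ∈ B := by
  rw [T.act_mul]
  exact F.act_mem_B hg hh

include F in
theorem one_mem_B : T.act (1 : Q) T.c ∈ B := by
  rw [T.act_one]; exact F.c_mem

include F in
theorem pow_mem_B {g : Q} (hg : T.act g T.c ∈ B) (n : ℕ) : T.act (g ^ n) T.c ∈ B := by
  induction n with
  | zero => rw [pow_zero]; exact F.one_mem_B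
  | succ n ih => rw [pow_succ]; exact F.mul_mem_B ih hg

theorem v_one : F.v 1 = 0 := F.v_L 1 T.L.one_mem

theorem v_inv {g : Q} (hg : T.act g T.c ∈ B) : F.v g⁻¹ = -F.v g := by
  have h1 := F.v_mul g g⁻¹ hg (F.inv_mem_B hg)
  rw [mul_inv_cancel, F.v_one] at h1
  linarith

theorem v_pow {g : Q} (hg : T.act g T.c ∈ B) (n : ℕ) : F.v (g ^ n) = n * F.v g := by
  induction n with
  | zero => rw [pow_zero, F.v_one, Nat.cast_zero, zero_mul]
  | succ n ih =>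
    rw [pow_succ, F.v_mul _ _ (F.pow_mem_B hg n) hg, ih]
    push_cast
    ring

theorem Vge_anti {a b : ℝ} (h : a ≤ b) : F.Vge b ≤ F.Vge a := by
  refine Submodule.span_mono ?_
  rintro x ⟨g, hg, hb, rfl⟩
  exact ⟨g, hg, h.trans hb, rfl⟩

theorem Vge_le_B (a : ℝ) : F.Vge a ≤ B := by
  refine Submodule.span_le.2 ?_
  rintro x ⟨g, hg, -, rfl⟩
  exact hg

theorem act_mem_Vge {a : ℝ} {g : Q} (hg : T.act g T.c ∈ B) {z : V} (hz : z ∈ F.Vge a) :
    T.act g z ∈ F.Vge (a + F.v g) := by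
  have h1 : F.Vge a ≤ T.A.tr g⁻¹ (F.Vge (a + F.v g)) := by
    refine Submodule.span_le.2 ?_
    rintro x ⟨h, hh, ha, rfl⟩
    change T.A.act g⁻¹⁻¹ (T.act h T.c) ∈ F.Vge (a + F.v g)
    rw [inv_inv]
    change T.act g (T.act h T.c) ∈ F.Vge (a + F.v g)
    rw [← T.act_mul]
    refine Submodule.subset_span ⟨g * h, F.mul_mem_B hg hh, ?_, rfl⟩
    rw [F.v_mul _ _ hg hh]
    linarith
  have h2 := h1 hz
  change T.A.act g⁻¹⁻¹ z ∈ F.Vge (a + F.v g) at h2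
  rw [inv_inv] at h2
  exact h2

theorem act_mem {a : ℝ} {g : Q} (hg : T.act g T.c ∈ B) {z : V} :
    T.act g z ∈ F.Vge (a + F.v g) ↔ z ∈ F.Vge a := by
  refine ⟨fun h => ?_, F.act_mem_Vge hg⟩
  have h1 := F.act_mem_Vge (F.inv_mem_B hg) h
  rwa [F.v_inv hg, T.act_inv_act, add_neg_cancel_right] at h1

theorem mem_Vge_iff {a : ℝ} {h : Q} (hh : T.act h T.c ∈ B) :
    T.act h T.c ∈ F.Vge a ↔ a ≤ F.v h := by
  refine ⟨fun h1 => ?_, fun h1 => Submodule.subset_span ⟨h, hh, h1, rfl⟩⟩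
  by_contra hcon
  push Not at hcon
  refine F.no ?_
  have h2 := F.act_mem_Vge (F.inv_mem_B hh) h1
  rw [F.v_inv hh, T.act_inv_act] at h2
  refine Submodule.span_mono ?_ h2
  rintro x ⟨g, hg, hb, rfl⟩
  exact ⟨g, hg, by linarith, rfl⟩

theorem mem_Z {z : V} : z ∈ F.Z ↔ ∀ a, z ∈ F.Vge a := Submodule.mem_iInf _

theorem Z_le_Vge (a : ℝ) : F.Z ≤ F.Vge a := iInf_le _ a

theorem Z_le_B : F.Z ≤ B := (F.Z_le_Vge 0).trans (F.Vge_le_B 0)

theorem act_mem_Z {g : Q} (hg : T.act g T.c ∈ B) {z : V} : T.act g z ∈ F.Z ↔ z ∈ F.Z := by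
  rw [F.mem_Z, F.mem_Z]
  constructor
  · intro h a
    exact (F.act_mem hg).1 (h _)
  · intro h a
    have h1 := (F.act_mem hg).2 (h (a - F.v g))
    rwa [sub_add_cancel] at h1

theorem exists_far (a : ℝ) : ∃ h, T.act h T.c ∈ B ∧ a ≤ F.v h := by
  obtain ⟨h, hh, hv⟩ := F.pos
  obtain ⟨n, hn⟩ := exists_nat_ge (a / F.v h)
  refine ⟨h ^ n, F.pow_mem_B hh n, ?_⟩
  rw [F.v_pow hh, ← div_le_iff₀ hv]
  exact hn

include F in
theorem exists_act {z : V} (hz : z ∈ B) (h1 : T.eps z = 1) :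
    ∃ h, T.act h T.c ∈ B ∧ T.act h T.c = z := by
  obtain ⟨h, hh⟩ := T.trans z h1
  exact ⟨h, by rw [hh]; exact hz, hh⟩

theorem exists_low {z : V} (hz : z ∈ B) : ∃ a, z ∈ F.Vge a := by
  obtain ⟨n, hn⟩ := T.A.exists_shift z T.c T.eps_c
  obtain ⟨h, hh, e⟩ := F.exists_act (B.add_mem hz (B.smul_of_tower_mem n F.c_mem)) hn
  have hc : T.c ∈ F.Vge 0 := by
    have := (F.mem_Vge_iff F.one_mem_B (a := 0)).2 (by rw [F.v_one])
    rwa [T.act_one] at this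
  refine ⟨min (F.v h) 0, ?_⟩
  have e2 : z = T.act h T.c - n • T.c := by
    rw [e]; exact (add_sub_cancel_right _ _).symm
  rw [e2]
  exact (F.Vge _).sub_mem (F.Vge_anti (min_le_left _ _) ((F.mem_Vge_iff hh).2 le_rfl))
    ((F.Vge _).smul_of_tower_mem n (F.Vge_anti (min_le_right _ _) hc))

theorem eps_Z {z : V} (hz : z ∈ F.Z) : T.eps z = 0 := by
  by_contra hne
  obtain ⟨n, hn⟩ := ZMod.natCast_zmod_surjective (T.eps z)⁻¹
  have h1 : T.eps (n • z) = 1 := by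
    rw [map_nsmul, nsmul_eq_mul, hn, inv_mul_cancel₀ hne]
  have h2 : n • z ∈ F.Z := F.Z.smul_of_tower_mem n hz
  obtain ⟨h, hh, e⟩ := F.exists_act (F.Z_le_B h2) h1
  have h3 := F.mem_Z.1 h2 (F.v h + 1)
  rw [← e, F.mem_Vge_iff hh] at h3
  linarith

theorem exists_lev {z : V} (hz : z ∈ B) (hzZ : z ∉ F.Z) :
    ∃ a, z ∈ F.Vge a ∧ ∀ b, a < b → z ∉ F.Vge b := by
  obtain ⟨b0, hb0⟩ : ∃ b, z ∉ F.Vge b := by
    by_contra hcon
    push Not at hcon
    exact hzZ (F.mem_Z.2 hcon)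
  obtain ⟨h0, hh0, hv0⟩ := F.exists_far b0
  obtain ⟨n, hn⟩ := T.A.exists_shift z (T.act h0 T.c) ((T.eps_act _ _).trans T.eps_c)
  obtain ⟨h, hh, e⟩ := F.exists_act (B.add_mem hz (B.smul_of_tower_mem n hh0)) hn
  have hf : n • T.act h0 T.c ∈ F.Vge b0 :=
    (F.Vge _).smul_of_tower_mem n ((F.mem_Vge_iff hh0).2 hv0)
  have e2 : z = T.act h T.c - n • T.act h0 T.c := by
    rw [e]; exact (add_sub_cancel_right _ _).symm
  have h1 : F.v h < b0 := by
    by_contra hcon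
    refine hb0 ?_
    rw [e2]
    exact (F.Vge _).sub_mem ((F.mem_Vge_iff hh).2 (not_lt.1 hcon)) hf
  refine ⟨F.v h, ?_, fun b hb hzb => ?_⟩
  · rw [e2]
    exact (F.Vge _).sub_mem ((F.mem_Vge_iff hh).2 le_rfl) (F.Vge_anti h1.le hf)
  · have h2 : T.act h T.c ∈ F.Vge (min b b0) := by
      rw [e]
      exact (F.Vge _).add_mem (F.Vge_anti (min_le_left _ _) hzb)
        (F.Vge_anti (min_le_right _ _) hf)
    rw [F.mem_Vge_iff hh] at h2
    exact absurd h2 (not_le.2 (lt_min hb h1))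

end Flag

end TrG

end Pool.TF90
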