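import Mathlib
import Pool.Agent.TF90.F0

/-!
# Shrinking elements and nilpotent elements
-/

set_option autoImplicit false

namespace Pool.TF90

open Cardinal Pool.TFR Pool.TFM Pool.TFN

namespace TrG

variable {p : ℕ} [Fact p.Prime] {Q Γ R V : Type} [Group Q] [CommGroup Γ] [CommRing R]
  [AddCommGroup V] [Module R V] {T : TrG p Q Γ R V}

variable (T) in
omit [Fact p.Prime] in
theorem act_swap (g h : Q) :
    ∃ u : R, ∀ v : V, T.act g (T.act h v) = u • T.act h (T.act g v) := by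
  obtain ⟨u, hu⟩ := T.K_act (g * h * (h * g)⁻¹) (by
    rw [map_mul, map_inv, map_mul, map_mul, mul_comm (T.κ h), mul_inv_cancel])
  refine ⟨u, fun v => ?_⟩
  rw [← T.act_mul, ← T.act_mul, ← hu, ← T.act_mul, inv_mul_cancel_right]

namespace Flag

variable {B : Submodule R V} (F : T.Flag B)

theorem shrink {k : Q} (hk : T.act k T.c ∈ B) {s : R} (hs : T.aug s = 0)
    (hsx : s • T.act k T.c ∉ F.Z) :
    ∃ b : ℝ, F.v k ≤ b ∧ ∀ d : ℝ, b ≤ d → ∃ (g : Q) (w : V), T.act g T.c ∈ B ∧ 0 ≤ F.v g ∧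
      F.v g ≤ b - F.v k ∧ w ∈ F.Vge d ∧ T.eps w = 1 ∧
      T.act g (T.act k T.c) = s • T.act k T.c + w ∧
      ∀ a : ℝ, ∀ z ∈ F.Vge a, ∃ ρ : R, T.act g z - ρ • z ∈ F.Vge (a + d - F.v k) := by
  obtain ⟨b0, hb0⟩ : ∃ b, s • T.act k T.c ∉ F.Vge b := by
    by_contra hcon
    push Not at hcon
    exact hsx (F.mem_Z.2 hcon)
  have hb : s • T.act k T.c ∉ F.Vge (max b0 (F.v k)) := fun h =>
    hb0 (F.Vge_anti (le_max_left _ _) h)
  refine ⟨max b0 (F.v k), le_max_right _ _, fun d hd => ?_⟩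
  set b : ℝ := max b0 (F.v k) with hbdef
  have hkb : F.v k ≤ b := le_max_right _ _
  obtain ⟨h0, hh0, hv0⟩ := F.exists_far d
  set w : V := T.act h0 T.c with hw
  have hwd : w ∈ F.Vge d := F.Vge_anti hv0 ((F.mem_Vge_iff hh0).2 le_rfl)
  have hw1 : T.eps w = 1 := by rw [hw, T.eps_act, T.eps_c]
  have hxk : T.act k T.c ∈ F.Vge (F.v k) := (F.mem_Vge_iff hk).2 le_rfl
  have hy1 : T.eps (s • T.act k T.c + w) = 1 := by
    rw [map_add, T.eps_smul, hs, zero_mul, zero_add, hw1]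
  obtain ⟨g', hg'⟩ := T.trans _ hy1
  have hg'B : T.act g' T.c ∈ B := by
    rw [hg']
    exact B.add_mem (B.smul_mem _ hk) (F.Vge_le_B _ hwd)
  have hki := F.inv_mem_B hk
  have hgB : T.act (g' * k⁻¹) T.c ∈ B := F.mul_mem_B hg'B hki
  have hvg : F.v (g' * k⁻¹) = F.v g' - F.v k := by
    rw [F.v_mul _ _ hg'B hki, F.v_inv hk]; ring
  have hgx : T.act (g' * k⁻¹) (T.act k T.c) = s • T.act k T.c + w := by
    rw [← T.act_mul, inv_mul_cancel_right, hg']
  have h1 : F.v k ≤ F.v g' := by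
    rw [← F.mem_Vge_iff hg'B, hg']
    exact (F.Vge _).add_mem ((F.Vge _).smul_mem _ hxk) (F.Vge_anti (hkb.trans hd) hwd)
  have h2 : F.v g' ≤ b := by
    by_contra hcon
    have h3 : T.act g' T.c ∈ F.Vge b := (F.mem_Vge_iff hg'B).2 (not_le.1 hcon).le
    rw [hg'] at h3
    have h4 := (F.Vge _).sub_mem h3 (F.Vge_anti hd hwd)
    rw [add_sub_cancel_right] at h4
    exact hb h4
  have hvg0 : 0 ≤ F.v (g' * k⁻¹) := by rw [hvg]; linarith
  refine ⟨g' * k⁻¹, w, hgB, hvg0, by rw [hvg]; linarith, hwd, hw1, hgx, ?_⟩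
  set g : Q := g' * k⁻¹ with hg
  -- first elements of augmentation one
  have key : ∀ a : ℝ, ∀ z ∈ F.Vge a, T.eps z = 1 →
      ∃ ρ : R, T.act g z - ρ • z ∈ F.Vge (a + d - F.v k) := by
    intro a z hz hz1
    obtain ⟨om, hom⟩ := T.trans z hz1
    have homB : T.act om T.c ∈ B := by rw [hom]; exact F.Vge_le_B _ hz
    have hav : a ≤ F.v om := by rw [← F.mem_Vge_iff homB, hom]; exact hz
    set h : Q := om * k⁻¹ with hh
    have hhB : T.act h T.c ∈ B := F.mul_mem_B homB hki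
    have hvh : F.v h = F.v om - F.v k := by
      rw [hh, F.v_mul _ _ homB hki, F.v_inv hk]; ring
    have hzx : T.act h (T.act k T.c) = z := by
      rw [← T.act_mul, hh, inv_mul_cancel_right, hom]
    obtain ⟨u, hu⟩ := T.act_swap g h
    have e1 : T.act g z = u • (T.cj h s • z + T.act h w) := by
      rw [← hzx, ← T.cj_spec, ← map_add, ← hgx, hu]
    refine ⟨u * T.cj h s, ?_⟩
    have e2 : T.act g z - (u * T.cj h s) • z = u • T.act h w := by
      rw [e1, smul_add, mul_smul, add_sub_cancel_left]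
    rw [e2]
    refine (F.Vge _).smul_mem _ (F.Vge_anti ?_ ((F.act_mem hhB).2 hwd))
    rw [hvh]; linarith
  intro a z hz
  obtain ⟨h1', hh1, hv1⟩ := F.exists_far (max a (a + d - F.v k))
  set c' : V := T.act h1' T.c with hc'
  have hc'v : c' ∈ F.Vge (max a (a + d - F.v k)) :=
    F.Vge_anti hv1 ((F.mem_Vge_iff hh1).2 le_rfl)
  obtain ⟨n, hn⟩ := T.A.exists_shift z c' (by rw [hc']; exact (T.eps_act _ _).trans T.eps_c)
  have hz' : z + n • c' ∈ F.Vge a :=
    (F.Vge _).add_mem hz ((F.Vge _).smul_of_tower_mem n (F.Vge_anti (le_max_left _ _) hc'v))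
  obtain ⟨ρ, hρ⟩ := key a _ hz' hn
  refine ⟨ρ, ?_⟩
  have e : T.act g z - ρ • z =
      (T.act g (z + n • c') - ρ • (z + n • c')) - n • (T.act g c' - ρ • c') := by
    rw [map_add, map_nsmul, smul_add, smul_sub, smul_comm ρ n]
    abel
  rw [e]
  refine (F.Vge _).sub_mem hρ ((F.Vge _).smul_of_tower_mem n ((F.Vge _).sub_mem ?_
    ((F.Vge _).smul_mem _ (F.Vge_anti (le_max_right _ _) hc'v))))
  refine F.Vge_anti ?_ ((F.act_mem hgB).2 hc'v)
  have := le_max_right a (a + d - F.v k)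
  linarith

theorem nil_step {r : R} (hr : T.aug r = 0) {M : ℕ} (hM : 2 ≤ M)
    (h : ∀ x ∈ B, T.eps x = 1 → r ^ M • x ∈ F.Z) :
    ∀ x ∈ B, T.eps x = 1 → r ^ (M - 1) • x ∈ F.Z := by
  obtain ⟨M, rfl⟩ : ∃ M', M = M' + 2 := ⟨M - 2, by omega⟩
  change ∀ x ∈ B, T.eps x = 1 → r ^ (M + 1) • x ∈ F.Z
  intro x hx hx1
  by_contra hcon
  obtain ⟨k, hk⟩ := T.trans x hx1
  have hkB : T.act k T.c ∈ B := by rw [hk]; exact hx
  have hrx : r • T.act k T.c ∉ F.Z := by
    intro h'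
    refine hcon ?_
    rw [pow_succ, mul_smul, ← hk]
    exact F.Z.smul_mem _ h'
  obtain ⟨b, hbk, hb⟩ := F.shrink hkB hr hrx
  refine hcon (F.mem_Z.2 (fun a0 => ?_))
  set d : ℝ := max b (a0 + 2 * (b - F.v k)) with hd
  obtain ⟨g, w, hgB, hg0, hgb, hw, hw1, hgx, hfar⟩ := hb d (le_max_left _ _)
  rw [hk] at hgx
  have hd2 : a0 + 2 * (b - F.v k) ≤ d := le_max_right _ _
  -- the point `z`
  set z : V := T.act g⁻¹ x with hz
  have hgz : T.act g z = x := T.act_act_inv _ _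
  have hz1 : T.eps z = 1 := by rw [hz, T.eps_act, hx1]
  have hzV : z ∈ F.Vge (F.v k - F.v g) := by
    rw [← F.act_mem hgB, hgz, sub_add_cancel, ← hk]
    exact (F.mem_Vge_iff hkB).2 le_rfl
  have hzB : z ∈ B := F.Vge_le_B _ hzV
  set y : V := r ^ (M + 1) • z with hy
  have hyV : y ∈ F.Vge (F.v k - F.v g) := (F.Vge _).smul_mem _ hzV
  obtain ⟨ρ, hρ⟩ := hfar _ y hyV
  -- `r • g y` is far
  have h2 : r • T.act g y ∈ F.Vge (d - F.v g) := by
    have e : r • T.act g y = r • (T.act g y - ρ • y) + ρ • r • y := by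
      rw [smul_sub, smul_comm ρ r y, sub_add_cancel]
    rw [e]
    refine (F.Vge _).add_mem ((F.Vge _).smul_mem _ (F.Vge_anti ?_ hρ))
      ((F.Vge _).smul_mem _ ?_)
    · linarith
    · rw [hy, smul_smul r, ← pow_succ']
      exact F.mem_Z.1 (h z hzB hz1) _
  have hgi := F.inv_mem_B hgB
  have h3 : T.act g⁻¹ (r • T.act g y) ∈ F.Vge (d - F.v g + F.v g⁻¹) := (F.act_mem hgi).2 h2
  rw [F.v_inv hgB] at h3
  rw [T.cj_spec, T.act_inv_act, hy, smul_comm, hz, ← T.cj_spec] at h3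
  have h4 : T.act g⁻¹ (r • x) = x - T.act g⁻¹ w := by
    have h5 : r • x = T.act g x - w := by rw [hgx, add_sub_cancel_right]
    rw [h5, map_sub, T.act_inv_act]
  rw [h4, smul_sub] at h3
  have h5 : r ^ (M + 1) • T.act g⁻¹ w ∈ F.Vge (d + F.v g⁻¹) :=
    (F.Vge _).smul_mem _ ((F.act_mem hgi).2 hw)
  rw [F.v_inv hgB] at h5
  have h6 := (F.Vge a0).add_mem (F.Vge_anti (by linarith) h3) (F.Vge_anti (by linarith) h5)
  rwa [sub_add_cancel] at h6

theorem nil {r : R} (hr : T.aug r = 0) {M : ℕ}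
    (h : ∀ x ∈ B, r ^ M • x ∈ F.Z) : ∀ x ∈ B, r • x ∈ F.Z := by
  have key : ∀ M : ℕ, (∀ x ∈ B, T.eps x = 1 → r ^ M • x ∈ F.Z) →
      ∀ x ∈ B, T.eps x = 1 → r • x ∈ F.Z := by
    intro M
    induction M with
    | zero =>
      intro h x hx hx1
      have := h x hx hx1
      rw [pow_zero, one_smul] at this
      exact F.Z.smul_mem _ this
    | succ M ih =>
      rcases M with _ | M
      · intro h x hx hx1
        have := h x hx hx1
        rwa [zero_add, pow_one] at this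
      · intro h
        exact ih (F.nil_step hr (M := M + 2) (by omega) h)
  intro x hx
  obtain ⟨n, hn⟩ := T.A.exists_shift x T.c T.eps_c
  have h1 := key M (fun x hx _ => h x hx) (x + n • T.c)
    (B.add_mem hx (B.smul_of_tower_mem n F.c_mem)) hn
  have h2 := key M (fun x hx _ => h x hx) T.c F.c_mem T.eps_c
  have h3 := F.Z.sub_mem h1 (F.Z.smul_of_tower_mem n h2)
  rwa [smul_add, smul_comm r n, add_sub_cancel_right] at h3

end Flag

end TrG

end Pool.TF90
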