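import Mathlib
import Pool.Agent.TF90.Defs

/-!
# Scalars of the kernel at the level of `TrR`; finiteness of bounded sections
-/

set_option autoImplicit false

namespace Pool.TF90

open Cardinal Pool.TFR Pool.TFM Pool.TFN

section DCC

variable {p : ℕ} {Y : Type} [CommGroup Y]

/-- sections of exponent `p` are finite under the chain condition -/
theorem finCos_p (hp : p.Prime) (hD : DCC p Y) (N : Subgroup Y) :
    FinCos N (N.comap (powMonoidHom p)) := by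
  classical
  have hND : N ≤ N.comap (powMonoidHom p) := fun y hy => N.pow_mem hy p
  obtain ⟨S0, ⟨hNS0, hS0D, hfin0⟩, hmin⟩ := hD N
    {S | N ≤ S ∧ S ≤ N.comap (powMonoidHom p) ∧ FinCos S (N.comap (powMonoidHom p))}
    ⟨_, hND, le_rfl, FinCos.refl _⟩ (by
      rintro S ⟨h1, h2, -⟩
      refine ⟨h1, fun x hx => ⟨1, ?_⟩⟩
      rw [pow_one]
      exact h2 hx)
  suffices h : S0 = N by rwa [h] at hfin0
  by_contra hne
  obtain ⟨x, hx, hxN⟩ : ∃ x ∈ S0, x ∉ N := by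
    by_contra hcon
    push Not at hcon
    exact hne (le_antisymm (fun y hy => hcon y hy) hNS0)
  have hxp : x ^ p ∈ N := hS0D hx
  obtain ⟨S1, -, hS1⟩ := zorn_le_nonempty₀ {S : Subgroup Y | N ≤ S ∧ S ≤ S0 ∧ x ∉ S} (by
    intro c hc hch y hy
    have hd : DirectedOn (· ≤ ·) c := hch.directedOn
    refine ⟨sSup c, ⟨(hc hy).1.trans (le_sSup hy), sSup_le (fun S hS => (hc hS).2.1), ?_⟩,
      fun z hz => le_sSup hz⟩
    intro hx'
    obtain ⟨S, hS, hxS⟩ := (Subgroup.mem_sSup_of_directedOn ⟨y, hy⟩ hd).1 hx'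
    exact (hc hS).2.2 hxS) N ⟨le_rfl, hNS0, hxN⟩
  obtain ⟨hNS1, hS1S0, hxS1⟩ := hS1.prop
  have hfin1 : FinCos S1 S0 := by
    refine ⟨(fun a : ℕ => x ^ a) '' (Set.Iio p), (Set.finite_Iio p).image _, ?_, ?_⟩
    · rintro _ ⟨a, -, rfl⟩
      exact S0.pow_mem hx a
    · intro y hy
      have hyp : y ^ p ∈ N := hS0D hy
      -- `y = x ^ a * s`
      obtain ⟨a, s, hs, hys⟩ : ∃ (a : ℤ) (s : Y), s ∈ S1 ∧ y = x ^ a * s := by
        by_cases hyS : y ∈ S1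
        · exact ⟨0, y, hyS, by rw [zpow_zero, one_mul]⟩
        · have h1 : x ∈ S1 ⊔ Subgroup.zpowers y := by
            by_contra hcon
            have h2 : S1 ⊔ Subgroup.zpowers y ∈ {S : Subgroup Y | N ≤ S ∧ S ≤ S0 ∧ x ∉ S} :=
              ⟨hNS1.trans le_sup_left, sup_le hS1S0 (by
                rw [Subgroup.zpowers_le]; exact hy), hcon⟩
            have h3 := hS1.le_of_ge h2 le_sup_left
            exact hyS (h3 (Subgroup.mem_sup_right (Subgroup.mem_zpowers y)))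
          obtain ⟨s, hs, w, hw, hsw⟩ := Subgroup.mem_sup.1 h1
          obtain ⟨i, rfl⟩ := Subgroup.mem_zpowers_iff.1 hw
          have hi : ¬ (p : ℤ) ∣ i := by
            rintro ⟨d, rfl⟩
            refine hxS1 ?_
            rw [← hsw]
            refine S1.mul_mem hs (hNS1 ?_)
            rw [zpow_mul, zpow_natCast]
            exact N.zpow_mem hyp d
          have hcop : IsCoprime i (p : ℤ) :=
            ((Prime.coprime_iff_not_dvd (Nat.prime_iff_prime_int.1 hp)).2 hi).symm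
          obtain ⟨a, b, hab⟩ := hcop
          refine ⟨a, s⁻¹ ^ a * (y ^ p) ^ b, S1.mul_mem (S1.zpow_mem (S1.inv_mem hs) a)
            (hNS1 (N.zpow_mem hyp b)), ?_⟩
          have e1 : y ^ i = x * s⁻¹ := by rw [← hsw]; rw [mul_comm s, mul_inv_cancel_right]
          calc y = y ^ (a * i + b * p) := by rw [hab, zpow_one]
            _ = (y ^ i) ^ a * (y ^ p) ^ b := by
              rw [zpow_add, mul_comm a i, zpow_mul, mul_comm b, zpow_mul, zpow_natCast]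
            _ = x ^ a * (s⁻¹ ^ a * (y ^ p) ^ b) := by rw [e1, mul_zpow, mul_assoc]
      have hp0 : (p : ℤ) ≠ 0 := by exact_mod_cast hp.ne_zero
      have hnn : 0 ≤ a % (p : ℤ) := Int.emod_nonneg a hp0
      refine ⟨x ^ (a % (p : ℤ)).toNat, ⟨(a % (p : ℤ)).toNat, ?_, rfl⟩, ?_⟩
      · have h1 : a % (p : ℤ) < p := Int.emod_lt_of_pos a (by exact_mod_cast hp.pos)
        rw [Set.mem_Iio]
        omega
      · have e2 : x ^ a = x ^ (a % (p : ℤ)).toNat * (x ^ p) ^ (a / (p : ℤ)) := by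
          rw [← zpow_natCast, ← zpow_natCast, Int.toNat_of_nonneg hnn, ← zpow_mul, ← zpow_add,
            Int.emod_add_mul_ediv]
        rw [hys, e2, mul_assoc, inv_mul_cancel_left]
        exact S1.mul_mem (hNS1 (N.zpow_mem hxp _)) hs
  have h4 := hmin S1 ⟨hNS1, hS1S0.trans hS0D, hfin1.trans hfin0 hS0D⟩ hS1S0
  exact hxS1 (h4 ▸ hx)

/-- sections of exponent `p ^ j` are finite under the chain condition -/
theorem finCos_pow (hp : p.Prime) (hD : DCC p Y) (N : Subgroup Y) (j : ℕ) :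
    FinCos N (N.comap (powMonoidHom (p ^ j))) := by
  induction j with
  | zero =>
    have e : N.comap (powMonoidHom (p ^ 0)) = N := by
      ext y
      rw [Subgroup.mem_comap, powMonoidHom_apply, pow_zero, pow_one]
    rw [e]
    exact FinCos.refl N
  | succ j ih =>
    have h1 := finCos_p hp hD (N.comap (powMonoidHom (p ^ j)))
    have e : (N.comap (powMonoidHom (p ^ j))).comap (powMonoidHom p) =
        N.comap (powMonoidHom (p ^ (j + 1))) := by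
      ext y
      rw [Subgroup.mem_comap, Subgroup.mem_comap, Subgroup.mem_comap, powMonoidHom_apply,
        powMonoidHom_apply, powMonoidHom_apply, ← pow_mul, pow_succ']
    rw [e] at h1
    refine ih.trans h1 (fun y hy => ?_)
    rw [Subgroup.mem_comap, powMonoidHom_apply] at hy ⊢
    rw [pow_succ, pow_mul]
    exact N.pow_mem hy p

end DCC

namespace TrG

namespace Sc

variable {p : ℕ} {Q Γ R V : Type} [Group Q] [CommGroup Γ] [CommRing R] [AddCommGroup V]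
  [Module R V] (T : TrR p Q Γ R V)

/-- the scalar of an element of the kernel -/
noncomputable def sc (k : ↥T.κ.ker) : R := (T.K_act k.1 k.2).choose

theorem sc_spec (k : ↥T.κ.ker) (v : V) : T.act k.1 v = sc T k • v :=
  (T.K_act k.1 k.2).choose_spec v

theorem sc_one : sc T 1 = 1 := T.eq_of_smul (fun v => by
  rw [← sc_spec, one_smul]; exact T.act_one v)

theorem sc_mul (a b : ↥T.κ.ker) : sc T (a * b) = sc T a * sc T b := T.eq_of_smul (fun v => by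
  rw [← sc_spec, mul_smul, ← sc_spec, ← sc_spec]; exact T.act_mul _ _ v)

/-- the scalars as units -/
noncomputable def j : ↥T.κ.ker →* Rˣ where
  toFun k := ⟨sc T k, sc T k⁻¹, by rw [← sc_mul, mul_inv_cancel, sc_one],
    by rw [← sc_mul, inv_mul_cancel, sc_one]⟩
  map_one' := Units.ext (sc_one T)
  map_mul' a b := Units.ext (sc_mul T a b)

theorem coe_j (k : ↥T.κ.ker) : ((j T k : Rˣ) : R) = sc T k := rfl

theorem sc_pow (k : ↥T.κ.ker) (n : ℕ) : sc T (k ^ n) = sc T k ^ n := by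
  rw [← coe_j, ← coe_j, map_pow, Units.val_pow_eq_pow_val]

theorem aug_sc (k : ↥T.κ.ker) : T.aug (sc T k) = 1 := by
  have h := congrArg T.eps (sc_spec T k T.c)
  rw [T.eps_act, T.eps_smul, T.eps_c, mul_one] at h
  exact h.symm

include T in
theorem exists_charP [hp : Fact p.Prime] : CharP R p := by
  have : Nontrivial R := T.aug.domain_nontrivial
  exact (CharP.charP_iff_prime_eq_zero hp.out).2 T.charp

/-- torsion scalars are unipotent -/
theorem nil_of_torsion [hp : Fact p.Prime] (k : ↥T.κ.ker) {m : ℕ} (hm : 0 < m)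
    (h : sc T k ^ m = 1) : ∃ n : ℕ, (sc T k - 1) ^ n = 0 := by
  have := exists_charP T
  obtain ⟨a, q, hq, rfl⟩ := Nat.exists_eq_pow_mul_and_not_dvd hm.ne' p hp.out.ne_one
  set w : R := sc T k ^ p ^ a with hw
  have hw1 : w ^ q = 1 := by rw [hw, ← pow_mul]; exact h
  have hwa : T.aug w = 1 := by rw [hw, map_pow, aug_sc, one_pow]
  have h1 : (w - 1) * ∑ i ∈ Finset.range q, w ^ i = 0 := by
    rw [mul_geom_sum, hw1, sub_self]
  have h2 : T.aug (∑ i ∈ Finset.range q, w ^ i) ≠ 0 := by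
    rw [map_sum, Finset.sum_congr rfl (fun i _ => by rw [map_pow, hwa, one_pow]),
      Finset.sum_const, Finset.card_range, nsmul_eq_mul, mul_one]
    intro h0
    exact hq ((ZMod.natCast_eq_zero_iff q p).1 h0)
  obtain ⟨y, hy⟩ := T.toAmb.isUnit_of_aug h2
  rw [← hy] at h1
  have h3 : w - 1 = 0 := (Units.mul_left_eq_zero y).1 h1
  refine ⟨p ^ a, ?_⟩
  rw [sub_pow_char_pow, one_pow]
  exact h3

/-- the group of scalars modulo torsion -/
abbrev Tq : Type := ↥(j T).range ⧸ CommGroup.torsion ↥(j T).range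

/-- the map to the group of scalars modulo torsion -/
noncomputable def φ : ↥T.κ.ker →* Tq T := (QuotientGroup.mk' _).comp (j T).rangeRestrict

theorem φ_surj : Function.Surjective (φ T) :=
  (QuotientGroup.mk'_surjective _).comp (j T).rangeRestrict_surjective

theorem φ_eq_one {k : ↥T.κ.ker} (h : φ T k = 1) : ∃ m : ℕ, 0 < m ∧ sc T k ^ m = 1 := by
  have h1 : (j T).rangeRestrict k ∈ CommGroup.torsion ↥(j T).range :=
    (QuotientGroup.eq_one_iff _).1 h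
  obtain ⟨m, hm, h2⟩ := isOfFinOrder_iff_pow_eq_one.1 h1
  refine ⟨m, hm, ?_⟩
  have h3 : j T k ^ m = 1 := congrArg Subtype.val h2
  rw [← coe_j, ← Units.val_pow_eq_pow_val, h3, Units.val_one]

theorem dccT [hp : Fact p.Prime] [Group.IsSolvable Q] (hr : r0 Q < ℵ₀) : DCC p (Tq T) := by
  have h1 : ra (Tq T) < ℵ₀ := by
    rw [← r0_comm]
    exact lt_of_le_of_lt ((r0_le_of_surjective (φ T) (φ_surj T)).trans (r0_subgroup_le _)) hr
  refine dcc_of (FR_of_ra h1) hp.out ?_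
  refine (Set.finite_singleton (1 : Tq T)).subset (fun y hy => ?_)
  obtain ⟨x, rfl⟩ := QuotientGroup.mk_surjective y
  have h2 : x ^ p ∈ CommGroup.torsion ↥(j T).range := (QuotientGroup.eq_one_iff _).1 hy
  rw [Set.mem_singleton_iff, QuotientGroup.eq_one_iff]
  obtain ⟨m, hm, h3⟩ := isOfFinOrder_iff_pow_eq_one.1 h2
  exact isOfFinOrder_iff_pow_eq_one.2 ⟨p * m, Nat.mul_pos hp.out.pos hm, by rw [pow_mul]; exact h3⟩

/-- minimal condition for subgroups of the kernel -/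
theorem K_dcc [hp : Fact p.Prime] [Group.IsSolvable Q] (hr : r0 Q < ℵ₀) (Kinf : Subgroup Q)
    (F : Set (Subgroup Q)) (hF : F.Nonempty)
    (hle : ∀ S ∈ F, Kinf ≤ S ∧ S ≤ T.κ.ker ∧ ∀ x ∈ S, ∃ e : ℕ, x ^ p ^ e ∈ Kinf)
    (htor : ∀ k : ↥T.κ.ker, (∃ m : ℕ, 0 < m ∧ sc T k ^ m = 1) → k.1 ∈ Kinf) :
    ∃ S ∈ F, ∀ S' ∈ F, S' ≤ S → S' = S := by
  obtain ⟨_, ⟨S, hSF, rfl⟩, hmin⟩ := dccT T hr ((Kinf.subgroupOf T.κ.ker).map (φ T))
    ((fun S => (S.subgroupOf T.κ.ker).map (φ T)) '' F) (hF.image _) (by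
    rintro _ ⟨S, hSF, rfl⟩
    obtain ⟨h1, h2, h3⟩ := hle S hSF
    refine ⟨Subgroup.map_mono (fun x hx => h1 hx), ?_⟩
    rintro _ ⟨x, hx, rfl⟩
    obtain ⟨e, he⟩ := h3 x.1 hx
    exact ⟨e, x ^ p ^ e, he, map_pow _ _ _⟩)
  refine ⟨S, hSF, fun S' hS' hS'S => le_antisymm hS'S ?_⟩
  have h4 := hmin _ ⟨S', hS', rfl⟩ (Subgroup.map_mono (fun x hx => hS'S hx))
  intro x hx
  have hxk := (hle S hSF).2.1 hx
  have h5 : φ T ⟨x, hxk⟩ ∈ (S'.subgroupOf T.κ.ker).map (φ T) := by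
    change φ T ⟨x, hxk⟩ ∈ (fun S => (S.subgroupOf T.κ.ker).map (φ T)) S'
    rw [h4]
    exact ⟨⟨x, hxk⟩, hx, rfl⟩
  obtain ⟨y, hy, hyx⟩ := h5
  have h6 : φ T (y⁻¹ * ⟨x, hxk⟩) = 1 := by rw [map_mul, map_inv, hyx, inv_mul_cancel]
  have h7 := htor _ (φ_eq_one T h6)
  have h8 : y.1 * (y.1⁻¹ * x) ∈ S' := S'.mul_mem hy ((hle S' hS').1 h7)
  rwa [mul_inv_cancel_left] at h8

/-- finiteness of the sections of exponent `p ^ i` of the kernel -/
theorem K_fin [hp : Fact p.Prime] [Group.IsSolvable Q] (hr : r0 Q < ℵ₀) (Kinf : Subgroup Q)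
    (htor : ∀ k : ↥T.κ.ker, (∃ m : ℕ, 0 < m ∧ sc T k ^ m = 1) → k.1 ∈ Kinf) (i : ℕ) :
    ∃ S : Set Q, S.Finite ∧ ∀ k, T.κ k = 1 → k ^ p ^ i ∈ Kinf → ∃ s ∈ S, T.κ s = 1 ∧
      s⁻¹ * k ∈ Kinf := by
  obtain ⟨F, hF, -, hF2⟩ := finCos_pow hp.out (dccT T hr)
    ((Kinf.subgroupOf T.κ.ker).map (φ T)) i
  have hsurj := φ_surj T
  choose t ht using hsurj
  refine ⟨(fun f => (t f : Q)) '' F, hF.image _, fun k hk hki => ?_⟩
  obtain ⟨f, hf, h1⟩ := hF2 (φ T ⟨k, hk⟩) (by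
    rw [Subgroup.mem_comap, powMonoidHom_apply]
    exact ⟨⟨k, hk⟩ ^ p ^ i, hki, map_pow _ _ _⟩)
  refine ⟨t f, ⟨f, hf, rfl⟩, (t f).2, ?_⟩
  obtain ⟨y, hy, hyx⟩ := h1
  have h6 : φ T (y⁻¹ * ((t f)⁻¹ * ⟨k, hk⟩)) = 1 := by
    rw [map_mul, map_inv, map_mul, map_inv, ht, hyx, inv_mul_cancel]
  have h7 := htor _ (φ_eq_one T h6)
  have h8 : y.1 * (y.1⁻¹ * ((t f).1⁻¹ * k)) ∈ Kinf := Kinf.mul_mem hy h7
  rwa [mul_inv_cancel_left] at h8

end Sc

namespace Flag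

variable {p : ℕ} [Fact p.Prime] {Q Γ R V : Type} [Group Q] [CommGroup Γ] [CommRing R]
  [AddCommGroup V] [Module R V] {T : TrG p Q Γ R V} {B : Submodule R V} (F : T.Flag B)

theorem St_p {z : V} {k : Q} (hk : T.κ k = 1) : ∃ e : ℕ, k ^ p ^ e ∈ F.St z := by
  have := Sc.exists_charP T.toTrR
  set k' : ↥T.κ.ker := ⟨k, hk⟩ with hk'
  have h1 : T.aug (Sc.sc T.toTrR k' - 1) = 0 := by
    rw [map_sub, Sc.aug_sc, map_one, sub_self]
  obtain ⟨m, hm⟩ := T.nil h1 z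
  obtain ⟨n, hn⟩ : ∃ n, m ≤ p ^ n := ⟨m, (Nat.lt_pow_self (Fact.out : p.Prime).one_lt).le⟩
  refine ⟨n, by rw [map_pow, hk, one_pow], ?_⟩
  have h2 : (Sc.sc T.toTrR k' - 1) ^ p ^ n • z = 0 := by
    obtain ⟨d, hd⟩ := Nat.exists_eq_add_of_le hn
    rw [hd, pow_add, mul_comm, mul_smul, hm, smul_zero]
  rw [sub_pow_char_pow, one_pow, sub_smul, one_smul, sub_eq_zero] at h2
  have h3 : T.act (k ^ p ^ n) z = z := by
    have h4 := Sc.sc_spec T.toTrR (k' ^ p ^ n) z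
    rw [Sc.sc_pow, h2] at h4
    exact h4
  rw [h3, sub_self]
  exact F.Z.zero_mem

/-- the torsion hypothesis of the lemmas on the kernel -/
theorem htor_aux (hnil : ∀ r : R, T.aug r = 0 → ∀ M : ℕ, (∀ x ∈ B, r ^ M • x ∈ F.Z) →
    ∀ x ∈ B, r • x ∈ F.Z) {z : V} (hz : z ∈ B) (k : ↥T.κ.ker)
    (h : ∃ m : ℕ, 0 < m ∧ Sc.sc T.toTrR k ^ m = 1) : k.1 ∈ F.St z := by
  obtain ⟨m, hm, h⟩ := h
  obtain ⟨n, hn⟩ := Sc.nil_of_torsion T.toTrR k hm h
  refine ⟨k.2, ?_⟩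
  have h1 : T.aug (Sc.sc T.toTrR k - 1) = 0 := by
    rw [map_sub, Sc.aug_sc, map_one, sub_self]
  have h2 := hnil _ h1 n (fun x _ => by rw [hn, zero_smul]; exact F.Z.zero_mem) z hz
  rw [sub_smul, one_smul, ← Sc.sc_spec] at h2
  exact h2

theorem St_dcc_aux (hnil : ∀ r : R, T.aug r = 0 → ∀ M : ℕ, (∀ x ∈ B, r ^ M • x ∈ F.Z) →
    ∀ x ∈ B, r • x ∈ F.Z) [Group.IsSolvable Q] (hr : r0 Q < ℵ₀) {z : V} (hz : z ∈ B)
    (S : Set (Subgroup Q)) (hS : S.Nonempty) (h : ∀ K ∈ S, F.St z ≤ K ∧ K ≤ T.κ.ker) :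
    ∃ K ∈ S, ∀ K' ∈ S, K' ≤ K → K' = K :=
  Sc.K_dcc T.toTrR hr (F.St z) S hS
    (fun K hK => ⟨(h K hK).1, (h K hK).2, fun _ hx => F.St_p ((h K hK).2 hx)⟩)
    (F.htor_aux hnil hz)

theorem St_fin_aux (hnil : ∀ r : R, T.aug r = 0 → ∀ M : ℕ, (∀ x ∈ B, r ^ M • x ∈ F.Z) →
    ∀ x ∈ B, r • x ∈ F.Z) [Group.IsSolvable Q] (hr : r0 Q < ℵ₀) {z : V} (hz : z ∈ B) (j : ℕ) :
    ∃ S : Set Q, S.Finite ∧ ∀ k, T.κ k = 1 → k ^ p ^ j ∈ F.St z → ∃ s ∈ S, T.κ s = 1 ∧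
      s⁻¹ * k ∈ F.St z :=
  Sc.K_fin T.toTrR hr (F.St z) (F.htor_aux hnil hz) j

end Flag

end TrG

end Pool.TF90
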