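import Mathlib
import Pool.Agent.TF90.F3x
import Pool.Agent.TF90.F1

/-!
# Stabilisers in the kernel: chain condition and finiteness
-/

set_option autoImplicit false

namespace Pool.TF90

open Cardinal Pool.TFR Pool.TFM Pool.TFN

namespace TrG

namespace Flag

variable {p : ℕ} [Fact p.Prime] {Q Γ R V : Type} [Group Q] [CommGroup Γ] [CommRing R]
  [AddCommGroup V] [Module R V] {T : TrG p Q Γ R V} {B : Submodule R V} (F : T.Flag B)

theorem St_dcc [Group.IsSolvable Q] (hr : r0 Q < ℵ₀) {z : V} (hz : z ∈ B)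
    (S : Set (Subgroup Q)) (hS : S.Nonempty) (h : ∀ K ∈ S, F.St z ≤ K ∧ K ≤ T.κ.ker) :
    ∃ K ∈ S, ∀ K' ∈ S, K' ≤ K → K' = K :=
  F.St_dcc_aux (fun _ hr _ h => F.nil hr h) hr hz S hS h

/-- the subgroup of elements of order dividing `p ^ j` modulo `St z` is finite modulo `St z` -/
theorem St_fin [Group.IsSolvable Q] (hr : r0 Q < ℵ₀) {z : V} (hz : z ∈ B) (j : ℕ) :
    ∃ S : Set Q, S.Finite ∧ ∀ k, T.κ k = 1 → k ^ p ^ j ∈ F.St z → ∃ s ∈ S, T.κ s = 1 ∧
      s⁻¹ * k ∈ F.St z :=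
  F.St_fin_aux (fun _ hr _ h => F.nil hr h) hr hz j

end Flag

end TrG

end Pool.TF90
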