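import Mathlib
import Pool.Agent.TF90.F3a

/-!
# The gap of a flag and stability of stabilisers under perturbation
-/

set_option autoImplicit false

namespace Pool.TF90

open Cardinal Pool.TFR Pool.TFM Pool.TFN

namespace TrG

variable {p : ℕ} [Fact p.Prime] {Q Γ R V : Type} [Group Q] [CommGroup Γ] [CommRing R]
  [AddCommGroup V] [Module R V] {T : TrG p Q Γ R V}

namespace Flag

variable {B : Submodule R V} (F : T.Flag B)

/-- elements of the kernel moving `c` by elements of value at least `a` -/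
def Mv (a : ℝ) : Subgroup Q where
  carrier := {k | T.κ k = 1 ∧ T.act k T.c - T.c ∈ F.Vge a}
  mul_mem' := by
    rintro x y ⟨hx, hx'⟩ ⟨hy, hy'⟩
    refine ⟨by rw [map_mul, hx, hy, mul_one], ?_⟩
    have e : T.act (x * y) T.c - T.c
        = T.act x (T.act y T.c - T.c) + (T.act x T.c - T.c) := by
      rw [T.act_mul, map_sub]; abel
    rw [e]
    exact (F.Vge a).add_mem (act_ker_mem (F.Vge a) hx hy') hx'
  one_mem' := ⟨map_one _, by rw [T.act_one, sub_self]; exact (F.Vge a).zero_mem⟩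
  inv_mem' := by
    rintro x ⟨hx, hx'⟩
    have hxi : T.κ x⁻¹ = 1 := by rw [map_inv, hx, inv_one]
    refine ⟨hxi, ?_⟩
    have e : T.act x⁻¹ T.c - T.c = -T.act x⁻¹ (T.act x T.c - T.c) := by
      rw [map_sub, T.act_inv_act]; abel
    rw [e]
    exact (F.Vge a).neg_mem (act_ker_mem (F.Vge a) hxi hx')

theorem mem_Mv {a : ℝ} {k : Q} : k ∈ F.Mv a ↔ T.κ k = 1 ∧ T.act k T.c - T.c ∈ F.Vge a :=
  Iff.rfl

theorem Mv_anti {a b : ℝ} (h : a ≤ b) : F.Mv b ≤ F.Mv a :=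
  fun _ hk => ⟨hk.1, F.Vge_anti h hk.2⟩

/-- the gap at the base point -/
theorem gap_c [Group.IsSolvable Q] (hr : r0 Q < ℵ₀) :
    ∃ D0 : ℝ, 0 < D0 ∧ ∀ k, T.κ k = 1 → T.act k T.c - T.c ∈ F.Vge D0 →
      T.act k T.c - T.c ∈ F.Z := by
  obtain ⟨K, ⟨a0, rfl⟩, hK⟩ := F.St_dcc hr (z := T.c) F.c_mem (Set.range F.Mv)
    ⟨_, ⟨0, rfl⟩⟩ (by
      rintro K ⟨a, rfl⟩
      refine ⟨fun k hk => ⟨hk.1, ?_⟩, fun k hk => hk.1⟩
      exact F.mem_Z.1 hk.2 a)
  refine ⟨max a0 1, lt_of_lt_of_le one_pos (le_max_right _ _), fun k hk hk' => ?_⟩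
  have h1 : k ∈ F.Mv a0 := ⟨hk, F.Vge_anti (le_max_left _ _) hk'⟩
  rw [F.mem_Z]
  intro a
  have h2 := hK (F.Mv (max a a0)) ⟨_, rfl⟩ (F.Mv_anti (le_max_right _ _))
  rw [← h2] at h1
  exact F.Vge_anti (le_max_left _ _) h1.2

/-- the gap at the points of augmentation one -/
theorem gap_one {D0 : ℝ}
    (hc : ∀ k, T.κ k = 1 → T.act k T.c - T.c ∈ F.Vge D0 → T.act k T.c - T.c ∈ F.Z)
    {h k : Q} (hh : T.act h T.c ∈ B) (hk : T.κ k = 1)
    (hkm : T.act k (T.act h T.c) - T.act h T.c ∈ F.Vge (D0 + F.v h)) :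
    T.act k (T.act h T.c) - T.act h T.c ∈ F.Z := by
  have e : T.act k (T.act h T.c) - T.act h T.c
      = T.act h (T.act (h⁻¹ * k * h) T.c - T.c) := by
    rw [map_sub, ← T.act_mul, ← T.act_mul]
    congr 3
    group
  have hk' : T.κ (h⁻¹ * k * h) = 1 := by
    rw [map_mul, map_mul, hk, mul_one, map_inv, inv_mul_cancel]
  rw [e] at hkm ⊢
  rw [F.act_mem_Z hh]
  rw [F.act_mem hh] at hkm
  exact hc _ hk' hkm

theorem gap [Group.IsSolvable Q] (hr : r0 Q < ℵ₀) :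
    ∃ D0 : ℝ, 0 < D0 ∧ ∀ z ∈ B, ∀ a : ℝ, (∀ b, a < b → z ∉ F.Vge b) → ∀ k, T.κ k = 1 →
      T.act k z - z ∈ F.Vge (a + D0) → T.act k z - z ∈ F.Z := by
  obtain ⟨D0, hD0, hc⟩ := F.gap_c hr
  refine ⟨D0, hD0, fun z hz a ha k hk hkz => ?_⟩
  rw [F.mem_Z]
  intro b
  -- a far element
  obtain ⟨f, hf, hfv⟩ := F.exists_far (max b (max (a + D0) (a + 1)))
  obtain ⟨m, hm⟩ := ZMod.natCast_zmod_surjective (1 - T.eps z)
  set w : V := m • T.act f T.c with hw
  have hfV : T.act f T.c ∈ F.Vge (F.v f) := (F.mem_Vge_iff hf).2 le_rfl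
  have hwV : w ∈ F.Vge (F.v f) := (F.Vge _).nsmul_mem hfV m
  have h1 : T.eps (z + w) = 1 := by
    rw [map_add, hw, map_nsmul, T.eps_act, T.eps_c, nsmul_eq_mul, mul_one, hm]
    abel
  obtain ⟨g, hg⟩ := T.trans _ h1
  have hgB : T.act g T.c ∈ B := by
    rw [hg]
    exact B.add_mem hz (F.Vge_le_B _ hwV)
  have hgv : F.v g ≤ a := by
    by_contra hcon
    push Not at hcon
    have h2 : T.act g T.c ∈ F.Vge (F.v g) := (F.mem_Vge_iff hgB).2 le_rfl
    have h3 : z ∈ F.Vge (min (F.v g) (F.v f)) := by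
      have e : z = T.act g T.c - w := by rw [hg]; abel
      rw [e]
      exact (F.Vge _).sub_mem (F.Vge_anti (min_le_left _ _) h2)
        (F.Vge_anti (min_le_right _ _) hwV)
    refine ha _ (lt_min hcon ?_) h3
    have : a + 1 ≤ F.v f := (le_max_right _ _).trans ((le_max_right _ _).trans hfv)
    linarith
  have hkw : T.act k w - w ∈ F.Vge (F.v f) :=
    (F.Vge _).sub_mem (act_ker_mem _ hk hwV) hwV
  have e2 : T.act k (T.act g T.c) - T.act g T.c
      = (T.act k z - z) + (T.act k w - w) := by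
    rw [hg, map_add]; abel
  have h4 : T.act k (T.act g T.c) - T.act g T.c ∈ F.Z := by
    refine F.gap_one hc hgB hk ?_
    rw [e2]
    refine (F.Vge _).add_mem (F.Vge_anti (by linarith) hkz) (F.Vge_anti ?_ hkw)
    have : a + D0 ≤ F.v f := (le_max_left _ _).trans ((le_max_right _ _).trans hfv)
    linarith
  have h5 : T.act k z - z = (T.act k (T.act g T.c) - T.act g T.c) - (T.act k w - w) := by
    rw [e2]; abel
  rw [h5]
  refine (F.Vge _).sub_mem (F.mem_Z.1 h4 b) (F.Vge_anti ?_ hkw)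
  exact (le_max_left _ _).trans hfv

theorem St_add {D0 : ℝ} (hD0 : 0 < D0)
    (hgap : ∀ z ∈ B, ∀ a : ℝ, (∀ b, a < b → z ∉ F.Vge b) → ∀ k, T.κ k = 1 →
      T.act k z - z ∈ F.Vge (a + D0) → T.act k z - z ∈ F.Z)
    {z f : V} {a : ℝ} (hz : z ∈ B) (_ha : z ∈ F.Vge a) (ha' : ∀ b, a < b → z ∉ F.Vge b)
    (hf : f ∈ F.Vge (a + D0)) : F.St (z + f) = F.St z := by
  have hkf : ∀ k, T.κ k = 1 → T.act k f - f ∈ F.Vge (a + D0) := fun k hk =>
    (F.Vge _).sub_mem (act_ker_mem _ hk hf) hf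
  have hzf : ∀ b, a < b → z + f ∉ F.Vge b := by
    intro b hb hcon
    refine ha' (min b (a + D0)) (lt_min hb (by linarith)) ?_
    have e : z = (z + f) - f := by abel
    rw [e]
    exact (F.Vge _).sub_mem (F.Vge_anti (min_le_left _ _) hcon)
      (F.Vge_anti (min_le_right _ _) hf)
  have e : ∀ k, T.act k (z + f) - (z + f) = (T.act k z - z) + (T.act k f - f) := by
    intro k
    rw [map_add]; abel
  ext k
  rw [F.mem_St, F.mem_St]
  constructor
  · rintro ⟨hk, hk'⟩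
    refine ⟨hk, hgap z hz a ha' k hk ?_⟩
    have e2 : T.act k z - z = (T.act k (z + f) - (z + f)) - (T.act k f - f) := by
      rw [e]; abel
    rw [e2]
    exact (F.Vge _).sub_mem (F.mem_Z.1 hk' _) (hkf k hk)
  · rintro ⟨hk, hk'⟩
    refine ⟨hk, hgap (z + f) (B.add_mem hz (F.Vge_le_B _ hf)) a hzf k hk ?_⟩
    rw [e]
    exact (F.Vge _).add_mem (F.mem_Z.1 hk' _) (hkf k hk)

end Flag

end TrG

end Pool.TF90
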