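import Mathlib
import Pool.Agent.TF90.F1

/-!
# Strictness: the stabiliser grows along differences
-/

set_option autoImplicit false

namespace Pool.TF90

open Cardinal Pool.TFR Pool.TFM Pool.TFN

namespace TrG

variable {p : ℕ} [Fact p.Prime] {Q Γ R V : Type} [Group Q] [CommGroup Γ] [CommRing R]
  [AddCommGroup V] [Module R V] {T : TrG p Q Γ R V}

namespace Flag

variable {B : Submodule R V} (F : T.Flag B)

/-- scalars killing `z` modulo `Z` -/
def an (z : V) : Ideal R where
  carrier := {r | r • z ∈ F.Z}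
  add_mem' := by
    intro a b ha hb
    change (a + b) • z ∈ F.Z
    rw [add_smul]; exact F.Z.add_mem ha hb
  zero_mem' := by
    change (0 : R) • z ∈ F.Z
    rw [zero_smul]; exact F.Z.zero_mem
  smul_mem' := by
    intro a b hb
    change (a • b) • z ∈ F.Z
    rw [smul_eq_mul, mul_smul]; exact F.Z.smul_mem _ hb

theorem mem_an {z : V} {r : R} : r ∈ F.an z ↔ r • z ∈ F.Z := Iff.rfl

theorem mem_St_iff_an {z : V} {k : Q} (hk : T.κ k = 1) {u : R} (hu : ∀ v : V, T.act k v = u • v) :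
    k ∈ F.St z ↔ u - 1 ∈ F.an z := by
  rw [F.mem_St, F.mem_an, sub_smul, one_smul, hu]
  exact ⟨fun h => h.2, fun h => ⟨hk, h⟩⟩

/-- conjugation of stabilisers -/
theorem mem_St_act {g : Q} (hg : T.act g T.c ∈ B) {z : V} {k : Q} :
    g * k * g⁻¹ ∈ F.St (T.act g z) ↔ k ∈ F.St z := by
  rw [F.mem_St, F.mem_St]
  have e1 : T.act (g * k * g⁻¹) (T.act g z) - T.act g z = T.act g (T.act k z - z) := by
    rw [T.act_mul, T.act_inv_act, T.act_mul, map_sub]
  rw [e1, F.act_mem_Z hg]
  refine and_congr_left fun _ => ?_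
  rw [map_mul, map_mul, map_inv, mul_comm (T.κ g), mul_inv_cancel_right]

theorem St_le {x : V} {t : Q} (ht : T.κ t = 1) : F.St x ≤ F.St (T.act t x - x) := by
  intro k hk
  obtain ⟨hk1, hk2⟩ := F.mem_St.1 hk
  refine F.mem_St.2 ⟨hk1, ?_⟩
  obtain ⟨u, hu⟩ := T.K_act k hk1
  obtain ⟨s, hs⟩ := T.K_act t ht
  have e : T.act k (T.act t x - x) - (T.act t x - x) =
      T.act t (T.act k x - x) - (T.act k x - x) := by
    rw [hu, hu, hs, hs, smul_sub, smul_sub, smul_comm u s]
    abel
  rw [e]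
  exact F.Z.sub_mem (act_ker_mem F.Z ht hk2) hk2

/-- the case of augmentation one -/
theorem St_strict_one {D0 : ℝ}
    (hadd : ∀ (z f : V) (a : ℝ), z ∈ B → z ∈ F.Vge a → (∀ b, a < b → z ∉ F.Vge b) →
      f ∈ F.Vge (a + D0) → F.St (z + f) = F.St z)
    (hfin : ∀ z ∈ B, ∀ j : ℕ, ∃ S : Set Q, S.Finite ∧ ∀ k, T.κ k = 1 → k ^ p ^ j ∈ F.St z →
      ∃ s ∈ S, T.κ s = 1 ∧ s⁻¹ * k ∈ F.St z)
    (hpp : ∀ (z : V) (k : Q), T.κ k = 1 → ∃ e : ℕ, k ^ p ^ e ∈ F.St z)
    {x : V} (hx : x ∈ B) (hx1 : T.eps x = 1) {t : Q} (ht : T.κ t = 1)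
    (hsx : T.act t x - x ∉ F.Z) : F.St (T.act t x - x) ≠ F.St x := by
  classical
  intro hcon
  obtain ⟨k, hkB, rfl⟩ := F.exists_act hx hx1
  obtain ⟨u, hu⟩ := T.K_act t ht
  set x : V := T.act k T.c with hxdef
  have hux : T.act t x - x = (u - 1) • x := by rw [hu, sub_smul, one_smul]
  have haug : T.aug (u - 1) = 0 := by
    have h1 := T.eps_act t T.c
    rw [hu, T.eps_smul, T.eps_c, mul_one] at h1
    rw [map_sub, map_one, h1, sub_self]
  have hsZ : (u - 1) • x ∉ F.Z := by rwa [← hux]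
  have hsB : (u - 1) • x ∈ B := B.smul_mem _ hx
  obtain ⟨l, hl1, hl2⟩ := F.exists_lev hsB hsZ
  obtain ⟨b, hbk, hb⟩ := F.shrink hkB haug hsZ
  obtain ⟨j, hj⟩ := hpp x t ht
  obtain ⟨S, hSfin, hS⟩ := hfin x hx j
  set n : ℕ := (Nat.card S + 1) * p ^ j with hn
  set d : ℝ := max b (max (l + D0) (n * (b - F.v k) + F.v k + 1)) with hd
  obtain ⟨g, w, hgB, hg0, hgb, hw, -, hgx, -⟩ := hb d (le_max_left _ _)
  have hdl : l + D0 ≤ d := (le_max_left _ _).trans (le_max_right _ _)
  have hdn : n * (b - F.v k) + F.v k + 1 ≤ d := (le_max_right _ _).trans (le_max_right _ _)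
  -- `g` normalises the stabiliser
  have hSt : F.St (T.act g x) = F.St x := by
    rw [hgx, hadd _ w l hsB hl1 hl2 (F.Vge_anti hdl hw), ← hux, hcon]
  have hconj : ∀ h : Q, h ∈ F.St x → g * h * g⁻¹ ∈ F.St x := by
    intro h hh
    rw [← hSt]
    exact (F.mem_St_act hgB).2 hh
  have hconjn : ∀ (i : ℕ) (h : Q), h ∈ F.St x → g ^ i * h * (g ^ i)⁻¹ ∈ F.St x := by
    intro i
    induction i with
    | zero => intro h hh; simpa using hh
    | succ i ih =>
      intro h hh
      have h1 := hconj _ (ih h hh)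
      have e : g ^ (i + 1) * h * (g ^ (i + 1))⁻¹ = g * (g ^ i * h * (g ^ i)⁻¹) * g⁻¹ := by
        rw [pow_succ' g i, mul_inv_rev]; group
      rw [e]
      exact h1
  -- the conjugates
  set tt : ℕ → Q := fun i => g ^ i * t * (g ^ i)⁻¹ with htt
  have htκ : ∀ i, T.κ (tt i) = 1 := by
    intro i
    rw [htt]
    simp only [map_mul, map_inv, ht, mul_one, mul_inv_cancel]
  set uu : ℕ → R := fun i => T.cj (g ^ i) u with huu
  have huact : ∀ i (v : V), T.act (tt i) v = uu i • v := by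
    intro i v
    change T.act (g ^ i * t * (g ^ i)⁻¹) v = T.cj (g ^ i) u • v
    rw [T.act_mul, T.act_mul, hu, T.cj_spec, T.act_act_inv]
  have huu0 : uu 0 = u := by
    change T.cj (g ^ 0) u = u
    rw [pow_zero, T.cj_one]
  have huus : ∀ i, T.cj g (uu i) = uu (i + 1) := by
    intro i
    change T.cj g (T.cj (g ^ i) u) = T.cj (g ^ (i + 1)) u
    rw [← T.cj_mul, pow_succ']
  have hcj1 : ∀ i, T.cj g (uu i - 1) = uu (i + 1) - 1 := by
    intro i
    have h1 : uu i = (uu i - 1) + 1 := by ring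
    have h2 := T.cj_add_right g (uu i - 1) 1
    rw [sub_add_cancel, huus, T.cj_one_right] at h2
    rw [h2, add_sub_cancel_right]
  have hcjp : ∀ m : ℕ, T.cj g (∏ i ∈ Finset.range m, (uu i - 1)) =
      ∏ i ∈ Finset.range m, (uu (i + 1) - 1) := by
    intro m
    induction m with
    | zero => rw [Finset.prod_range_zero, Finset.prod_range_zero, T.cj_one_right]
    | succ m ih => rw [Finset.prod_range_succ, T.cj_mul_right, ih, hcj1, Finset.prod_range_succ]
  -- powers of `g`
  have hpow : ∀ m : ℕ, T.act (g ^ m) x - (∏ i ∈ Finset.range m, (uu i - 1)) • x ∈ F.Vge d := by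
    intro m
    induction m with
    | zero =>
      rw [pow_zero, T.act_one, Finset.prod_range_zero, one_smul, sub_self]
      exact (F.Vge _).zero_mem
    | succ m ih =>
      have h1 := (F.act_mem hgB).2 ih
      rw [map_sub, T.cj_spec, ← T.act_mul, ← pow_succ', hcjp, hgx] at h1
      rw [Finset.prod_range_succ', huu0, mul_smul]
      have h2 := (F.Vge d).add_mem (F.Vge_anti (by linarith) h1)
        ((F.Vge d).smul_mem (∏ i ∈ Finset.range m, (uu (i + 1) - 1)) hw)
      rw [smul_add] at h2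
      have e : T.act (g ^ (m + 1)) x -
          ((∏ i ∈ Finset.range m, (uu (i + 1) - 1)) • (u - 1) • x +
            (∏ i ∈ Finset.range m, (uu (i + 1) - 1)) • w) +
          (∏ i ∈ Finset.range m, (uu (i + 1) - 1)) • w =
          T.act (g ^ (m + 1)) x - (∏ i ∈ Finset.range m, (uu (i + 1) - 1)) • (u - 1) • x := by
        abel
      rwa [e] at h2
  -- the product is in the annihilator
  have hrep : ∀ i, ∃ s ∈ S, T.κ s = 1 ∧ s⁻¹ * tt i ∈ F.St x := by
    intro i
    refine hS (tt i) (htκ i) ?_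
    have e : tt i ^ p ^ j = g ^ i * t ^ p ^ j * (g ^ i)⁻¹ := by
      rw [htt]; simp only [conj_pow]
    rw [e]
    exact hconjn i _ hj
  choose s hsS hsκ hst using hrep
  have hsc : ∀ i, ∃ σ : R, (∀ v : V, T.act (s i) v = σ • v) := fun i => T.K_act _ (hsκ i)
  choose σ hσ using hsc
  -- congruence of scalars
  have hcong : ∀ i, uu i - σ i ∈ F.an x := by
    intro i
    obtain ⟨τ, hτ⟩ := T.K_act (s⁻¹ i * tt i) (F.mem_St.1 (by simpa using hst i)).1
    have h1 : τ - 1 ∈ F.an x := by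
      refine (F.mem_St_iff_an ?_ hτ).1 (by simpa using hst i)
      exact (F.mem_St.1 (by simpa using hst i)).1
    have h2 : uu i = σ i * τ := by
      refine T.eq_of_smul (fun v => ?_)
      rw [← huact, mul_smul, ← hτ, ← hσ, ← T.act_mul]
      simp
    have h3 : uu i - σ i = σ i * (τ - 1) := by rw [h2]; ring
    rw [h3]
    exact (F.an x).mul_mem_left _ h1
  have hmem : ∏ i ∈ Finset.range n, (uu i - 1) ∈ F.an x := by
    -- pigeonhole
    have hcard : (hSfin.toFinset).card * (p ^ j - 1) < (Finset.range n).card := by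
      rw [Finset.card_range, hn]
      have h1 : hSfin.toFinset.card = Nat.card S := by
        rw [Nat.card_eq_card_finite_toFinset hSfin]
      rw [h1]
      have hp0 : 0 < p ^ j := pow_pos (Fact.out : p.Prime).pos j
      calc Nat.card S * (p ^ j - 1) ≤ Nat.card S * p ^ j :=
            Nat.mul_le_mul_left _ (Nat.sub_le _ _)
        _ < (Nat.card S + 1) * p ^ j := by nlinarith
    obtain ⟨s0, hs0, hs1⟩ := Finset.exists_lt_card_fiber_of_mul_lt_card_of_maps_to
      (f := s) (s := Finset.range n) (t := hSfin.toFinset)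
      (fun i _ => by simpa using hsS i) hcard
    have hp0 : 0 < p ^ j := pow_pos (Fact.out : p.Prime).pos j
    have hs2 : p ^ j ≤ ((Finset.range n).filter (fun i => s i = s0)).card := by omega
    set I : Finset ℕ := (Finset.range n).filter (fun i => s i = s0) with hI
    have hIne : I.Nonempty := by
      rw [← Finset.card_pos]; omega
    obtain ⟨i0, hi0⟩ := hIne
    have hs0i : s i0 = s0 := (Finset.mem_filter.1 hi0).2
    have hσeq : ∀ i ∈ I, σ i = σ i0 := by
      intro i hi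
      refine T.eq_of_smul (fun v => ?_)
      rw [← hσ, ← hσ, (Finset.mem_filter.1 hi).2, hs0i]
    -- the power of `σ - 1`
    have hq : (σ i0 - 1) ^ p ^ j ∈ F.an x := by
      have hch : CharP R p ∨ Subsingleton R := by
        rcases subsingleton_or_nontrivial R with h | h
        · exact Or.inr h
        · left
          exact (CharP.charP_iff_prime_eq_zero (Fact.out : p.Prime)).2 T.charp
      rcases hch with hch | hch
      · have e1 : (σ i0 - 1) ^ p ^ j = σ i0 ^ p ^ j - 1 := by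
          rw [sub_pow_char_pow, one_pow]
        rw [e1]
        have h1 : uu i0 ^ p ^ j - 1 ∈ F.an x := by
          have h2 : tt i0 ^ p ^ j ∈ F.St x := by
            have e : tt i0 ^ p ^ j = g ^ i0 * t ^ p ^ j * (g ^ i0)⁻¹ := by
              rw [htt]; simp only [conj_pow]
            rw [e]
            exact hconjn i0 _ hj
          refine (F.mem_St_iff_an (F.mem_St.1 h2).1 ?_).1 h2
          intro v
          have : ∀ m : ℕ, T.act (tt i0 ^ m) v = uu i0 ^ m • v := by
            intro m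
            induction m with
            | zero => rw [pow_zero, pow_zero, T.act_one, one_smul]
            | succ m ih => rw [pow_succ', T.act_mul, ih, huact, smul_smul, pow_succ']
          exact this _
        have h3 : σ i0 ^ p ^ j - uu i0 ^ p ^ j ∈ F.an x := by
          rw [← sub_pow_char_pow]
          refine Ideal.pow_mem_of_mem _ ?_ _ hp0
          have := (F.an x).neg_mem (hcong i0)
          rwa [neg_sub] at this
        have h4 := (F.an x).add_mem h3 h1
        rwa [sub_add_sub_cancel] at h4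
      · have : (σ i0 - 1) ^ p ^ j = 0 := Subsingleton.elim _ _
        rw [this]
        exact (F.an x).zero_mem
    -- the partial product
    have hpart : ∏ i ∈ I, (uu i - 1) ∈ F.an x := by
      have h1 : ∏ i ∈ I, (uu i - 1) - ∏ i ∈ I, (σ i0 - 1) ∈ F.an x := by
        rw [← Ideal.Quotient.eq, map_prod, map_prod]
        refine Finset.prod_congr rfl (fun i hi => ?_)
        rw [Ideal.Quotient.eq]
        have h2 := hcong i
        rw [hσeq i hi] at h2
        have e : uu i - 1 - (σ i0 - 1) = uu i - σ i0 := by ring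
        rw [e]
        exact h2
      rw [Finset.prod_const] at h1
      have h2 : (σ i0 - 1) ^ I.card ∈ F.an x := by
        obtain ⟨m, hm⟩ := Nat.exists_eq_add_of_le hs2
        rw [hm, pow_add]
        exact (F.an x).mul_mem_right _ hq
      have h3 := (F.an x).add_mem h1 h2
      rwa [sub_add_cancel] at h3
    rw [← Finset.prod_filter_mul_prod_filter_not (Finset.range n) (fun i => s i = s0)]
    exact (F.an x).mul_mem_right _ hpart
  have h1 : T.act (g ^ n) x ∈ F.Vge d := by
    have h2 := (F.Vge d).add_mem (hpow n) (F.Z_le_Vge d hmem)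
    rwa [sub_add_cancel] at h2
  rw [hxdef, ← T.act_mul, F.mem_Vge_iff (F.mul_mem_B (F.pow_mem_B hgB n) hkB),
    F.v_mul _ _ (F.pow_mem_B hgB n) hkB, F.v_pow hgB] at h1
  have h3 : (n : ℝ) * F.v g ≤ n * (b - F.v k) :=
    mul_le_mul_of_nonneg_left hgb (Nat.cast_nonneg n)
  linarith

theorem St_strict_aux {D0 : ℝ} (hD0 : 0 < D0)
    (hadd : ∀ (z f : V) (a : ℝ), z ∈ B → z ∈ F.Vge a → (∀ b, a < b → z ∉ F.Vge b) →
      f ∈ F.Vge (a + D0) → F.St (z + f) = F.St z)
    (hfin : ∀ z ∈ B, ∀ j : ℕ, ∃ S : Set Q, S.Finite ∧ ∀ k, T.κ k = 1 → k ^ p ^ j ∈ F.St z →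
      ∃ s ∈ S, T.κ s = 1 ∧ s⁻¹ * k ∈ F.St z)
    (hpp : ∀ (z : V) (k : Q), T.κ k = 1 → ∃ e : ℕ, k ^ p ^ e ∈ F.St z)
    {x : V} (hx : x ∈ B) {t : Q} (ht : T.κ t = 1)
    (hsx : T.act t x - x ∉ F.Z) : F.St x < F.St (T.act t x - x) := by
  refine lt_of_le_of_ne (F.St_le ht) (fun hcon => ?_)
  have hxZ : x ∉ F.Z := fun h => hsx (F.Z.sub_mem (act_ker_mem F.Z ht h) h)
  have hsB : T.act t x - x ∈ B := B.sub_mem (act_ker_mem B ht hx) hx
  obtain ⟨a, ha1, ha2⟩ := F.exists_lev hx hxZ
  obtain ⟨l, hl1, hl2⟩ := F.exists_lev hsB hsx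
  obtain ⟨h0, hh0, hv0⟩ := F.exists_far (max (a + D0) (l + D0))
  obtain ⟨n, hn⟩ := T.A.exists_shift x (T.act h0 T.c) ((T.eps_act _ _).trans T.eps_c)
  set f : V := n • T.act h0 T.c with hf
  have hfm : f ∈ F.Vge (max (a + D0) (l + D0)) :=
    (F.Vge _).smul_of_tower_mem n ((F.mem_Vge_iff hh0).2 hv0)
  have hfB : f ∈ B := F.Vge_le_B _ hfm
  have e : T.act t (x + f) - (x + f) = (T.act t x - x) + (T.act t f - f) := by
    rw [map_add]; abel
  have hf2 : T.act t f - f ∈ F.Vge (max (a + D0) (l + D0)) :=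
    (F.Vge _).sub_mem (act_ker_mem _ ht hfm) hfm
  have h1 : F.St (x + f) = F.St x :=
    hadd x f a hx ha1 ha2 (F.Vge_anti (le_max_left _ _) hfm)
  have h2 : F.St (T.act t (x + f) - (x + f)) = F.St (T.act t x - x) := by
    rw [e]
    exact hadd _ _ l hsB hl1 hl2 (F.Vge_anti (le_max_right _ _) hf2)
  refine F.St_strict_one hadd hfin hpp (B.add_mem hx hfB) hn ht ?_ (by rw [h1, h2, hcon])
  intro h3
  rw [e] at h3
  have h4 := (F.Vge (l + D0)).sub_mem (F.Z_le_Vge _ h3) (F.Vge_anti (le_max_right _ _) hf2)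
  rw [add_sub_cancel_right] at h4
  exact hl2 _ (by linarith) h4

end Flag

end TrG

end Pool.TF90
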