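import Mathlib
import Pool.Agent.TF90.F3a
import Pool.Agent.TF90.F3b
import Pool.Agent.TF90.F4x

/-!
# Strictness: the stabiliser grows along differences
-/

set_option autoImplicit false

namespace Pool.TF90

open Cardinal Pool.TFR Pool.TFM Pool.TFN

namespace TrG

variable {p : ℕ} [Fact p.Prime] {Q Γ R V : Type} [Group Q] [CommGroup Γ] [CommRing R]
  [AddCommGroup V] [Module R V] {T : TrG p Q Γ R V}

namespace Flag

variable {B : Submodule R V} (F : T.Flag B)

theorem St_strict [Group.IsSolvable Q] (hr : r0 Q < ℵ₀) {x : V} (hx : x ∈ B) {t : Q}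
    (ht : T.κ t = 1) (hsx : T.act t x - x ∉ F.Z) : F.St x < F.St (T.act t x - x) := by
  obtain ⟨D0, hD0, hgap⟩ := F.gap hr
  exact F.St_strict_aux hD0 (fun z f a hz ha ha' hf => F.St_add hD0 hgap hz ha ha' hf)
    (fun z hz j => F.St_fin hr hz j) (fun z k hk => F.St_p hk) hx ht hsx

end Flag

end TrG

end Pool.TF90
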