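import Mathlib
import Pool.Agent.TF90.F4
import Pool.Agent.TF90.Rel

/-!
# The kernel acts trivially modulo the intersection of a flag
-/

set_option autoImplicit false

namespace Pool.TF90

open Cardinal Pool.TFR Pool.TFM Pool.TFN

namespace TrG

variable {p : ℕ} [Fact p.Prime] {Q Γ R V : Type} [Group Q] [CommGroup Γ] [CommRing R]
  [AddCommGroup V] [Module R V] {T : TrG p Q Γ R V}

namespace Flag

variable {B : Submodule R V} (F : T.Flag B)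

include T in
theorem charP : CharP R p := by
  have : Nontrivial R := T.aug.domain_nontrivial
  exact (CharP.charP_iff_prime_eq_zero (Fact.out : p.Prime)).2 T.charp

omit [Fact p.Prime] in
include T in
theorem pV (x : V) : p • x = 0 := by
  rw [← Nat.cast_smul_eq_nsmul R, T.charp, zero_smul]

/-- membership by scalars -/
theorem mem_St_sc {z : V} (k : ↥T.κ.ker) : k.1 ∈ F.St z ↔ (T.sc k - 1) • z ∈ F.Z := by
  rw [mem_St, T.sc_spec, sub_smul, one_smul]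
  exact ⟨fun h => h.2, fun h => ⟨k.2, h⟩⟩

theorem St_le_smul (z : V) (r : R) : F.St z ≤ F.St (r • z) := by
  rintro k ⟨hk, hk'⟩
  refine ⟨hk, ?_⟩
  obtain ⟨u, hu⟩ := T.K_act k hk
  rw [hu] at hk' ⊢
  have e : u • r • z - r • z = r • (u • z - z) := by module
  rw [e]
  exact F.Z.smul_mem _ hk'

theorem St_congr {z z' : V} (h : z - z' ∈ F.Z) : F.St z = F.St z' := by
  have key : ∀ {z z' : V}, z - z' ∈ F.Z → F.St z ≤ F.St z' := by
    intro z z' h k hk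
    refine ⟨hk.1, ?_⟩
    have e : T.act k z' - z' = (T.act k z - z) - (T.act k (z - z') - (z - z')) := by
      rw [map_sub]; abel
    rw [e]
    exact F.Z.sub_mem hk.2 (F.Z.sub_mem (act_ker_mem F.Z hk.1 h) h)
  refine le_antisymm (key h) (key ?_)
  have := F.Z.neg_mem h
  rwa [neg_sub] at this

theorem St_le_ker (z : V) : F.St z ≤ T.κ.ker := fun _ h => h.1

/-- the elements acting on `x` as a `q`-th power -/
def Pw (x : V) (q : ℕ) : Subgroup Q where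
  carrier := {k | ∃ (hk : T.κ k = 1) (n : ↥T.κ.ker), (T.sc ⟨k, hk⟩ - T.sc n ^ q) • x ∈ F.Z}
  mul_mem' := by
    rintro a b ⟨ha, n, hn⟩ ⟨hb, n', hn'⟩
    have hab : T.κ (a * b) = 1 := by rw [map_mul, ha, hb, mul_one]
    refine ⟨hab, n * n', ?_⟩
    have e1 : T.sc ⟨a * b, hab⟩ = T.sc ⟨a, ha⟩ * T.sc ⟨b, hb⟩ := T.sc_mul ⟨a, ha⟩ ⟨b, hb⟩
    rw [e1, T.sc_mul]
    have e : (T.sc ⟨a, ha⟩ * T.sc ⟨b, hb⟩ - (T.sc n * T.sc n') ^ q) • x =
        T.sc ⟨b, hb⟩ • (T.sc ⟨a, ha⟩ - T.sc n ^ q) • x +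
          T.sc n ^ q • (T.sc ⟨b, hb⟩ - T.sc n' ^ q) • x := by
      rw [smul_smul, smul_smul, ← add_smul]
      congr 1
      ring
    rw [e]
    exact F.Z.add_mem (F.Z.smul_mem _ hn) (F.Z.smul_mem _ hn')
  one_mem' := by
    refine ⟨map_one _, 1, ?_⟩
    have e1 : T.sc ⟨1, map_one T.κ⟩ = 1 := T.sc_one
    rw [e1, T.sc_one, one_pow, sub_self, zero_smul]
    exact F.Z.zero_mem
  inv_mem' := by
    rintro a ⟨ha, n, hn⟩
    have hai : T.κ a⁻¹ = 1 := by rw [map_inv, ha, inv_one]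
    refine ⟨hai, n⁻¹, ?_⟩
    have e1 : T.sc ⟨a⁻¹, hai⟩ * T.sc ⟨a, ha⟩ = 1 := by
      rw [← T.sc_mul, ← T.sc_one]
      congr 1
      exact Subtype.ext (inv_mul_cancel a)
    have e2 : T.sc n⁻¹ ^ q * T.sc n ^ q = 1 := by
      rw [← mul_pow, ← T.sc_mul, inv_mul_cancel, T.sc_one, one_pow]
    have e : (T.sc ⟨a⁻¹, hai⟩ - T.sc n⁻¹ ^ q) • x =
        -((T.sc ⟨a⁻¹, hai⟩ * T.sc n⁻¹ ^ q) • (T.sc ⟨a, ha⟩ - T.sc n ^ q) • x) := by
      rw [smul_smul, ← neg_smul]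
      congr 1
      linear_combination (T.sc n⁻¹ ^ q) * e1 - (T.sc ⟨a⁻¹, hai⟩) * e2
    rw [e]
    exact F.Z.neg_mem (F.Z.smul_mem _ hn)

theorem mem_Pw {x : V} {q : ℕ} (k : ↥T.κ.ker) :
    k.1 ∈ F.Pw x q ↔ ∃ n : ↥T.κ.ker, (T.sc k - T.sc n ^ q) • x ∈ F.Z :=
  ⟨fun ⟨_, n, hn⟩ => ⟨n, hn⟩, fun ⟨n, hn⟩ => ⟨k.2, n, hn⟩⟩

theorem Pw_le_ker (x : V) (q : ℕ) : F.Pw x q ≤ T.κ.ker := fun _ ⟨hk, _⟩ => hk

theorem St_le_Pw (x : V) (q : ℕ) : F.St x ≤ F.Pw x q := by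
  intro k hk
  refine ⟨hk.1, 1, ?_⟩
  rw [T.sc_one, one_pow]
  exact (F.mem_St_sc ⟨k, hk.1⟩).1 hk

theorem Pw_succ_le (x : V) (j : ℕ) : F.Pw x (p ^ (j + 1)) ≤ F.Pw x (p ^ j) := by
  rintro k ⟨hk, n, hn⟩
  refine ⟨hk, n ^ p, ?_⟩
  rwa [T.sc_pow, ← pow_mul, ← pow_succ']

/-- the divisible part is trivial -/
theorem exists_exp [Group.IsSolvable Q] (hr : r0 Q < ℵ₀) {x : V} (hx : x ∈ B) :
    ∃ m : ℕ, F.Pw x (p ^ m) ≤ F.St x := by
  have hch := charP (T := T)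
  have hp2 : 2 ≤ p := (Fact.out : p.Prime).two_le
  obtain ⟨_, ⟨m, rfl⟩, hmin⟩ := F.St_dcc hr hx (Set.range (fun j => F.Pw x (p ^ j)))
    (Set.range_nonempty _) (by
      rintro _ ⟨j, rfl⟩
      exact ⟨F.St_le_Pw x _, F.Pw_le_ker x _⟩)
  have hstat : F.Pw x (p ^ (m + 1)) = F.Pw x (p ^ m) := hmin _ ⟨m + 1, rfl⟩ (F.Pw_succ_le x m)
  refine ⟨m, ?_⟩
  by_contra hcon
  obtain ⟨k0, hk0, hk0'⟩ := Set.not_subset.1 hcon
  obtain ⟨_, ⟨n, hn, hn', rfl⟩, hmin2⟩ := F.St_dcc hr hx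
    {K | ∃ n : Q, n ∈ F.Pw x (p ^ m) ∧ n ∉ F.St x ∧ F.St (T.act n x - x) = K}
    ⟨_, k0, hk0, hk0', rfl⟩ (by
      rintro _ ⟨n, hn, -, rfl⟩
      refine ⟨?_, F.St_le_ker _⟩
      have e : T.act n x - x = (T.sc ⟨n, F.Pw_le_ker x _ hn⟩ - 1) • x := by
        rw [sub_smul, one_smul, ← T.sc_spec]
      rw [e]
      exact F.St_le_smul _ _)
  have hnk : T.κ n = 1 := F.Pw_le_ker x _ hn
  have hn2 := hn
  rw [← hstat] at hn2
  obtain ⟨_, l, hl⟩ := hn2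
  -- the root
  set t : ↥T.κ.ker := l ^ p ^ m with ht
  have htp : T.sc t ^ p = T.sc l ^ p ^ (m + 1) := by
    rw [ht, T.sc_pow, ← pow_mul, ← pow_succ]
  have hl' : (T.sc ⟨n, hnk⟩ - T.sc t ^ p) • x ∈ F.Z := by rw [htp]; exact hl
  have htT : t.1 ∈ F.Pw x (p ^ m) := by
    rw [F.mem_Pw]
    refine ⟨l, ?_⟩
    rw [ht, T.sc_pow, sub_self, zero_smul]
    exact F.Z.zero_mem
  have hfr : (T.sc t - 1) ^ p = T.sc t ^ p - 1 := by rw [sub_pow_char, one_pow]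
  have hnx : (T.sc ⟨n, hnk⟩ - 1) • x ∉ F.Z := by
    rw [← F.mem_St_sc ⟨n, hnk⟩]
    exact hn'
  have h1 : (T.sc ⟨n, hnk⟩ - 1) • x - (T.sc t - 1) ^ p • x ∈ F.Z := by
    have e : (T.sc ⟨n, hnk⟩ - 1) • x - (T.sc t - 1) ^ p • x =
        (T.sc ⟨n, hnk⟩ - T.sc t ^ p) • x := by
      rw [hfr, ← sub_smul]
      congr 1
      ring
    rw [e]
    exact hl'
  have h2 : (T.sc t - 1) ^ p • x ∉ F.Z := by
    intro h
    exact hnx ((F.Z.sub_mem_iff_left h).1 h1)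
  have hpow : ∀ i, i ≤ p → (T.sc t - 1) ^ i • x ∉ F.Z := by
    intro i hi h
    apply h2
    obtain ⟨d, rfl⟩ := Nat.exists_eq_add_of_le hi
    rw [pow_add, mul_comm, mul_smul]
    exact F.Z.smul_mem _ h
  have ht' : t.1 ∉ F.St x := by
    rw [F.mem_St_sc]
    have := hpow 1 (by omega)
    rwa [pow_one] at this
  set z : V := T.act t.1 x - x with hz
  have hz1 : z = (T.sc t - 1) • x := by rw [hz, T.sc_spec, sub_smul, one_smul]
  have hzB : z ∈ B := by rw [hz1]; exact B.smul_mem _ hx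
  have hz2 : T.act t.1 z - z = (T.sc t - 1) ^ 2 • x := by
    rw [T.sc_spec, hz1, pow_two, mul_smul]
    module
  have hstrict := F.St_strict hr hzB (t := t.1) t.2 (by rw [hz2]; exact hpow 2 hp2)
  have hle : F.St (T.act t.1 z - z) ≤ F.St (T.act n x - x) := by
    have e1 : T.act n x - x = (T.sc ⟨n, hnk⟩ - 1) • x := by
      rw [sub_smul, one_smul, ← T.sc_spec]
    rw [e1, F.St_congr h1, hz2]
    obtain ⟨d, hd⟩ := Nat.exists_eq_add_of_le hp2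
    have e2 : (T.sc t - 1) ^ p • x = (T.sc t - 1) ^ d • (T.sc t - 1) ^ 2 • x := by
      rw [smul_smul, ← pow_add, add_comm, ← hd]
    rw [e2]
    exact F.St_le_smul _ _
  have h3 := hmin2 (F.St z) ⟨t.1, htT, ht', rfl⟩ (hstrict.le.trans hle)
  exact absurd (h3 ▸ hle) (not_le_of_gt hstrict)

omit [Fact p.Prime] in
theorem conj_ker {k : Q} (hk : T.κ k = 1) (h : Q) : T.κ (h⁻¹ * k * h) = 1 := by
  rw [map_mul, map_mul, hk, mul_one, ← map_mul, inv_mul_cancel, map_one]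

/-- a uniform exponent -/
theorem exists_exp_all [Group.IsSolvable Q] (hr : r0 Q < ℵ₀) :
    ∃ m : ℕ, ∀ k : ↥T.κ.ker, ∀ x ∈ B, (T.sc k - 1) ^ p ^ m • x ∈ F.Z := by
  have hch := charP (T := T)
  obtain ⟨m, hm⟩ := F.exists_exp hr F.hB.1
  have h1 : ∀ k : ↥T.κ.ker, (T.sc k ^ p ^ m - 1) • T.c ∈ F.Z := by
    intro k
    rw [← T.sc_pow]
    have := hm (x := (k ^ p ^ m : ↥T.κ.ker).1) (by
      rw [F.mem_Pw]
      refine ⟨k, ?_⟩
      rw [T.sc_pow, sub_self, zero_smul]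
      exact F.Z.zero_mem)
    exact (F.mem_St_sc _).1 this
  have h2 : ∀ k : ↥T.κ.ker, ∀ x ∈ B, T.eps x = 1 → (T.sc k ^ p ^ m - 1) • x ∈ F.Z := by
    intro k x hx hx1
    obtain ⟨h, rfl⟩ := T.trans x hx1
    have h3 := h1 ⟨h⁻¹ * k.1 * h, conj_ker k.2 h⟩
    rw [← F.act_mem_Z hx, sub_smul, one_smul, map_sub, ← T.sc_pow, ← T.sc_spec,
      ← T.act_mul] at h3
    have e : h * ((⟨h⁻¹ * k.1 * h, conj_ker k.2 h⟩ : ↥T.κ.ker) ^ p ^ m : ↥T.κ.ker).1 =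
        (k ^ p ^ m : ↥T.κ.ker).1 * h := by
      change h * (h⁻¹ * k.1 * h) ^ p ^ m = k.1 ^ p ^ m * h
      have : h⁻¹ * k.1 * h = h⁻¹ * k.1 * (h⁻¹)⁻¹ := by rw [inv_inv]
      rw [this, conj_pow, inv_inv]
      group
    rw [e, T.act_mul, T.sc_spec, T.sc_pow] at h3
    rwa [sub_smul, one_smul]
  refine ⟨m, fun k x hx => ?_⟩
  rw [sub_pow_char_pow, one_pow]
  obtain ⟨n, hn⟩ := T.exists_shift x
  have hc : T.c ∈ B := F.hB.1
  have h3 := h2 k _ (B.add_mem hx (B.smul_of_tower_mem n hc)) hn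
  have h4 := F.Z.sub_mem h3 (F.Z.smul_of_tower_mem n (h1 k))
  have e : (T.sc k ^ p ^ m - 1) • (x + n • T.c) - n • (T.sc k ^ p ^ m - 1) • T.c =
      (T.sc k ^ p ^ m - 1) • x := by
    rw [smul_add, smul_comm _ n, add_sub_cancel_right]
  rwa [e] at h4

theorem ker_triv [Group.IsSolvable Q] (hr : r0 Q < ℵ₀) {t : Q} (ht : T.κ t = 1) {x : V}
    (hx : x ∈ B) : T.act t x - x ∈ F.Z := by
  obtain ⟨m, hm⟩ := F.exists_exp_all hr
  have h1 := F.nil (r := T.sc ⟨t, ht⟩ - 1) (by rw [map_sub, T.aug_sc, map_one, sub_self])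
    (fun y hy => hm ⟨t, ht⟩ y hy) x hx
  have e : T.act t x = T.sc ⟨t, ht⟩ • x := T.sc_spec ⟨t, ht⟩ x
  rw [e]
  rwa [sub_smul, one_smul] at h1

theorem J_triv [Group.IsSolvable Q] (hr : r0 Q < ℵ₀) {r : R} (h : T.aug r = 0) {x : V}
    (hx : x ∈ B) : r • x ∈ F.Z := by
  classical
  obtain ⟨s, hs, hs'⟩ := T.gen r {x, T.c}
  have key : ∃ m : ℤ, ((m : ℤ) : ZMod p) = T.aug s ∧ ∀ y ∈ B, s • y - m • y ∈ F.Z := by
    refine Subring.closure_induction (p := fun s _ => ∃ m : ℤ, ((m : ℤ) : ZMod p) = T.aug s ∧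
      ∀ y ∈ B, s • y - m • y ∈ F.Z) ?_ ?_ ?_ ?_ ?_ ?_ hs
    · rintro a ⟨k, hk, hka⟩
      refine ⟨1, ?_, fun y hy => ?_⟩
      · have h1 := congrArg T.eps (hka T.c)
        rw [T.eps_act, T.eps_smul, T.eps_c, mul_one] at h1
        rw [Int.cast_one, h1]
      · rw [← hka, one_smul]
        exact F.ker_triv hr hk hy
    · exact ⟨0, by simp, fun y _ => by rw [zero_smul, zero_smul, sub_zero]; exact F.Z.zero_mem⟩
    · exact ⟨1, by simp, fun y _ => by rw [one_smul, one_smul, sub_self]; exact F.Z.zero_mem⟩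
    · rintro a b _ _ ⟨m, hm, hm'⟩ ⟨n, hn, hn'⟩
      refine ⟨m + n, by rw [Int.cast_add, hm, hn, map_add], fun y hy => ?_⟩
      have e : (a + b) • y - (m + n) • y = (a • y - m • y) + (b • y - n • y) := by
        rw [add_smul, add_smul]; abel
      rw [e]
      exact F.Z.add_mem (hm' y hy) (hn' y hy)
    · rintro a _ ⟨m, hm, hm'⟩
      refine ⟨-m, by rw [Int.cast_neg, hm, map_neg], fun y hy => ?_⟩
      have e : (-a) • y - (-m) • y = -(a • y - m • y) := by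
        rw [neg_smul, neg_smul]; abel
      rw [e]
      exact F.Z.neg_mem (hm' y hy)
    · rintro a b _ _ ⟨m, hm, hm'⟩ ⟨n, hn, hn'⟩
      refine ⟨m * n, by rw [Int.cast_mul, hm, hn, map_mul], fun y hy => ?_⟩
      have e : (a * b) • y - (m * n) • y = a • (b • y - n • y) + n • (a • y - m • y) := by
        rw [mul_smul, smul_sub, smul_sub, smul_comm a n y, mul_comm m n, mul_smul]
        abel
      rw [e]
      exact F.Z.add_mem (F.Z.smul_mem _ (hn' y hy)) (F.Z.smul_of_tower_mem n (hm' y hy))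
  obtain ⟨m, hm, hm'⟩ := key
  have hsc : r • T.c = s • T.c := hs' _ (by simp)
  have hsx : r • x = s • x := hs' _ (by simp)
  have hs0 : T.aug s = 0 := by
    have h1 := congrArg T.eps hsc
    rwa [T.eps_smul, T.eps_smul, T.eps_c, mul_one, mul_one, h, eq_comm] at h1
  rw [hs0, ZMod.intCast_zmod_eq_zero_iff_dvd] at hm
  obtain ⟨d, rfl⟩ := hm
  have h2 := hm' x hx
  have e : ((p : ℤ) * d) • x = 0 := by
    rw [mul_comm, mul_smul, natCast_zsmul, pV (T := T), smul_zero]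
  rw [e, sub_zero] at h2
  rwa [hsx]

theorem act_pow_mem {B : Submodule R V} (hB : T.A.IsBlock B) {h : Q} (hh : T.act h T.c ∈ B)
    (k : ℕ) : T.act (h ^ k) T.c ∈ B := by
  induction k with
  | zero => rw [pow_zero, T.act_one]; exact hB.1
  | succ k ih =>
    rw [pow_succ', T.act_mul]
    have h1 : T.act h (T.act (h ^ k) T.c) ∈ T.A.tr h B := T.A.act_mem_tr.2 ih
    rwa [hB.2 h hh] at h1

include F in
theorem false [Group.IsSolvable Q] (hr : r0 Q < ℵ₀) : False := by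
  obtain ⟨h, hh, hv⟩ := F.pos
  obtain ⟨m, hm, hm'⟩ := T.lemmaT hr (u := h) F.Z_le_B F.hB.1 (F.hB.2 h hh) (by
      ext x
      rw [T.A.mem_tr]
      have h1 := F.act_mem_Z hh (z := T.act h⁻¹ x)
      rw [T.act_act_inv] at h1
      exact h1.symm) (fun r x hx => F.J_triv hr (by rw [map_sub, T.aug_cj, sub_self]) hx)
  have h1 : T.act (h ^ m) T.c ∈ F.Vge (m * F.v h) := by
    rw [F.mem_Vge_iff (act_pow_mem F.hB hh m), F.v_pow hh]
  have h2 : T.act (h ^ m) T.c - T.c ∈ F.Vge (m * F.v h) := (iInf_le (fun a => F.Vge a) _ : _) hm'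
  have h3 : T.act 1 T.c ∈ F.Vge (m * F.v h) := by
    rw [T.act_one]
    have := (F.Vge _).sub_mem h1 h2
    rwa [sub_sub_cancel] at this
  rw [F.mem_Vge_iff (by rw [T.act_one]; exact F.hB.1), F.v_L 1 T.L.one_mem] at h3
  have hm0 : (0 : ℝ) < m := by exact_mod_cast hm
  have := mul_pos hm0 hv
  linarith

end Flag

end TrG

end Pool.TF90
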