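import Mathlib
import Pool.Agent.TF90.Defs
import Pool.Agent.TFN.CaseI

/-!
# Finitely generated blocks: the Bieri-Strebel argument with real valued homomorphisms
-/

set_option autoImplicit false

namespace Pool.TF90

open Cardinal Pool.TFR Pool.TFM Pool.TFN

namespace TrG

section BS

variable {G : Type} [CommGroup G] {Γ : Subgroup G}

/-- half spaces, with real valued homomorphisms -/
theorem half_space2R (C : Cl G Γ) {n : ℕ} (g : Fin n → G)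
    (hgΓ : ∀ i, g i ∈ Γ)
    (htor : ∀ x ∈ Γ, ∃ m : ℕ, 0 < m ∧ ∃ z, x ^ m = phi g z)
    (h : ∀ w : G → ℝ, (∀ x ∈ Γ, ∀ y ∈ Γ, w (x * y) = w x + w y) → (∃ x ∈ Γ, 0 < w x) →
      (1 : G) ∈ C.cl {x | x ∈ Γ ∧ 0 < w x})
    (v : Fin n → ℝ) (hv : v ≠ 0) :
    ∃ F : Finset G, (F : Set G) ⊆ Γ ∧ (1 : G) ∈ C.cl F ∧
      ∀ f ∈ F, ∃ m : ℕ, 0 < m ∧ ∃ z, f ^ m = phi g z ∧ 0 < dot v z := by
  classical
  by_cases hk : ∃ k, phi g k = 1 ∧ 0 < dot v k
  · obtain ⟨k, hk1, hk2⟩ := hk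
    refine ⟨{1}, ?_, C.sub _ (by simp), ?_⟩
    · intro x hx
      rw [Finset.mem_coe, Finset.mem_singleton] at hx
      rw [hx]; exact Γ.one_mem
    · intro f hf
      rw [Finset.mem_singleton] at hf
      exact ⟨1, one_pos, k, by rw [hf, one_pow, hk1], hk2⟩
  push Not at hk
  have hker0 : ∀ k, phi g k = 1 → dot v k = 0 := by
    intro k hk'
    refine le_antisymm (hk k hk') ?_
    have h1 := hk (-k) (by rw [phi_neg, hk', inv_one])
    rw [dot_neg] at h1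
    linarith
  have hfac : ∀ a b, phi g a = phi g b → dot v a = dot v b := by
    intro a b hab
    have h1 := hker0 (a + -b) (by rw [phi_add, phi_neg, hab, mul_inv_cancel])
    rw [dot_add, dot_neg] at h1
    linarith
  choose! m hm z hz using htor
  let w : G → ℝ := fun x => dot v (z x) / m x
  have hw : ∀ x ∈ Γ, ∀ (k : ℕ) (y : Fin n → ℤ), 0 < k → x ^ k = phi g y → dot v y = k * w x := by
    intro x hx k y hk0 hy
    have h1 := hfac (m x • y) (k • z x) (by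
      rw [phi_nsmul, phi_nsmul, ← hy, ← hz x hx, ← pow_mul, ← pow_mul, mul_comm])
    rw [dot_nsmul, dot_nsmul] at h1
    have h2 : (0 : ℝ) < m x := by exact_mod_cast hm x hx
    change dot v y = k * (dot v (z x) / m x)
    rw [← mul_div_assoc, eq_div_iff h2.ne', ← h1, mul_comm]
  have hadd : ∀ x ∈ Γ, ∀ y ∈ Γ, w (x * y) = w x + w y := by
    intro x hx y hy
    have h1 := hw (x * y) (Γ.mul_mem hx hy) (m x * m y) (m y • z x + m x • z y)
      (Nat.mul_pos (hm x hx) (hm y hy)) (by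
        rw [phi_add, phi_nsmul, phi_nsmul, ← hz x hx, ← hz y hy, mul_pow, ← pow_mul, ← pow_mul,
          mul_comm (m y) (m x)])
    have h2 : (0 : ℝ) < m x := by exact_mod_cast hm x hx
    have h3 : (0 : ℝ) < m y := by exact_mod_cast hm y hy
    rw [dot_add, dot_nsmul, dot_nsmul, hw x hx _ _ (hm x hx) (hz x hx),
      hw y hy _ _ (hm y hy) (hz y hy)] at h1
    push_cast at h1
    have h4 : (m x : ℝ) * m y * (w (x * y)) = m x * m y * (w x + w y) := by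
      rw [← h1]; ring
    exact mul_left_cancel₀ (mul_pos h2 h3).ne' h4
  have hpos : ∃ x ∈ Γ, 0 < w x := by
    obtain ⟨z0, hz0⟩ := exists_neg_dot v hv
    refine ⟨phi g (-z0), phi_mem g hgΓ _, ?_⟩
    have h1 := hw (phi g (-z0)) (phi_mem g hgΓ _) 1 (-z0) one_pos (pow_one _)
    rw [dot_neg, Nat.cast_one, one_mul] at h1
    rw [← h1]; linarith
  obtain ⟨F, hF, hfin, h1⟩ := C.fin _ _ (h w hadd hpos)
  refine ⟨hfin.toFinset, ?_, ?_, ?_⟩
  · intro x hx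
    rw [Finset.mem_coe, hfin.mem_toFinset] at hx
    exact (hF hx).1
  · rwa [hfin.coe_toFinset]
  · intro f hf
    rw [hfin.mem_toFinset] at hf
    obtain ⟨hfΓ, hf0⟩ := hF hf
    refine ⟨m f, hm f hfΓ, z f, hz f hfΓ, ?_⟩
    rw [hw f hfΓ _ _ (hm f hfΓ) (hz f hfΓ)]
    exact mul_pos (by exact_mod_cast hm f hfΓ) hf0

/-- finitely many relations suffice for all half spaces -/
theorem finite_relationsR (C : Cl G Γ) {n : ℕ} (g : Fin n → G)
    (hgΓ : ∀ i, g i ∈ Γ)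
    (htor : ∀ x ∈ Γ, ∃ m : ℕ, 0 < m ∧ ∃ z, x ^ m = phi g z)
    (h : ∀ w : G → ℝ, (∀ x ∈ Γ, ∀ y ∈ Γ, w (x * y) = w x + w y) → (∃ x ∈ Γ, 0 < w x) →
      (1 : G) ∈ C.cl {x | x ∈ Γ ∧ 0 < w x}) :
    ∃ T : Finset (Finset G), (∀ F ∈ T, (F : Set G) ⊆ Γ ∧ (1 : G) ∈ C.cl F) ∧
      ∀ v : Fin n → ℝ, v ≠ 0 → ∃ F ∈ T,
        ∀ f ∈ F, ∃ m : ℕ, 0 < m ∧ ∃ z, f ^ m = phi g z ∧ 0 < dot v z := by
  classical
  let ι := {F : Finset G // (F : Set G) ⊆ Γ ∧ (1 : G) ∈ C.cl F}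
  let U : ι → Set (Fin n → ℝ) := fun i => ⋂ f ∈ i.1,
    ⋃ (m : ℕ) (_ : 0 < m) (z : Fin n → ℤ) (_ : f ^ m = phi g z), {v | 0 < dot v z}
  have hmemU : ∀ i v, v ∈ U i ↔ ∀ f ∈ i.1, ∃ m : ℕ, 0 < m ∧ ∃ z, f ^ m = phi g z ∧
      0 < dot v z := by
    intro i v
    simp only [U, Set.mem_iInter, Set.mem_iUnion, Set.mem_ofPred_eq, exists_prop]
  have hUo : ∀ i, IsOpen (U i) := by
    intro i
    refine isOpen_biInter_finset (fun f _ => ?_)
    refine isOpen_iUnion (fun m => isOpen_iUnion (fun _ => isOpen_iUnion (fun z =>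
      isOpen_iUnion (fun _ => ?_))))
    exact isOpen_lt continuous_const (dot_continuous z)
  have hcov : Metric.sphere (0 : Fin n → ℝ) 1 ⊆ ⋃ i, U i := by
    intro v hv
    have hv1 : ‖v‖ = 1 := by simpa using hv
    have hv0 : v ≠ 0 := by
      intro h0
      rw [h0, norm_zero] at hv1
      exact zero_ne_one hv1
    obtain ⟨F, hF, hF1, hF2⟩ := half_space2R C g hgΓ htor h v hv0
    exact Set.mem_iUnion.2 ⟨⟨F, hF, hF1⟩, (hmemU _ _).2 hF2⟩
  obtain ⟨t, ht⟩ := (isCompact_sphere (0 : Fin n → ℝ) 1).elim_finite_subcover U hUo hcov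
  refine ⟨t.image (fun i => i.1), ?_, ?_⟩
  · intro F hF
    obtain ⟨i, -, rfl⟩ := Finset.mem_image.1 hF
    exact i.2
  · intro v hv
    have hpos : 0 < ‖v‖ := norm_pos_iff.2 hv
    have hv' : (‖v‖)⁻¹ • v ∈ Metric.sphere (0 : Fin n → ℝ) 1 := by
      rw [mem_sphere_zero_iff_norm, norm_smul, norm_inv, norm_norm, inv_mul_cancel₀ hpos.ne']
    obtain ⟨i, hi, hvi⟩ := Set.mem_iUnion₂.1 (ht hv')
    refine ⟨i.1, Finset.mem_image_of_mem _ hi, fun f hf => ?_⟩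
    obtain ⟨m, hm, z, hz, hz'⟩ := (hmemU i _).1 hvi f hf
    refine ⟨m, hm, z, hz, ?_⟩
    rw [dot_smul] at hz'
    exact (mul_pos_iff_of_pos_left (inv_pos.2 hpos)).1 hz'

/-- The Bieri-Strebel argument with real valued homomorphisms. -/
theorem bs2R {G : Type} [CommGroup G] {Γ : Subgroup G} (C : Cl G Γ) (Γ0 : Subgroup G)
    (h0 : Γ0 ≤ Γ) (hfg : Γ0.FG) (htor : ∀ x ∈ Γ, ∃ m : ℕ, 0 < m ∧ x ^ m ∈ Γ0)
    (h : ∀ w : G → ℝ, (∀ x ∈ Γ, ∀ y ∈ Γ, w (x * y) = w x + w y) → (∃ x ∈ Γ, 0 < w x) →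
      (1 : G) ∈ C.cl {x | x ∈ Γ ∧ 0 < w x}) :
    ∃ Γ2 : Subgroup G, Γ2 ≤ Γ ∧ Γ2.FG ∧ ∀ Γ' : Subgroup G, Γ2 ≤ Γ' → Γ' ≤ Γ → Γ'.FG →
      ∃ F : Set G, F.Finite ∧ F ⊆ Γ' ∧ (Γ' : Set G) ⊆ C.cl F := by
  classical
  obtain ⟨n, g, hg⟩ := exists_gens hfg
  have hgΓ0 : ∀ i, g i ∈ Γ0 := fun i => by rw [← hg]; exact Subgroup.subset_closure ⟨i, rfl⟩
  have hgΓ : ∀ i, g i ∈ Γ := fun i => h0 (hgΓ0 i)
  have htor' : ∀ x ∈ Γ, ∃ m : ℕ, 0 < m ∧ ∃ z, x ^ m = phi g z := by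
    intro x hx
    obtain ⟨m, hm, hxm⟩ := htor x hx
    obtain ⟨z, hz⟩ := phi_surj g hg _ hxm
    exact ⟨m, hm, z, hz.symm⟩
  obtain ⟨T, hT, hTv⟩ := finite_relationsR C g hgΓ htor' h
  let X : Finset G := T.biUnion id
  have hXΓ : (X : Set G) ⊆ Γ := by
    intro x hx
    rw [Finset.mem_coe, Finset.mem_biUnion] at hx
    obtain ⟨F, hF, hx⟩ := hx
    exact (hT F hF).1 hx
  refine ⟨Γ0 ⊔ Subgroup.closure (X : Set G), sup_le h0 ((Subgroup.closure_le _).2 hXΓ),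
    hfg.sup ⟨X, rfl⟩, ?_⟩
  intro Γ' hΓ2 hΓ' hfg'
  obtain ⟨n', g', hg'⟩ := exists_gens hfg'
  refine bsHS (C.restrict Γ' hΓ') g' hg' (fun v' hv' => ?_)
  change ∃ F : Finset (Fin n' → ℤ), (∀ f ∈ F, 0 < dot v' f) ∧
    (1 : G) ∈ C.cl (phi g' '' (F : Set (Fin n' → ℤ)))
  by_cases hker : ∃ k, phi g' k = 1 ∧ 0 < dot v' k
  · obtain ⟨k, hk, hk'⟩ := hker
    refine ⟨{k}, fun f hf => by rw [Finset.mem_singleton.1 hf]; exact hk', ?_⟩
    refine C.sub _ ⟨k, by simp, hk⟩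
  push Not at hker
  have hker0 : ∀ k, phi g' k = 1 → dot v' k = 0 := by
    intro k hk
    refine le_antisymm (hker k hk) ?_
    have h1 := hker (-k) (by rw [phi_neg, hk, inv_one])
    rw [dot_neg] at h1
    linarith
  have hfac : ∀ a b, phi g' a = phi g' b → dot v' a = dot v' b := by
    intro a b hab
    have h1 := hker0 (a + -b) (by rw [phi_add, phi_neg, hab, mul_inv_cancel])
    rw [dot_add, dot_neg] at h1
    linarith
  -- the restriction to `Γ0`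
  have hlift : ∀ i, ∃ z, phi g' z = g i := fun i =>
    phi_surj g' hg' _ (hΓ2 (Subgroup.mem_sup_left (hgΓ0 i)))
  choose zz hzz using hlift
  let v : Fin n → ℝ := fun i => dot v' (zz i)
  let lin : (Fin n → ℤ) → (Fin n' → ℤ) := fun z => ∑ i, z i • zz i
  have hlin1 : ∀ z, phi g' (lin z) = phi g z := by
    intro z
    rw [← phiH_apply]
    change Additive.toMul (phiH g' (∑ i, z i • zz i)) = _
    rw [map_sum]
    unfold phi
    rw [toMul_sum]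
    refine Finset.prod_congr rfl (fun i _ => ?_)
    rw [map_zsmul, toMul_zsmul, phiH_apply, hzz]
  have hlin2 : ∀ z, dot v' (lin z) = dot v z := by
    intro z
    rw [← dotH_apply]
    change dotH v' (∑ i, z i • zz i) = _
    rw [map_sum]
    unfold dot
    refine Finset.sum_congr rfl (fun i _ => ?_)
    rw [map_zsmul, dotH_apply, zsmul_eq_mul, mul_comm]
  have hv : v ≠ 0 := by
    intro hv0
    obtain ⟨w, hw⟩ := exists_neg_dot v' hv'
    obtain ⟨m, hm, z, hz⟩ := htor' _ (hΓ' (phi_mem g' (fun i => by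
      rw [← hg']; exact Subgroup.subset_closure ⟨i, rfl⟩) w))
    have h1 := hfac (m • w) (lin z) (by rw [phi_nsmul, hlin1, hz])
    rw [dot_nsmul, hlin2, hv0] at h1
    have h2 : dot (0 : Fin n → ℝ) z = 0 := by simp [dot]
    rw [h2] at h1
    have h3 : (0 : ℝ) < m := by exact_mod_cast hm
    nlinarith
  obtain ⟨F, hF, hFv⟩ := hTv v hv
  have hFΓ' : ∀ f ∈ F, f ∈ Γ' := fun f hf => hΓ2 (Subgroup.mem_sup_right
    (Subgroup.subset_closure (Finset.mem_coe.2 (Finset.mem_biUnion.2 ⟨F, hF, hf⟩))))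
  have hch : ∀ f ∈ F, ∃ w, phi g' w = f ∧ 0 < dot v' w := by
    intro f hf
    obtain ⟨w, hw⟩ := phi_surj g' hg' f (hFΓ' f hf)
    obtain ⟨m, hm, z, hz, hz'⟩ := hFv f hf
    refine ⟨w, hw, ?_⟩
    have h1 := hfac (m • w) (lin z) (by rw [phi_nsmul, hlin1, hw, hz])
    rw [dot_nsmul, hlin2] at h1
    have h3 : (0 : ℝ) < m := by exact_mod_cast hm
    by_contra hcon
    nlinarith
  choose! w hw1 hw2 using hch
  refine ⟨F.image w, ?_, ?_⟩
  · intro f hf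
    obtain ⟨x, hx, rfl⟩ := Finset.mem_image.1 hf
    exact hw2 x hx
  · refine C.mono ?_ (hT F hF).2
    intro x hx
    refine ⟨w x, ?_, hw1 x hx⟩
    rw [Finset.mem_coe]
    exact Finset.mem_image_of_mem _ hx

end BS

variable {p : ℕ} [Fact p.Prime] {Q Γ R V : Type} [Group Q] [CommGroup Γ] [CommRing R]
  [AddCommGroup V] [Module R V] (T : TrG p Q Γ R V)

/-- the group of lines has finite torsion-free rank -/
theorem FR_Gr (hFR : FR Γ) : FR T.Gr :=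
  (hFR.subgroup T.κ.range).of_surjective (QuotientGroup.mk' _) (QuotientGroup.mk'_surjective _)

/-- **Finitely generated blocks** -/
theorem fgb (hFR : FR Γ) (h : ∀ B : Submodule R V, T.Flag B → False) : T.FGB := by
  classical
  intro B hB
  obtain ⟨S0, hS0, hfg, htor⟩ := (T.FR_Gr hFR).sub (Amb.GB hB)
  have hreal : ∀ w : T.Gr → ℝ,
      (∀ x ∈ Amb.GB hB, ∀ y ∈ Amb.GB hB, w (x * y) = w x + w y) → (∃ x ∈ Amb.GB hB, 0 < w x) →
      (1 : T.Gr) ∈ (T.A.lineCl (Amb.GB hB)).cl {x | x ∈ Amb.GB hB ∧ 0 < w x} := by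
    intro w hw ⟨x0, hx0, hx0'⟩
    by_contra hcon
    have hiff : ∀ g : Q, T.act g T.c ∈ B ↔ T.A.q g ∈ Amb.GB hB := fun g => T.A.act_mem_iff
    refine h B
      { hB := hB
        v := fun g => w (T.A.q g)
        v_mul := ?_
        v_L := ?_
        no := ?_
        pos := ?_ }
    · intro g g' hg hg'
      rw [map_mul]
      exact hw _ ((hiff g).1 hg) _ ((hiff g').1 hg')
    · intro g hg
      have h1 : T.A.q g = 1 := T.toGr_eq_one.2 hg
      change w (T.A.q g) = 0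
      rw [h1]
      have h2 := hw 1 (Amb.GB hB).one_mem 1 (Amb.GB hB).one_mem
      rw [mul_one] at h2
      linarith
    · intro hc
      refine hcon ?_
      rw [T.A.mem_lineCl, T.A.line_one, Submodule.span_singleton_le_iff_mem]
      refine (Submodule.span_le.2 ?_ : Submodule.span R {x : V | ∃ g, T.act g T.c ∈ B ∧
        0 < w (T.A.q g) ∧ T.act g T.c = x} ≤ _) hc
      rintro x ⟨g, hg, hg', rfl⟩
      have h1 : T.A.line (T.A.q g) ≤
          ⨆ s : {x | x ∈ Amb.GB hB ∧ 0 < w x}, T.A.line s.1 :=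
        le_iSup (fun s : {x | x ∈ Amb.GB hB ∧ 0 < w x} => T.A.line s.1)
          ⟨T.A.q g, (hiff g).1 hg, hg'⟩
      exact T.A.act_mem_iff.2 h1
    · obtain ⟨g, rfl⟩ := T.A.q_surj x0
      exact ⟨g, (hiff g).2 hx0, hx0'⟩
  obtain ⟨Γ2, h1, h2, h3⟩ := bs2R (T.A.lineCl (Amb.GB hB)) S0 hS0 hfg htor hreal
  obtain ⟨F, hF, hF1, hF2⟩ := h3 (Γ2 ⊔ S0) le_sup_left (sup_le h1 hS0) (h2.sup hfg)
  have hle2 : Γ2 ⊔ S0 ≤ Amb.GB hB := sup_le h1 hS0
  refine ⟨T.A.spn (Γ2 ⊔ S0), Amb.spn_le (fun g hg => hle2 hg), Amb.isBlock_spn hB hle2 ?_, ?_, ?_⟩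
  · intro g hg
    obtain ⟨m, hm, hgm⟩ := htor g hg
    exact ⟨m, hm, Subgroup.mem_sup_right hgm⟩
  · have h4 : T.A.spn (Γ2 ⊔ S0) = ⨆ f ∈ F, T.A.line f := by
      refine le_antisymm (Amb.spn_le (fun g hg => ?_))
        (iSup₂_le (fun f hf => Amb.line_le_spn (hF1 hf)))
      have h5 := hF2 hg
      rw [T.A.mem_lineCl, iSup_subtype] at h5
      exact h5
    rw [h4]
    have : (⨆ f ∈ F, T.A.line f) = ⨆ f ∈ hF.toFinset, T.A.line f := by simp
    rw [this]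
    exact Submodule.fg_biSup _ _ (fun f _ => Submodule.fg_span_singleton _)
  · intro g hg
    obtain ⟨m, hm, hgm⟩ := htor (T.A.q g) (T.A.act_mem_iff.1 hg)
    refine ⟨m, hm, T.A.act_mem_iff.2 ?_⟩
    rw [map_pow]
    exact Amb.line_le_spn (Subgroup.mem_sup_right hgm)

end TrG

end Pool.TF90
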