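import Mathlib
import Pool.Agent.TF90.F5
import Pool.Agent.TF90.FG
import Pool.Agent.TF90.C1
import Pool.Agent.TF90.C2
import Pool.Agent.TF90.Bk3
import Pool.Agent.TF90.Fin

/-!
# Every element has a power in the stabiliser of the line
-/

set_option autoImplicit false

namespace Pool.TF90

open Cardinal Pool.TFR Pool.TFM Pool.TFN

namespace TrG

variable {p : ℕ} [Fact p.Prime] {Q Γ R V : Type} [Group Q] [CommGroup Γ] [CommRing R]
  [AddCommGroup V] [Module R V] (T : TrG p Q Γ R V)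

theorem pow_mem_L' [Group.IsSolvable Q] (hr : r0 Q < ℵ₀) (hFR : FR Γ) (h : Q) :
    ∃ m : ℕ, 0 < m ∧ h ^ m ∈ T.L := by
  by_contra hcon
  push Not at hcon
  obtain ⟨B0, hB0⟩ := T.exists_minB hFR ⟨h, hcon⟩
  have hFG : T.FGB := T.fgb hFR (fun B F => F.false hr)
  refine T.caseI hr hFG hB0 (fun u hu hu' k => ?_)
  have key : ∀ k, T.Inv ((frob p)^[k] (T.aI u)) ∧ (frob p)^[k] (T.aI u) ≤ T.A.J ∧
      T.StB B0 ((frob p)^[k] (T.aI u)) := by
    intro k
    induction k with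
    | zero => exact ⟨T.inv_aI u, T.aI_le_J u, hB0.StB_aI hr hu hu'⟩
    | succ k ih =>
      rw [Function.iterate_succ_apply']
      exact ⟨T.inv_frob ih.1, T.frob_le_J ih.2.1, T.caseII hr hFG hB0 ih.1 ih.2.1 ih.2.2⟩
  exact (key k).2.2

end TrG

theorem powL : PowL := fun _ _ _ _ _ _ _ _ _ _ _ T _ hr hFR h => T.pow_mem_L' hr hFR h

end Pool.TF90
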