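import Mathlib
import Pool.Agent.TF90.CenM

/-!
# Groups whose second derived subgroup is nilpotent, up to finitely many commutator steps
-/

set_option autoImplicit false

namespace Pool.TF90

open Cardinal Pool.TFR Pool.TFM Pool.TFN
open scoped commutatorElement

instance cs_normal (G : Type) [Group G] (k : ℕ) : (cs G k).Normal := by
  induction k with
  | zero =>
    change (⁅commutator G, commutator G⁆).Normal
    infer_instance
  | succ k ih =>
    change (⁅cs G k, (⊤ : Subgroup G)⁆).Normal
    infer_instance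

theorem lcs_normal {G : Type} [Group G] (K : Subgroup G) [K.Normal] (n : ℕ) :
    (K.lowerCentralSeries n).Normal := by
  induction n with
  | zero => exact ‹K.Normal›
  | succ n ih =>
    change (⁅K.lowerCentralSeries n, K⁆).Normal
    infer_instance

/-- the derived series of a subgroup, as subgroups of the whole group -/
def dsG {G : Type} [Group G] (K : Subgroup G) : ℕ → Subgroup G
  | 0 => K
  | n + 1 => ⁅dsG K n, dsG K n⁆

theorem dsG_normal {G : Type} [Group G] (K : Subgroup G) [K.Normal] (n : ℕ) :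
    (dsG K n).Normal := by
  induction n with
  | zero => exact ‹K.Normal›
  | succ n ih =>
    change (⁅dsG K n, dsG K n⁆).Normal
    infer_instance

theorem dsG_le {G : Type} [Group G] (K : Subgroup G) (n : ℕ) :
    dsG K n ≤ derivedSeries G n := by
  induction n with
  | zero => rw [derivedSeries_zero]; exact le_top
  | succ n ih =>
    rw [derivedSeries_succ]
    exact Subgroup.commutator_mono ih ih

theorem dsG_anti {G : Type} [Group G] (K : Subgroup G) [K.Normal] (n : ℕ) : dsG K n ≤ K := by
  induction n with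
  | zero => exact le_rfl
  | succ n ih =>
    have := dsG_normal K n
    exact Subgroup.commutator_le_left _ _ |>.trans ih

/-- the last member of a sequence not contained in a given subgroup -/
theorem exists_last {G : Type} [Group G] (f : ℕ → Subgroup G) (N : Subgroup G) (h0 : ¬ f 0 ≤ N)
    {m : ℕ} (hm : f m = ⊥) : ∃ n, ¬ f n ≤ N ∧ f (n + 1) ≤ N := by
  classical
  have hex : ∃ n, f n ≤ N := ⟨m, by rw [hm]; exact bot_le⟩
  obtain ⟨i, hi⟩ : ∃ i, i = Nat.find hex := ⟨_, rfl⟩
  have h1 : f i ≤ N := by rw [hi]; exact Nat.find_spec hex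
  cases i with
  | zero => exact absurd h1 h0
  | succ i => exact ⟨i, Nat.find_min hex (by rw [← hi]; exact Nat.lt_succ_self i), h1⟩

theorem comm_mem_of_normal {G : Type} [Group G] {T : Subgroup G} (hT : T.Normal) (a : G) {x : G}
    (hx : x ∈ T) : ⁅a, x⁆ ∈ T := by
  rw [commutatorElement_def]
  exact T.mul_mem (hT.conj_mem _ hx a) (T.inv_mem hx)

theorem comm_mem_of_normal' {G : Type} [Group G] {T : Subgroup G} (hT : T.Normal) {a : G} (x : G)
    (ha : a ∈ T) : ⁅a, x⁆ ∈ T := by
  have : ⁅a, x⁆ = a * (x * a⁻¹ * x⁻¹) := by rw [commutatorElement_def]; group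
  rw [this]
  exact T.mul_mem ha (hT.conj_mem _ (T.inv_mem ha) x)

/-- If the second derived subgroup, or one of its iterated commutator subgroups with the whole
group, is nilpotent, then the product formula holds. -/
theorem main_nilp (H : PowL) (G : Type) [Group G] [Group.IsSolvable G] (hr : r0 G < ℵ₀) (k : ℕ)
    (hK : Group.IsNilpotent ↥(cs G k)) : ProdFormula G := by
  intro A B hAB
  have hTn := torRad_normal G
  refine mainC H G hr A B hAB (torRad G) hTn (torRad_isTor G)
    (fun S hS hSt x hx => ⟨S, hS, hSt, hx⟩) (fun N hN hNT => ?_)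
  suffices h : ∃ X : Subgroup G, X.Normal ∧ X ≤ torRad G ∧ ¬ X ≤ N ∧
      (∀ x ∈ X, ∀ y ∈ X, ⁅x, y⁆ ∈ N) ∧ ∀ a ∈ cs G k, ∀ x ∈ X, ⁅a, x⁆ ∈ N by
    obtain ⟨X, hX, hXT, hXN, hXX, hX2⟩ := h
    have hker : ∀ x, QuotientGroup.mk' N x = 1 ↔ x ∈ N := fun x => QuotientGroup.eq_one_iff x
    have hred : ∀ x ∈ X ⊔ N, ∃ x' ∈ X, QuotientGroup.mk' N x = QuotientGroup.mk' N x' := by
      intro x hx
      obtain ⟨x', hx', n, hn, rfl⟩ := Subgroup.mem_sup_of_normal_left.1 hx
      exact ⟨x', hx', by rw [map_mul, (hker n).2 hn, mul_one]⟩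
    refine ⟨X ⊔ N, inferInstance, ?_, sup_le hXT hNT.le, ?_, Or.inl ⟨k, ?_⟩⟩
    · exact lt_of_le_of_ne le_sup_right (fun h => hXN (h ▸ le_sup_left))
    · intro x hx y hy
      obtain ⟨x', hx', ex⟩ := hred x hx
      obtain ⟨y', hy', ey⟩ := hred y hy
      rw [← hker, map_commutatorElement, ex, ey, ← map_commutatorElement, hker]
      exact hXX x' hx' y' hy'
    · intro a ha x hx
      obtain ⟨x', hx', ex⟩ := hred x hx
      rw [← hker, map_commutatorElement, ex, ← map_commutatorElement, hker]
      exact hX2 _ (cs_map_le A.subtype k ⟨a, ha, rfl⟩) x' hx'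
  have hKn : (cs G k).Normal := inferInstance
  by_cases hc : torRad G ⊓ cs G k ≤ N
  · obtain ⟨m, hm⟩ := (Group.isSolvable_def G).1 inferInstance
    obtain ⟨n, hn1, hn2⟩ := exists_last (dsG (torRad G)) N (fun h => not_le_of_gt hNT h)
      (m := m) (by rw [eq_bot_iff, ← hm]; exact dsG_le _ m)
    have hle := dsG_anti (torRad G) n
    refine ⟨dsG (torRad G) n, dsG_normal _ n, hle, hn1, fun x hx y hy => hn2 ?_,
      fun a ha x hx => hc ⟨comm_mem_of_normal hTn a (hle hx), comm_mem_of_normal' hKn x ha⟩⟩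
    exact Subgroup.commutator_mem_commutator hx hy
  · obtain ⟨m, hm⟩ := (Subgroup.isNilpotent_iff_lowerCentralSeries _).1 hK
    obtain ⟨n, hn1, hn2⟩ := exists_last
      (fun n => torRad G ⊓ (cs G k).lowerCentralSeries n) N hc (m := m) (by
        rw [hm, inf_bot_eq])
    have hln := lcs_normal (cs G k) n
    have hkey : ∀ a ∈ cs G k, ∀ x ∈ torRad G ⊓ (cs G k).lowerCentralSeries n, ⁅a, x⁆ ∈ N := by
      intro a ha x hx
      refine hn2 ⟨comm_mem_of_normal hTn a hx.1, ?_⟩
      change ⁅a, x⁆ ∈ ⁅(cs G k).lowerCentralSeries n, cs G k⁆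
      rw [Subgroup.commutator_comm]
      exact Subgroup.commutator_mem_commutator ha hx.2
    have hle : (cs G k).lowerCentralSeries n ≤ cs G k :=
      (cs G k).lowerCentralSeries_antitone (Nat.zero_le n)
    exact ⟨torRad G ⊓ (cs G k).lowerCentralSeries n, inferInstance, inf_le_left, hn1,
      fun x hx y hy => hkey x (hle hx.2) y hy, hkey⟩

/-- the formula for groups of derived length at most three -/
theorem main_d3' (H : PowL) (G : Type) [Group G] (hr : r0 G < ℵ₀)
    (h3 : derivedSeries G 3 = ⊥) : ProdFormula G := by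
  have hsol : Group.IsSolvable G := (Group.isSolvable_def G).2 ⟨3, h3⟩
  refine main_nilp H G hr 0 ?_
  have h2 : cs G 0 = derivedSeries G 2 := by
    rw [derivedSeries_succ, derivedSeries_one]; rfl
  have hc : ∀ x y : ↥(cs G 0), x * y = y * x := by
    intro x y
    refine Subtype.ext ?_
    have h4 : ⁅(x : G), (y : G)⁆ ∈ derivedSeries G 3 := by
      rw [derivedSeries_succ]
      exact Subgroup.commutator_mem_commutator (h2 ▸ x.2) (h2 ▸ y.2)
    rw [h3, Subgroup.mem_bot, commutatorElement_eq_one_iff_mul_comm] at h4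
    exact h4
  let _ : CommGroup ↥(cs G 0) := { (inferInstance : Group ↥(cs G 0)) with mul_comm := hc }
  exact CommGroup.isNilpotent

end Pool.TF90
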