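import Mathlib
import Pool.Agent.TFN.Val

/-!
# The flag lemma, part 1: shrinking elements, the nilpotent case
-/

set_option autoImplicit false

namespace Pool.TFN

open Pool.TFM

namespace Amb

variable {p : ℕ} [Fact p.Prime] {H G R V : Type} [Group H] [CommGroup G] [CommRing R]
  [AddCommGroup V] [Module R V] (A : Amb p H G R V)

theorem line_inj {a b : G} (h : A.line a ≤ A.line b) : a = b := by
  have h1 := A.tr_mono (A.s b)⁻¹ h
  rw [A.tr_line, A.tr_line, map_inv, A.q_s, inv_mul_cancel, A.line_one] at h1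
  have h2 := A.line_one_le h1
  rw [inv_mul_eq_one] at h2
  exact h2.symm

/-- elements with the same image in the group of lines act in the same way on lines -/
theorem act_mem_span {a b : H} (h : A.q a = A.q b) {x : V} (hx : A.eps x = 1) :
    A.act a x ∈ Submodule.span R {A.act b x} := by
  obtain ⟨κ, hκ⟩ := A.exists_line hx
  rw [← A.tr_span b x, ← hκ, A.tr_line, ← h, ← A.tr_line, hκ, A.tr_span]
  exact Submodule.mem_span_singleton_self _

theorem mul_smul_mem_span {x y : V} (r : R) (h : y ∈ Submodule.span R {x}) :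
    r • y ∈ Submodule.span R {r • x} := by
  obtain ⟨u, rfl⟩ := Submodule.mem_span_singleton.1 h
  rw [smul_comm]
  exact Submodule.smul_mem _ _ (Submodule.mem_span_singleton_self _)

end Amb

namespace VD

open Amb

variable {p : ℕ} [Fact p.Prime] {H G R V : Type} [Group H] [CommGroup G] [CommRing R]
  [AddCommGroup V] [Module R V] {A : Amb p H G R V} {B : Submodule R V} {Λ : Type}
  [CommGroup Λ] [LinearOrder Λ] [IsOrderedMonoid Λ] (D : VD A B Λ)

theorem act_Vge (γ : D.Gam) {h : H} (hg : A.q h = γ.1) {a : Λ} {x : V} (hx : x ∈ D.Vge a) :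
    A.act h x ∈ D.Vge (D.lv γ * a) := by
  rw [← D.tr_Vge γ h hg]
  exact A.act_mem_tr.2 hx

theorem act_inv_Vge (γ : D.Gam) {h : H} (hg : A.q h = γ.1) {a : Λ} {x : V} (hx : x ∈ D.Vge a) :
    A.act h⁻¹ x ∈ D.Vge ((D.lv γ)⁻¹ * a) := by
  have h1 := D.act_Vge γ⁻¹ (h := h⁻¹) (by rw [map_inv, hg]; rfl) hx
  rwa [map_inv] at h1

theorem act_Z (γ : D.Gam) {h : H} (hg : A.q h = γ.1) {x : V} (hx : x ∈ D.Z) :
    A.act h x ∈ D.Z := by
  rw [← D.tr_Z γ h hg]
  exact A.act_mem_tr.2 hx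

theorem act_B (γ : D.Gam) {h : H} (hg : A.q h = γ.1) {x : V} (hx : x ∈ B) :
    A.act h x ∈ B := by
  have h1 := D.hB.tr_GB (h := h) (by rw [hg]; exact γ.2)
  rw [← h1]
  exact A.act_mem_tr.2 hx

theorem span_le_Vge {x : V} {κ : D.Gam} (hκ : A.line κ.1 = Submodule.span R {x}) :
    Submodule.span R {x} ≤ D.Vge (D.lv κ) := by
  rw [← hκ]
  exact D.line_le_Vge le_rfl

/-- A shrinking element: `g` maps `x` to `y + w` with `w` far. -/
structure Shr (D : VD A B Λ) (x y w : V) (κ γ : D.Gam) (g : H) (b d : Λ) : Prop where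
  hx1 : A.eps x = 1
  hκ : A.line κ.1 = Submodule.span R {x}
  hy : y ∈ Submodule.span R {x}
  hw : w ∈ D.Vge d
  hw1 : A.eps w = 1
  hg : A.q g = γ.1
  eq : A.act g x = y + w
  one_le : 1 ≤ D.lv γ
  lt : D.lv γ * D.lv κ < b

theorem exists_shr {x y : V} (hx1 : A.eps x = 1) {κ : D.Gam}
    (hκ : A.line κ.1 = Submodule.span R {x}) (hy : y ∈ Submodule.span R {x}) (hyM : y ∈ A.M)
    {b d : Λ} (hyb : y ∉ D.Vge b) (hbd : b ≤ d) (hκd : D.lv κ ≤ d) :
    ∃ (w : V) (γ : D.Gam) (g : H), D.Shr x y w κ γ g b d := by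
  obtain ⟨ν, hν⟩ := D.exists_gt d
  have hyκ : y ∈ D.Vge (D.lv κ) := D.span_le_Vge hκ hy
  have hw : A.e ν.1 ∈ D.Vge d := D.e_mem_Vge hν.le
  have h1 : A.eps (y + A.e ν.1) = 1 := by rw [map_add, A.mem_M.1 hyM, A.eps_e, zero_add]
  obtain ⟨τ, hτ⟩ := D.state (B.add_mem (D.Vge_le_B _ hyκ) (D.e_mem_B ν)) h1
  obtain ⟨h, hh⟩ := A.trans x hx1
  obtain ⟨h', hh'⟩ := A.trans _ h1
  have e1 : A.q h = κ.1 := A.line_inj (by rw [← A.span_act, hh, hκ])
  have e2 : A.q h' = τ.1 := A.line_inj (by rw [← A.span_act, hh', hτ])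
  refine ⟨A.e ν.1, τ * κ⁻¹, h' * h⁻¹, hx1, hκ, hy, hw, A.eps_e _, ?_, ?_, ?_, ?_⟩
  · rw [map_mul, map_inv, e1, e2]; rfl
  · rw [A.act_mul, ← hh, A.act_inv_act, hh']
  · rw [map_mul, map_inv, le_mul_inv_iff_mul_le, one_mul, ← D.line_le_Vge_iff, D.state_mem hτ]
    exact (D.Vge _).add_mem hyκ (D.Vge_mono hκd hw)
  · rw [map_mul, map_inv, inv_mul_cancel_right]
    by_contra hcon
    have h2 := D.line_le_Vge (not_lt.1 hcon)
    rw [D.state_mem hτ] at h2
    have h3 := (D.Vge _).sub_mem h2 (D.Vge_mono hbd hw)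
    rw [add_sub_cancel_right] at h3
    exact hyb h3

namespace Shr

variable {D} {x y w : V} {κ γ : D.Gam} {g : H} {b d : Λ} (S : D.Shr x y w κ γ g b d)

include S

/-- a shrinking element moves all lines to themselves up to far elements -/
theorem act_one {z : V} {ω : D.Gam} (hω : A.line ω.1 = Submodule.span R {z}) :
    A.act g z ∈ Submodule.span R {z} ⊔ D.Vge (D.lv ω * (D.lv κ)⁻¹ * d) := by
  set h : H := A.s (ω * κ⁻¹ : D.Gam).1 with hh
  have hq : A.q h = (ω * κ⁻¹ : D.Gam).1 := A.q_s _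
  have h1 : Submodule.span R {A.act h x} = Submodule.span R {z} := by
    rw [← hω, ← A.tr_span, ← S.hκ, A.tr_line, hq]
    congr 1
    change (ω.1 * κ.1⁻¹) * κ.1 = ω.1
    rw [inv_mul_cancel_right]
  have h2 : z ∈ Submodule.span R {A.act h x} := by
    rw [h1]; exact Submodule.mem_span_singleton_self _
  obtain ⟨u, hu⟩ := Submodule.mem_span_singleton.1 h2
  obtain ⟨u', -, hu'⟩ := A.exists_conj g u
  rw [← hu, hu', hu]
  refine Submodule.smul_mem _ _ ?_
  rw [← A.act_mul]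
  have h3 := A.act_mem_span (a := g * h) (b := h * g) (by rw [map_mul, map_mul, mul_comm]) S.hx1
  obtain ⟨r, hr⟩ := Submodule.mem_span_singleton.1 h3
  rw [← hr, A.act_mul, S.eq, map_add]
  refine Submodule.smul_mem _ _ (Submodule.add_mem _ (Submodule.mem_sup_left ?_)
    (Submodule.mem_sup_right ?_))
  · obtain ⟨s, hs⟩ := Submodule.mem_span_singleton.1 S.hy
    obtain ⟨s', -, hs'⟩ := A.exists_conj h s
    rw [← hs, hs', ← h1]
    exact Submodule.smul_mem _ _ (Submodule.mem_span_singleton_self _)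
  · have h4 := D.act_Vge (ω * κ⁻¹) hq S.hw
    rwa [map_mul, map_inv] at h4

/-- the same for elements of augmentation zero -/
theorem act_zero {z : V} {a : Λ} (hz : z ∈ D.Vge a) (hz0 : z ∈ A.M) :
    A.act g z ∈ Submodule.span R {z} ⊔ D.Vge (a * (D.lv κ)⁻¹ * d) := by
  set t : Λ := a * (D.lv κ)⁻¹ * d with ht
  obtain ⟨ν, hν⟩ := D.exists_gt (max a (max t ((D.lv γ)⁻¹ * t)))
  have hν1 : a ≤ D.lv ν := (le_max_left _ _).trans hν.le
  have hν2 : t ≤ D.lv ν := ((le_max_left _ _).trans (le_max_right _ _)).trans hν.le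
  have hν3 : (D.lv γ)⁻¹ * t ≤ D.lv ν :=
    ((le_max_right _ _).trans (le_max_right _ _)).trans hν.le
  have h1 : A.eps (z + A.e ν.1) = 1 := by rw [map_add, A.mem_M.1 hz0, A.eps_e, zero_add]
  obtain ⟨ω, hω⟩ := D.state (B.add_mem (D.Vge_le_B _ hz) (D.e_mem_B ν)) h1
  have h2 : a ≤ D.lv ω := by
    rw [← D.line_le_Vge_iff, D.state_mem hω]
    exact (D.Vge _).add_mem hz (D.e_mem_Vge hν1)
  have h3 : t ≤ D.lv ω * (D.lv κ)⁻¹ * d := by
    rw [ht]
    gcongr
  obtain ⟨m, hm, f, hf, hmf⟩ := Submodule.mem_sup.1 (S.act_one hω)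
  obtain ⟨u, rfl⟩ := Submodule.mem_span_singleton.1 hm
  have h4 : A.act g (A.e ν.1) ∈ D.Vge t := by
    have h5 := D.act_Vge γ S.hg (D.e_mem_Vge (le_refl (D.lv ν)))
    exact D.Vge_mono (inv_mul_le_iff_le_mul.1 hν3) h5
  have h5 : A.act g z = u • z + (u • A.e ν.1 + f - A.act g (A.e ν.1)) := by
    have h6 : A.act g z = A.act g (z + A.e ν.1) - A.act g (A.e ν.1) := by
      rw [map_add, add_sub_cancel_right]
    rw [h6, ← hmf, smul_add]
    abel
  rw [h5]
  refine Submodule.add_mem _ (Submodule.mem_sup_left (Submodule.smul_mem _ _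
    (Submodule.mem_span_singleton_self _))) (Submodule.mem_sup_right ?_)
  exact (D.Vge _).sub_mem ((D.Vge _).add_mem ((D.Vge _).smul_mem _ (D.e_mem_Vge hν2))
    (D.Vge_mono h3 hf)) h4

end Shr

/-- **The nilpotent case.** -/
theorem nil_step {r : R} (hr : r ∈ A.J) {M : ℕ}
    (hM : ∀ x ∈ B, A.eps x = 1 → r ^ (M + 2) • x ∈ D.Z) :
    ∀ x ∈ B, A.eps x = 1 → r ^ (M + 1) • x ∈ D.Z := by
  intro x hx hx1
  by_contra hcon
  have hrx : r • x ∉ D.Z := by
    intro h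
    refine hcon ?_
    rw [pow_succ, mul_smul]
    exact D.Z.smul_mem _ h
  obtain ⟨b, hb⟩ := D.exists_notMem hrx
  obtain ⟨κ, hκ⟩ := D.state hx hx1
  set β : Λ := b * (D.lv κ)⁻¹ with hβ
  refine hcon (D.mem_Z_of (fun a0 => ?_))
  obtain ⟨ν0, hν0⟩ := D.exists_gt a0
  refine ⟨D.lv ν0, hν0, ?_⟩
  -- choose a shrinking element
  set d : Λ := max b (max (D.lv κ) (β * β * D.lv ν0)) with hd
  obtain ⟨w, γ, g, S⟩ := D.exists_shr (y := r • x) hx1 hκ
    (Submodule.smul_mem _ _ (Submodule.mem_span_singleton_self _))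
    (by rw [A.mem_M, A.eps_smul, A.mem_J.1 hr, zero_mul]) hb
    (le_max_left _ _ : b ≤ d) ((le_max_left _ _).trans (le_max_right _ _))
  have hdν : β * β * D.lv ν0 ≤ d := (le_max_right _ _).trans (le_max_right _ _)
  have hγβ : D.lv γ ≤ β := by
    rw [hβ, le_mul_inv_iff_mul_le]
    exact S.lt.le
  have hfin : D.lv ν0 ≤ (D.lv γ)⁻¹ * ((D.lv γ)⁻¹ * d) := by
    rw [le_inv_mul_iff_mul_le, le_inv_mul_iff_mul_le, ← mul_assoc]
    refine le_trans ?_ hdν
    gcongr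
  -- the point `z`
  set z : V := A.act g⁻¹ x with hz
  have hgz : A.act g z = x := A.act_act_inv _ _
  have hz1 : A.eps z = 1 := by rw [hz, A.eps_act, hx1]
  have hzV : z ∈ D.Vge ((D.lv γ)⁻¹ * D.lv κ) :=
    D.act_inv_Vge γ S.hg (D.span_le_Vge hκ (Submodule.mem_span_singleton_self _))
  have hzB : z ∈ B := D.Vge_le_B _ hzV
  set y : V := r ^ (M + 1) • z with hy
  have hyM : y ∈ A.M := by
    rw [A.mem_M, hy, A.eps_smul, map_pow, A.mem_J.1 hr, zero_pow (by omega), zero_mul]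
  have hyV : y ∈ D.Vge ((D.lv γ)⁻¹ * D.lv κ) := (D.Vge _).smul_mem _ hzV
  have h1 := S.act_zero hyV hyM
  rw [mul_inv_cancel_right] at h1
  -- `r • g y` is far
  have h2 : r • A.act g y ∈ D.Vge ((D.lv γ)⁻¹ * d) := by
    obtain ⟨m, hm, f, hf, hmf⟩ := Submodule.mem_sup.1 h1
    obtain ⟨u, rfl⟩ := Submodule.mem_span_singleton.1 hm
    rw [← hmf, smul_add]
    refine (D.Vge _).add_mem ?_ ((D.Vge _).smul_mem _ hf)
    rw [smul_comm, hy, smul_smul r, ← pow_succ']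
    exact (D.Vge _).smul_mem _ (D.Z_le_Vge _ (hM z hzB hz1))
  have h3 := D.act_inv_Vge γ S.hg h2
  obtain ⟨r', -, hr'⟩ := A.exists_conj g⁻¹ r
  rw [hr', A.act_inv_act, hy, smul_comm, hz, ← hr'] at h3
  have h4 : A.act g⁻¹ (r • x) = x - A.act g⁻¹ w := by
    have h5 : r • x = A.act g x - w := by rw [S.eq, add_sub_cancel_right]
    rw [h5, map_sub, A.act_inv_act]
  rw [h4, smul_sub] at h3
  have h5 : r ^ (M + 1) • A.act g⁻¹ w ∈ D.Vge ((D.lv γ)⁻¹ * ((D.lv γ)⁻¹ * d)) := by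
    refine (D.Vge _).smul_mem _ (D.Vge_mono ?_ (D.act_inv_Vge γ S.hg S.hw))
    have h6 : (D.lv γ)⁻¹ ≤ 1 := inv_le_one'.2 S.one_le
    exact mul_le_mul_right (mul_le_of_le_one_left' h6) _
  have h6 := (D.Vge _).add_mem h3 h5
  rw [sub_add_cancel] at h6
  exact D.Vge_mono hfin h6

/-- nilpotent elements act trivially modulo the intersection of the filtration -/
theorem nil_kill {r : R} (hr : r ∈ A.J) {M : ℕ}
    (hM : ∀ x ∈ B, A.eps x = 1 → r ^ M • x ∈ D.Z) :
    ∀ x ∈ B, A.eps x = 1 → r • x ∈ D.Z := by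
  induction M with
  | zero =>
    intro x hx hx1
    have := hM x hx hx1
    rw [pow_zero, one_smul] at this
    exact D.Z.smul_mem _ this
  | succ M ih =>
    rcases M with _ | M
    · intro x hx hx1
      have := hM x hx hx1
      rwa [zero_add, pow_one] at this
    · exact ih (D.nil_step hr hM)

end VD

end Pool.TFN
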