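import Mathlib
import Pool.Agent.TFM8.Key

/-!
# Key Lemma (K1)
-/

set_option autoImplicit false

namespace Pool.TF90

theorem key_lemma {R M : Type} [CommRing R] [AddCommGroup M] [Module R M] [Module.Finite R M]
    (b : Ideal R) (D : ℕ)
    (h : ∀ (A : Type) [AddCommGroup A] [Module R A] (B : MultilinearMap R (fun _ : Fin D => M) A),
      (∀ (s : Equiv.Perm (Fin D)) (v : Fin D → M), B (v ∘ s) = B v) →
        ∀ r ∈ b, ∀ v : Fin D → M, r • B v = 0) :
    ∃ k : ℕ, b ^ k • (⊤ : Submodule R M) = ⊥ := by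
  refine TFM8.key_lemma (ι := Fin D) b fun W B hB r hr v => ?_
  exact h (M ⧸ W) B (fun s v => hB s v) r hr v

end Pool.TF90
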